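import Mathlib

/-!
The Navier-Stokes equations with Dirichlet boundary conditions in a bounded open set, projected
orthogonally on a space of square integrable divergence-free fields: definitions.
-/

namespace Pool.Agent.Run7.h980.DW

open Set Filter Topology MeasureTheory
open scoped ContDiff

/-- Points and vectors of `ℝ³` (with the maximum norm). -/
abbrev E3 : Type := Fin 3 → ℝ

/-- The derivative of a scalar function in the direction of the `j`-th axis. -/
noncomputable def pderiv (j : Fin 3) (f : E3 → ℝ) (x : E3) : ℝ := fderiv ℝ f x (Pi.single j 1)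

/-- The divergence of a vector field. -/
noncomputable def divergence (u : E3 → E3) (x : E3) : ℝ := ∑ i, pderiv i (fun y => u y i) x

/-- The matrix `∂_j v_i`. -/
noncomputable def grad (v : E3 → E3) (x : E3) (i j : Fin 3) : ℝ := pderiv j (fun y => v y i) x

/-- Smooth divergence-free fields with compact support in `Ω`. -/
structure IsTest (Ω : Set E3) (v : E3 → E3) : Prop where
  smooth : ContDiff ℝ ∞ v
  compact : HasCompactSupport v
  supp : tsupport v ⊆ Ω
  div_free : ∀ x, divergence v x = 0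

/-- `w` is in the space `H`: the closure of the test fields in `L²(Ω)`. -/
structure InH (Ω : Set E3) (w : E3 → E3) : Prop where
  memL2 : ∀ i, MemLp (fun x => w x i) 2 (volume.restrict Ω)
  approx : ∀ ε > 0, ∃ v, IsTest Ω v ∧ ∫ x in Ω, ∑ i, (w x i - v x i) ^ 2 < ε

/-- `w` is in the space `V` and `G` is its gradient: `(w, G)` is in the closure of the pairs
`(v, ∇v)`, `v` a test field, in `L²(Ω)`. -/
structure InV (Ω : Set E3) (w : E3 → E3) (G : E3 → Fin 3 → Fin 3 → ℝ) : Prop where
  memL2 : ∀ i, MemLp (fun x => w x i) 2 (volume.restrict Ω)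
  memL2_grad : ∀ i j, MemLp (fun x => G x i j) 2 (volume.restrict Ω)
  approx : ∀ ε > 0, ∃ v, IsTest Ω v ∧
    ∫ x in Ω, (∑ i, (w x i - v x i) ^ 2 + ∑ i, ∑ j, (G x i j - grad v x i j) ^ 2) < ε

/-- `u` is a weak solution on `(0,T)`, with initial value `u₀`, of the Navier-Stokes equations
with Dirichlet boundary conditions in `Ω` projected on the space `W`, with the regularity
`∂ₜu ∈ L^∞(0,T;L²(Ω))`: for almost every `t` the field `u(t)` is in `W` and in `V`, with gradient
`G(t)`; `u` and `∂ₜu = u'` are bounded in `L²(Ω)`; and for almost every `t` the equation holds when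
it is tested with any field of `W` which is in `V`. -/
structure IsStrong (Ω : Set E3) (W : Submodule ℝ (E3 → E3)) (ν T : ℝ) (u₀ : E3 → E3)
    (u : ℝ → E3 → E3) (G : ℝ → E3 → Fin 3 → Fin 3 → ℝ) (u' : ℝ → E3 → E3) : Prop where
  meas : ∀ i, AEStronglyMeasurable (fun z : ℝ × E3 => u' z.1 z.2 i)
    ((volume.restrict (Ioo 0 T)).prod (volume.restrict Ω))
  mem : ∀ᵐ t ∂(volume.restrict (Ioo 0 T)), u t ∈ W ∧ InV Ω (u t) (G t)
  bound : ∃ C, ∀ᵐ t ∂(volume.restrict (Ioo 0 T)),
    (∀ i, MemLp (fun x => u' t x i) 2 (volume.restrict Ω)) ∧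
    ∫ x in Ω, ∑ i, u t x i ^ 2 ≤ C ∧ ∫ x in Ω, ∑ i, u' t x i ^ 2 ≤ C
  ftc : ∀ᵐ t ∂(volume.restrict (Ioo 0 T)), ∀ᵐ x ∂(volume.restrict Ω), ∀ i,
    u t x i = u₀ x i + ∫ s in (0 : ℝ)..t, u' s x i
  eqn : ∀ᵐ t ∂(volume.restrict (Ioo 0 T)), ∀ v ∈ W, ∀ D, InV Ω v D →
    ∫ x in Ω, ∑ i, (u' t x i * v x i + (∑ j, u t x j * G t x i j) * v x i
      + ν * ∑ j, G t x i j * D x i j) = 0

end Pool.Agent.Run7.h980.DW
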