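import Mathlib

/-!
Norms of `L^p` as real numbers and the inequality of Hölder.
-/

namespace Pool.Agent.Run7.h980.DW

open Set Filter Topology MeasureTheory
open scoped ENNReal NNReal

variable {X : Type} [MeasurableSpace X] {μ : Measure X}

/-- The norm of `L^p`. -/
noncomputable def nrm (μ : Measure X) (p : ℝ≥0∞) (f : X → ℝ) : ℝ := (eLpNorm f p μ).toReal

theorem nrm_nonneg (p : ℝ≥0∞) (f : X → ℝ) : 0 ≤ nrm μ p f := ENNReal.toReal_nonneg

theorem nrm_pow {f : X → ℝ} {n : ℕ} (hn : n ≠ 0) (hf : MemLp f n μ) :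
    nrm μ n f ^ n = ∫ x, |f x| ^ n ∂μ := by
  have h1 := hf.eLpNorm_eq_integral_rpow_norm (by exact_mod_cast hn) (by simp)
  have h0 : 0 ≤ ∫ x, |f x| ^ n ∂μ := integral_nonneg fun x => by positivity
  unfold nrm
  rw [h1, ENNReal.toReal_ofReal (Real.rpow_nonneg (integral_nonneg fun x => by positivity) _)]
  simp only [ENNReal.toReal_natCast, Real.norm_eq_abs, Real.rpow_natCast]
  exact Real.rpow_inv_natCast_pow h0 hn

theorem nrm_two_sq {f : X → ℝ} (hf : MemLp f 2 μ) : nrm μ 2 f ^ 2 = ∫ x, f x ^ 2 ∂μ := by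
  have h := nrm_pow (n := 2) two_ne_zero (by exact_mod_cast hf)
  simp only [sq_abs] at h
  exact_mod_cast h

theorem abs_int_le (h : X → ℝ) : |∫ x, h x ∂μ| ≤ nrm μ 1 h := by
  unfold nrm
  rw [eLpNorm_one_eq_lintegral_enorm, ← Real.norm_eq_abs]
  have h2 := norm_integral_le_lintegral_norm (μ := μ) h
  refine h2.trans (le_of_eq ?_)
  congr 1
  apply lintegral_congr
  intro x
  rw [ofReal_norm]

theorem hold {p q r : ℝ≥0∞} [ENNReal.HolderTriple p q r] {f g : X → ℝ} (hf : MemLp f p μ)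
    (hg : MemLp g q μ) :
    MemLp (fun x => f x * g x) r μ ∧ nrm μ r (fun x => f x * g x) ≤ nrm μ p f * nrm μ q g := by
  refine ⟨MemLp.mul' hg hf, ?_⟩
  unfold nrm
  rw [← ENNReal.toReal_mul]
  apply ENNReal.toReal_mono (ENNReal.mul_ne_top hf.2.ne hg.2.ne)
  have h := eLpNorm_smul_le_mul_eLpNorm (p := p) (q := q) (r := r) hg.1 hf.1
  have e : f • g = fun x => f x * g x := by
    funext x
    rfl
  rw [e] at h
  exact h

instance h442 : ENNReal.HolderTriple 4 4 2 := ⟨by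
  rw [← ENNReal.toReal_eq_toReal_iff' (by simp) (by simp)]
  norm_num [ENNReal.toReal_add, ENNReal.toReal_inv]⟩

theorem hold2 {f g : X → ℝ} (hf : MemLp f 2 μ) (hg : MemLp g 2 μ) :
    Integrable (fun x => f x * g x) μ ∧ |∫ x, f x * g x ∂μ| ≤ nrm μ 2 f * nrm μ 2 g := by
  have h := hold (r := 1) hf hg
  exact ⟨memLp_one_iff_integrable.1 h.1, (abs_int_le _).trans h.2⟩

theorem hold3 {f g h : X → ℝ} (hf : MemLp f 4 μ) (hg : MemLp g 2 μ) (hh : MemLp h 4 μ) :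
    Integrable (fun x => f x * g x * h x) μ ∧
      |∫ x, f x * g x * h x ∂μ| ≤ nrm μ 4 f * nrm μ 2 g * nrm μ 4 h := by
  have h1 := hold (r := 2) hf hh
  have h2 := hold2 h1.1 hg
  have e : ∀ x, f x * h x * g x = f x * g x * h x := fun x => by ring
  simp_rw [e] at h2
  refine ⟨h2.1, h2.2.trans ?_⟩
  have := mul_le_mul_of_nonneg_right h1.2 (nrm_nonneg (μ := μ) 2 g)
  linarith

theorem nrm_le_of_int {f : X → ℝ} (hf : MemLp f 2 μ) {ε : ℝ} (hε : 0 ≤ ε)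
    (h : ∫ x, f x ^ 2 ∂μ ≤ ε ^ 2) : nrm μ 2 f ≤ ε := by
  rw [← nrm_two_sq hf] at h
  exact abs_le_of_sq_le_sq' h hε |>.2

theorem nrm_add {p : ℝ≥0∞} (hp : 1 ≤ p) {f g : X → ℝ} (hf : MemLp f p μ) (hg : MemLp g p μ) :
    nrm μ p (fun x => f x + g x) ≤ nrm μ p f + nrm μ p g := by
  unfold nrm
  rw [← ENNReal.toReal_add hf.2.ne hg.2.ne]
  apply ENNReal.toReal_mono (ENNReal.add_ne_top.2 ⟨hf.2.ne, hg.2.ne⟩)
  exact eLpNorm_add_le hf.1 hg.1 hp

end Pool.Agent.Run7.h980.DW
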