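import Mathlib
import Pool.Agent.Run7.h407.Calc
import Pool.Agent.Run7.h980.DW.Def
import Pool.Agent.Run7.h980.DW.Nrm

/-!
The space `V` of a bounded open set: Sobolev inequality and extension of identities from test
fields.
-/

namespace Pool.Agent.Run7.h980.DW

open Set Filter Topology MeasureTheory
open scoped ContDiff ENNReal NNReal

theorem fderiv_le (f : E3 → ℝ) (x : E3) : ‖fderiv ℝ f x‖ ≤ ∑ j, ‖pderiv j f x‖ := by
  apply ContinuousLinearMap.opNorm_le_bound _ (Finset.sum_nonneg fun j _ => norm_nonneg _)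
  intro v
  have e : fderiv ℝ f x v = ∑ j, v j * pderiv j f x := by
    have h : v = ∑ j, v j • (Pi.single j 1 : E3) := by
      funext i
      simp [Pi.single_apply]
    conv_lhs => rw [h]
    rw [map_sum]
    apply Finset.sum_congr rfl
    intro j _
    rw [map_smul]
    rfl
  rw [e, Finset.sum_mul]
  refine (norm_sum_le _ _).trans (Finset.sum_le_sum fun j _ => ?_)
  rw [norm_mul, mul_comm]
  exact mul_le_mul_of_nonneg_left (norm_le_pi_norm v j) (norm_nonneg _)

/-- The constant of the Sobolev inequality. -/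
noncomputable def C6 : ℝ≥0 :=
  eLpNormLESNormFDerivOfEqInnerConst (volume : Measure E3) ((2 : ℝ≥0) : ℝ)

theorem sob_test {f : E3 → ℝ} (hf : ContDiff ℝ ∞ f) (hc : HasCompactSupport f) :
    eLpNorm f 6 volume ≤ C6 * ∑ j, eLpNorm (pderiv j f) 2 volume := by
  have h1 : eLpNorm f ((6 : ℝ≥0) : ℝ≥0∞) volume
      ≤ C6 * eLpNorm (fderiv ℝ f) ((2 : ℝ≥0) : ℝ≥0∞) volume := by
    apply eLpNorm_le_eLpNorm_fderiv_of_eq_inner (F' := ℝ) volume
      (hf.of_le (by norm_cast)) hc (p := 2) (p' := 6)
    · norm_num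
    · simp
    · simp
      norm_num
  have e6 : ((6 : ℝ≥0) : ℝ≥0∞) = 6 := by norm_cast
  have e2 : ((2 : ℝ≥0) : ℝ≥0∞) = 2 := by norm_cast
  rw [e6, e2] at h1
  refine h1.trans ?_
  gcongr
  have hm : ∀ j, AEStronglyMeasurable (pderiv j f) volume := fun j =>
    (Run7.h407.Sm.pd hf j).continuous.aestronglyMeasurable
  calc eLpNorm (fderiv ℝ f) 2 volume ≤ eLpNorm (fun x => ∑ j, ‖pderiv j f x‖) 2 volume := by
        apply eLpNorm_mono_real
        exact fderiv_le f
    _ = eLpNorm (∑ j, fun x => ‖pderiv j f x‖) 2 volume := by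
        congr 1
    _ ≤ ∑ j, eLpNorm (fun x => ‖pderiv j f x‖) 2 volume :=
        eLpNorm_sum_le (fun j _ => (hm j).norm) (by norm_num)
    _ = ∑ j, eLpNorm (pderiv j f) 2 volume := by
        simp_rw [eLpNorm_norm]

variable {Ω : Set E3}

theorem IsTest.cf {v : E3 → E3} (h : IsTest Ω v) : Run7.h407.CF v := ⟨h.smooth, h.compact⟩

theorem IsTest.zero_out {v : E3 → E3} (h : IsTest Ω v) {x : E3} (hx : x ∉ Ω) : v x = 0 := by
  by_contra hcon
  exact hx (h.supp (subset_tsupport v hcon))

theorem IsTest.comp_tsupp {v : E3 → E3} (h : IsTest Ω v) (i : Fin 3) :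
    tsupport (fun x => v x i) ⊆ Ω := by
  refine Subset.trans (closure_mono ?_) h.supp
  intro x hx hx'
  apply hx
  show v x i = 0
  rw [hx']
  rfl

theorem IsTest.grad_out {v : E3 → E3} (h : IsTest Ω v) {x : E3} (hx : x ∉ Ω) (i j : Fin 3) :
    grad v x i j = 0 :=
  Run7.h407.pd_eq_zero (fun h' => hx (h.comp_tsupp i h')) j

theorem memLp_cs {f : E3 → ℝ} (hf : Continuous f) (hc : HasCompactSupport f) (p : ℝ≥0∞)
    (μ : Measure E3) [IsFiniteMeasureOnCompacts μ] : MemLp f p μ :=
  hf.memLp_of_hasCompactSupport hc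

theorem IsTest.memLp {v : E3 → E3} (h : IsTest Ω v) (i : Fin 3) (p : ℝ≥0∞) :
    MemLp (fun x => v x i) p (volume.restrict Ω) :=
  (memLp_cs (h.cf.smc i).continuous (h.cf.csc i) p volume).restrict Ω

theorem IsTest.memLp_grad {v : E3 → E3} (h : IsTest Ω v) (i j : Fin 3) (p : ℝ≥0∞) :
    MemLp (fun x => grad v x i j) p (volume.restrict Ω) :=
  (memLp_cs (Run7.h407.Sm.pd (h.cf.smc i) j).continuous
    (Run7.h407.pd_cs (h.cf.csc i) j) p volume).restrict Ω

theorem IsTest.sob {v : E3 → E3} (h : IsTest Ω v) (i : Fin 3) :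
    eLpNorm (fun x => v x i) 6 (volume.restrict Ω)
      ≤ C6 * ∑ j, eLpNorm (fun x => grad v x i j) 2 (volume.restrict Ω) := by
  rw [eLpNorm_restrict_eq_of_support_subset]
  · refine (sob_test (h.cf.smc i) (h.cf.csc i)).trans (le_of_eq ?_)
    congr 1
    apply Finset.sum_congr rfl
    intro j _
    rw [eLpNorm_restrict_eq_of_support_subset]
    · rfl
    · intro x hx
      by_contra hcon
      exact hx (h.grad_out hcon i j)
  · intro x hx
    by_contra hcon
    apply hx
    show v x i = 0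
    rw [h.zero_out hcon]
    rfl

theorem pd_sub_test {a b : E3 → E3} (ha : IsTest Ω a) (hb : IsTest Ω b) (x : E3) (i j : Fin 3) :
    grad (fun y => a y - b y) x i j = grad a x i j - grad b x i j :=
  Run7.h407.pd_sub ((ha.cf.smc i).diff x) ((hb.cf.smc i).diff x) j

theorem IsTest.sub {a b : E3 → E3} (ha : IsTest Ω a) (hb : IsTest Ω b) :
    IsTest Ω (fun y => a y - b y) where
  smooth := ha.smooth.sub hb.smooth
  compact := ha.compact.sub hb.compact
  supp := by
    refine Subset.trans (tsupport_sub a b) (union_subset ha.supp hb.supp)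
  div_free := fun x => by
    have h1 := ha.div_free x
    have h2 := hb.div_free x
    unfold divergence at h1 h2 ⊢
    have e : ∀ i, pderiv i (fun y => (a y - b y) i) x
        = pderiv i (fun y => a y i) x - pderiv i (fun y => b y i) x :=
      fun i => pd_sub_test ha hb x i i
    rw [Finset.sum_congr rfl fun i _ => e i, Finset.sum_sub_distrib, h1, h2, sub_zero]

theorem InV.err_int {w : E3 → E3} {G : E3 → Fin 3 → Fin 3 → ℝ} (h : InV Ω w G) {v : E3 → E3}
    (hv : IsTest Ω v) :
    (∀ i, MemLp (fun x => w x i - v x i) 2 (volume.restrict Ω)) ∧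
    (∀ i j, MemLp (fun x => G x i j - grad v x i j) 2 (volume.restrict Ω)) :=
  ⟨fun i => (h.memL2 i).sub (hv.memLp i 2), fun i j => (h.memL2_grad i j).sub (hv.memLp_grad i j 2)⟩

theorem InV.small {w : E3 → E3} {G : E3 → Fin 3 → Fin 3 → ℝ} (h : InV Ω w G) {ε : ℝ}
    (hε : 0 < ε) : ∃ v, IsTest Ω v ∧
      (∀ i, nrm (volume.restrict Ω) 2 (fun x => w x i - v x i) ≤ ε) ∧
      ∀ i j, nrm (volume.restrict Ω) 2 (fun x => G x i j - grad v x i j) ≤ ε := by
  obtain ⟨v, hv, h1⟩ := h.approx (ε ^ 2) (by positivity)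
  obtain ⟨m1, m2⟩ := h.err_int hv
  have i1 : ∀ i, Integrable (fun x => (w x i - v x i) ^ 2) (volume.restrict Ω) :=
    fun i => (m1 i).integrable_sq
  have i2 : ∀ i j, Integrable (fun x => (G x i j - grad v x i j) ^ 2) (volume.restrict Ω) :=
    fun i j => (m2 i j).integrable_sq
  have i3 : Integrable (fun x => ∑ i, (w x i - v x i) ^ 2
      + ∑ i, ∑ j, (G x i j - grad v x i j) ^ 2) (volume.restrict Ω) :=
    (integrable_finsetSum _ fun i _ => i1 i).add
      (integrable_finsetSum _ fun i _ => integrable_finsetSum _ fun j _ => i2 i j)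
  refine ⟨v, hv, fun i => ?_, fun i j => ?_⟩
  · apply nrm_le_of_int (m1 i) hε.le
    refine le_trans (integral_mono (i1 i) i3 fun x => ?_) h1.le
    have h2 : (w x i - v x i) ^ 2 ≤ ∑ i, (w x i - v x i) ^ 2 :=
      Finset.single_le_sum (f := fun i => (w x i - v x i) ^ 2) (fun i _ => sq_nonneg _)
        (Finset.mem_univ i)
    have h3 : 0 ≤ ∑ i, ∑ j, (G x i j - grad v x i j) ^ 2 :=
      Finset.sum_nonneg fun i _ => Finset.sum_nonneg fun j _ => sq_nonneg _
    show (w x i - v x i) ^ 2 ≤ ∑ i, (w x i - v x i) ^ 2 + _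
    linarith
  · apply nrm_le_of_int (m2 i j) hε.le
    refine le_trans (integral_mono (i2 i j) i3 fun x => ?_) h1.le
    have h2 : (G x i j - grad v x i j) ^ 2 ≤ ∑ j, (G x i j - grad v x i j) ^ 2 :=
      Finset.single_le_sum (f := fun j => (G x i j - grad v x i j) ^ 2) (fun i _ => sq_nonneg _)
        (Finset.mem_univ j)
    have h4 : ∑ j, (G x i j - grad v x i j) ^ 2 ≤ ∑ i, ∑ j, (G x i j - grad v x i j) ^ 2 :=
      Finset.single_le_sum (f := fun i => ∑ j, (G x i j - grad v x i j) ^ 2)
        (fun i _ => Finset.sum_nonneg fun j _ => sq_nonneg _) (Finset.mem_univ i)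
    have h3 : 0 ≤ ∑ i, (w x i - v x i) ^ 2 := Finset.sum_nonneg fun i _ => sq_nonneg _
    show (G x i j - grad v x i j) ^ 2 ≤ ∑ i, (w x i - v x i) ^ 2 + _
    linarith

/-- Extension of linear identities. -/
theorem InV.ext0 {w : E3 → E3} {G : E3 → Fin 3 → Fin 3 → ℝ} (h : InV Ω w G)
    {a : E3 → Fin 3 → ℝ} {b : E3 → Fin 3 → Fin 3 → ℝ}
    (ha : ∀ i, MemLp (fun x => a x i) 2 (volume.restrict Ω))
    (hb : ∀ i j, MemLp (fun x => b x i j) 2 (volume.restrict Ω))
    (ht : ∀ v, IsTest Ω v → ∫ x in Ω, (∑ i, v x i * a x i + ∑ i, ∑ j, grad v x i j * b x i j) = 0) :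
    ∫ x in Ω, (∑ i, w x i * a x i + ∑ i, ∑ j, G x i j * b x i j) = 0 := by
  set M : ℝ := ∑ i, nrm (volume.restrict Ω) 2 (fun x => a x i)
    + ∑ i, ∑ j, nrm (volume.restrict Ω) 2 (fun x => b x i j) with hM
  have hM0 : 0 ≤ M := add_nonneg (Finset.sum_nonneg fun i _ => nrm_nonneg _ _)
    (Finset.sum_nonneg fun i _ => Finset.sum_nonneg fun j _ => nrm_nonneg _ _)
  apply abs_nonpos_iff.1
  apply le_of_forall_pos_le_add
  intro ε hε
  obtain ⟨v, hv, h1, h2⟩ := h.small (ε := ε / (M + 1)) (by positivity)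
  obtain ⟨m1, m2⟩ := h.err_int hv
  have k1 := fun i => hold2 (h.memL2 i) (ha i)
  have k2 := fun i j => hold2 (h.memL2_grad i j) (hb i j)
  have l1 := fun i => hold2 (hv.memLp i 2) (ha i)
  have l2 := fun i j => hold2 (hv.memLp_grad i j 2) (hb i j)
  have n1 := fun i => hold2 (m1 i) (ha i)
  have n2 := fun i j => hold2 (m2 i j) (hb i j)
  have I1 : Integrable (fun x => ∑ i, w x i * a x i + ∑ i, ∑ j, G x i j * b x i j)
      (volume.restrict Ω) := (integrable_finsetSum _ fun i _ => (k1 i).1).add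
      (integrable_finsetSum _ fun i _ => integrable_finsetSum _ fun j _ => (k2 i j).1)
  have I2 : Integrable (fun x => ∑ i, v x i * a x i + ∑ i, ∑ j, grad v x i j * b x i j)
      (volume.restrict Ω) := (integrable_finsetSum _ fun i _ => (l1 i).1).add
      (integrable_finsetSum _ fun i _ => integrable_finsetSum _ fun j _ => (l2 i j).1)
  have e1 : ∫ x in Ω, (∑ i, w x i * a x i + ∑ i, ∑ j, G x i j * b x i j)
      = ∑ i, (∫ x in Ω, (w x i - v x i) * a x i)
        + ∑ i, ∑ j, ∫ x in Ω, (G x i j - grad v x i j) * b x i j := by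
    have h3 := ht v hv
    have h4 : ∫ x in Ω, (∑ i, w x i * a x i + ∑ i, ∑ j, G x i j * b x i j)
        = ∫ x in Ω, ((∑ i, w x i * a x i + ∑ i, ∑ j, G x i j * b x i j)
          - (∑ i, v x i * a x i + ∑ i, ∑ j, grad v x i j * b x i j)) := by
      rw [integral_sub I1 I2, h3, sub_zero]
    rw [h4]
    have h5 : ∀ x, (∑ i, w x i * a x i + ∑ i, ∑ j, G x i j * b x i j)
          - (∑ i, v x i * a x i + ∑ i, ∑ j, grad v x i j * b x i j)
        = ∑ i, (w x i - v x i) * a x i + ∑ i, ∑ j, (G x i j - grad v x i j) * b x i j := by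
      intro x
      simp only [sub_mul, Finset.sum_sub_distrib]
      ring
    simp_rw [h5]
    rw [integral_add (integrable_finsetSum _ fun i _ => (n1 i).1)
      (integrable_finsetSum _ fun i _ => integrable_finsetSum _ fun j _ => (n2 i j).1),
      integral_finsetSum _ fun i _ => (n1 i).1,
      integral_finsetSum _ fun i _ => integrable_finsetSum _ fun j _ => (n2 i j).1]
    congr 1
    apply Finset.sum_congr rfl
    intro i _
    rw [integral_finsetSum _ fun j _ => (n2 i j).1]
  rw [e1]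
  have hd : 0 < M + 1 := by linarith
  have f1 : ∀ i, |∫ x in Ω, (w x i - v x i) * a x i|
      ≤ ε / (M + 1) * nrm (volume.restrict Ω) 2 (fun x => a x i) := fun i =>
    (n1 i).2.trans (mul_le_mul_of_nonneg_right (h1 i) (nrm_nonneg _ _))
  have f2 : ∀ i j, |∫ x in Ω, (G x i j - grad v x i j) * b x i j|
      ≤ ε / (M + 1) * nrm (volume.restrict Ω) 2 (fun x => b x i j) := fun i j =>
    (n2 i j).2.trans (mul_le_mul_of_nonneg_right (h2 i j) (nrm_nonneg _ _))
  calc |∑ i, (∫ x in Ω, (w x i - v x i) * a x i)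
        + ∑ i, ∑ j, ∫ x in Ω, (G x i j - grad v x i j) * b x i j|
      ≤ ∑ i, |∫ x in Ω, (w x i - v x i) * a x i|
        + ∑ i, ∑ j, |∫ x in Ω, (G x i j - grad v x i j) * b x i j| := by
        refine (abs_add_le _ _).trans (add_le_add (Finset.abs_sum_le_sum_abs _ _) ?_)
        refine (Finset.abs_sum_le_sum_abs _ _).trans (Finset.sum_le_sum fun i _ => ?_)
        exact Finset.abs_sum_le_sum_abs _ _
    _ ≤ ∑ i, ε / (M + 1) * nrm (volume.restrict Ω) 2 (fun x => a x i)
        + ∑ i, ∑ j, ε / (M + 1) * nrm (volume.restrict Ω) 2 (fun x => b x i j) :=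
        add_le_add (Finset.sum_le_sum fun i _ => f1 i)
          (Finset.sum_le_sum fun i _ => Finset.sum_le_sum fun j _ => f2 i j)
    _ = ε / (M + 1) * M := by
        rw [hM, mul_add, Finset.mul_sum, Finset.mul_sum]
        simp_rw [Finset.mul_sum]
    _ ≤ 0 + ε := by
        rw [zero_add, div_mul_eq_mul_div, div_le_iff₀ hd]
        nlinarith

theorem InV.sub {w1 w2 : E3 → E3} {G1 G2 : E3 → Fin 3 → Fin 3 → ℝ} (h1 : InV Ω w1 G1)
    (h2 : InV Ω w2 G2) : InV Ω (fun x => w1 x - w2 x) (fun x i j => G1 x i j - G2 x i j) where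
  memL2 := fun i => (h1.memL2 i).sub (h2.memL2 i)
  memL2_grad := fun i j => (h1.memL2_grad i j).sub (h2.memL2_grad i j)
  approx := fun ε hε => by
    obtain ⟨v1, a1, b1⟩ := h1.approx (ε / 4) (by positivity)
    obtain ⟨v2, a2, b2⟩ := h2.approx (ε / 4) (by positivity)
    obtain ⟨m1, m2⟩ := h1.err_int a1
    obtain ⟨m3, m4⟩ := h2.err_int a2
    refine ⟨fun x => v1 x - v2 x, a1.sub a2, ?_⟩
    have i1 : Integrable (fun x => ∑ i, (w1 x i - v1 x i) ^ 2
        + ∑ i, ∑ j, (G1 x i j - grad v1 x i j) ^ 2) (volume.restrict Ω) :=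
      (integrable_finsetSum _ fun i _ => (m1 i).integrable_sq).add
        (integrable_finsetSum _ fun i _ => integrable_finsetSum _ fun j _ =>
          (m2 i j).integrable_sq)
    have i2 : Integrable (fun x => ∑ i, (w2 x i - v2 x i) ^ 2
        + ∑ i, ∑ j, (G2 x i j - grad v2 x i j) ^ 2) (volume.restrict Ω) :=
      (integrable_finsetSum _ fun i _ => (m3 i).integrable_sq).add
        (integrable_finsetSum _ fun i _ => integrable_finsetSum _ fun j _ =>
          (m4 i j).integrable_sq)
    have key : ∀ x, ∑ i, ((w1 x - w2 x) i - (v1 x - v2 x) i) ^ 2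
        + ∑ i, ∑ j, ((G1 x i j - G2 x i j) - grad (fun y => v1 y - v2 y) x i j) ^ 2
        ≤ 2 * (∑ i, (w1 x i - v1 x i) ^ 2 + ∑ i, ∑ j, (G1 x i j - grad v1 x i j) ^ 2)
          + 2 * (∑ i, (w2 x i - v2 x i) ^ 2 + ∑ i, ∑ j, (G2 x i j - grad v2 x i j) ^ 2) := by
      intro x
      have e1 : ∀ i, ((w1 x - w2 x) i - (v1 x - v2 x) i) ^ 2
          ≤ 2 * (w1 x i - v1 x i) ^ 2 + 2 * (w2 x i - v2 x i) ^ 2 := by
        intro i
        simp only [Pi.sub_apply]
        nlinarith [sq_nonneg ((w1 x i - v1 x i) + (w2 x i - v2 x i))]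
      have e2 : ∀ i j, ((G1 x i j - G2 x i j) - grad (fun y => v1 y - v2 y) x i j) ^ 2
          ≤ 2 * (G1 x i j - grad v1 x i j) ^ 2 + 2 * (G2 x i j - grad v2 x i j) ^ 2 := by
        intro i j
        rw [pd_sub_test a1 a2]
        nlinarith [sq_nonneg ((G1 x i j - grad v1 x i j) + (G2 x i j - grad v2 x i j))]
      have f1 := Finset.sum_le_sum fun i (_ : i ∈ Finset.univ) => e1 i
      have f2 := Finset.sum_le_sum fun i (_ : i ∈ Finset.univ) =>
        Finset.sum_le_sum fun j (_ : j ∈ Finset.univ) => e2 i j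
      simp only [Finset.sum_add_distrib, ← Finset.mul_sum] at f1 f2
      linarith
    calc ∫ x in Ω, (∑ i, ((w1 x - w2 x) i - (v1 x - v2 x) i) ^ 2
          + ∑ i, ∑ j, ((G1 x i j - G2 x i j) - grad (fun y => v1 y - v2 y) x i j) ^ 2)
        ≤ ∫ x in Ω, (2 * (∑ i, (w1 x i - v1 x i) ^ 2 + ∑ i, ∑ j, (G1 x i j - grad v1 x i j) ^ 2)
          + 2 * (∑ i, (w2 x i - v2 x i) ^ 2 + ∑ i, ∑ j, (G2 x i j - grad v2 x i j) ^ 2)) := by
          apply integral_mono_of_nonneg
          · exact Eventually.of_forall fun x => add_nonneg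
              (Finset.sum_nonneg fun i _ => sq_nonneg _)
              (Finset.sum_nonneg fun i _ => Finset.sum_nonneg fun j _ => sq_nonneg _)
          · exact (i1.const_mul 2).add (i2.const_mul 2)
          · exact Eventually.of_forall key
      _ < ε := by
          rw [integral_add (i1.const_mul 2) (i2.const_mul 2), integral_const_mul,
            integral_const_mul]
          linarith

theorem IsTest.inV {v : E3 → E3} (h : IsTest Ω v) : InV Ω v (grad v) where
  memL2 := fun i => h.memLp i 2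
  memL2_grad := fun i j => h.memLp_grad i j 2
  approx := fun ε hε => ⟨v, h, by simpa using hε⟩

/-- The Sobolev inequality in `V`. -/
theorem InV.sob {w : E3 → E3} {G : E3 → Fin 3 → Fin 3 → ℝ} (h : InV Ω w G) (i : Fin 3) :
    eLpNorm (fun x => w x i) 6 (volume.restrict Ω)
      ≤ C6 * ∑ j, eLpNorm (fun x => G x i j) 2 (volume.restrict Ω) := by
  have hp : ∀ n : ℕ, (0 : ℝ) < 1 / (n + 1) := fun n => by positivity
  choose v hv h1 h2 using fun n : ℕ => h.small (hp n)
  have hlim : Tendsto (fun n : ℕ => ENNReal.ofReal (1 / ((n : ℝ) + 1))) atTop (𝓝 0) := by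
    rw [← ENNReal.ofReal_zero]
    exact ENNReal.tendsto_ofReal tendsto_one_div_add_atTop_nhds_zero_nat
  have t1 : Tendsto (fun n => eLpNorm ((fun x => v n x i) - fun x => w x i) 2
      (volume.restrict Ω)) atTop (𝓝 0) := by
    apply tendsto_of_tendsto_of_tendsto_of_le_of_le tendsto_const_nhds hlim (fun _ => bot_le)
    intro n
    have m := ((h.err_int (hv n)).1 i)
    show eLpNorm ((fun x => v n x i) - fun x => w x i) 2 (volume.restrict Ω) ≤ _
    rw [eLpNorm_sub_comm]
    show eLpNorm (fun x => w x i - v n x i) 2 (volume.restrict Ω) ≤ _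
    rw [ENNReal.le_ofReal_iff_toReal_le m.2.ne (hp n).le]
    exact h1 n i
  have t2 : ∀ j, Tendsto (fun n => eLpNorm (fun x => grad (v n) x i j) 2 (volume.restrict Ω)) atTop
      (𝓝 (eLpNorm (fun x => G x i j) 2 (volume.restrict Ω))) := by
    intro j
    have m := fun n => (h.err_int (hv n)).2 i j
    have hd : Tendsto (fun n => eLpNorm (fun x => G x i j - grad (v n) x i j) 2
        (volume.restrict Ω)) atTop (𝓝 0) := by
      apply tendsto_of_tendsto_of_tendsto_of_le_of_le tendsto_const_nhds hlim (fun _ => bot_le)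
      intro n
      show eLpNorm (fun x => G x i j - grad (v n) x i j) 2 (volume.restrict Ω) ≤ _
      rw [ENNReal.le_ofReal_iff_toReal_le (m n).2.ne (hp n).le]
      exact h2 n i j
    have hG := (h.memL2_grad i j)
    apply tendsto_of_tendsto_of_tendsto_of_le_of_le
      (g := fun n => eLpNorm (fun x => G x i j) 2 (volume.restrict Ω)
        - eLpNorm (fun x => G x i j - grad (v n) x i j) 2 (volume.restrict Ω))
      (h := fun n => eLpNorm (fun x => G x i j) 2 (volume.restrict Ω)
        + eLpNorm (fun x => G x i j - grad (v n) x i j) 2 (volume.restrict Ω))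
    · have := ENNReal.Tendsto.sub (tendsto_const_nhds
        (x := eLpNorm (fun x => G x i j) 2 (volume.restrict Ω))) hd (Or.inl hG.2.ne)
      simpa using this
    · have := (tendsto_const_nhds
        (x := eLpNorm (fun x => G x i j) 2 (volume.restrict Ω))).add hd
      simpa using this
    · intro n
      rw [tsub_le_iff_right]
      have e : (fun x => G x i j) = (fun x => grad (v n) x i j)
          + fun x => G x i j - grad (v n) x i j := by
        funext x
        simp
      conv_lhs => rw [e]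
      exact eLpNorm_add_le ((hv n).memLp_grad i j 2).1 (m n).1 (by norm_num)
    · intro n
      have e : (fun x => grad (v n) x i j) = (fun x => G x i j)
          - fun x => G x i j - grad (v n) x i j := by
        funext x
        simp
      show eLpNorm (fun x => grad (v n) x i j) 2 (volume.restrict Ω) ≤ _
      rw [e]
      exact eLpNorm_sub_le hG.1 (m n).1 (by norm_num)
  have tm : TendstoInMeasure (volume.restrict Ω) (fun n x => v n x i) atTop (fun x => w x i) :=
    tendstoInMeasure_of_tendsto_eLpNorm (by norm_num) (fun n => ((hv n).memLp i 2).1)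
      (h.memL2 i).1 t1
  obtain ⟨ns, hns, hae⟩ := tm.exists_seq_tendsto_ae
  have hF := Lp.eLpNorm_lim_le_liminf_eLpNorm (p := 6) (μ := volume.restrict Ω)
    (f := fun k x => v (ns k) x i) (fun k => ((hv (ns k)).memLp i 2).1) (fun x => w x i) hae
  refine hF.trans ?_
  have t3 : Tendsto (fun k => (C6 : ℝ≥0∞) * ∑ j, eLpNorm (fun x => grad (v (ns k)) x i j) 2
      (volume.restrict Ω)) atTop
      (𝓝 (C6 * ∑ j, eLpNorm (fun x => G x i j) 2 (volume.restrict Ω))) := by
    apply ENNReal.Tendsto.const_mul _ (Or.inr ENNReal.coe_ne_top)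
    exact tendsto_finsetSum _ fun j _ => (t2 j).comp hns.tendsto_atTop
  rw [← t3.liminf_eq]
  exact liminf_le_liminf (Eventually.of_forall fun k => (hv (ns k)).sob i)

theorem fin_restrict (hb : Bornology.IsBounded Ω) : IsFiniteMeasure (volume.restrict Ω) :=
  ⟨by
    rw [Measure.restrict_apply_univ]
    exact hb.measure_lt_top⟩

/-- The embedding in `L⁴`. -/
theorem InV.four (hb : Bornology.IsBounded Ω) : ∃ K : ℝ, 0 ≤ K ∧
    ∀ {w : E3 → E3} {G : E3 → Fin 3 → Fin 3 → ℝ}, InV Ω w G → ∀ i,
      MemLp (fun x => w x i) 4 (volume.restrict Ω) ∧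
      nrm (volume.restrict Ω) 4 (fun x => w x i)
        ≤ K * ∑ j, nrm (volume.restrict Ω) 2 (fun x => G x i j) := by
  have hfin := fin_restrict hb
  set m : ℝ≥0∞ := (volume.restrict Ω) univ ^ (1 / (4 : ℝ≥0∞).toReal - 1 / (6 : ℝ≥0∞).toReal)
    with hm
  have hmt : m ≠ ⊤ := by
    apply ENNReal.rpow_ne_top_of_nonneg
    · norm_num
    · exact measure_ne_top _ _
  refine ⟨(C6 * m).toReal, ENNReal.toReal_nonneg, fun {w G} h i => ?_⟩
  have h0 := (h.memL2 i).1
  have h1 := h.sob i
  have h2 : eLpNorm (fun x => w x i) 4 (volume.restrict Ω)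
      ≤ eLpNorm (fun x => w x i) 6 (volume.restrict Ω) * m :=
    eLpNorm_le_eLpNorm_mul_rpow_measure_univ (by norm_num) h0
  have hS : ∑ j, eLpNorm (fun x => G x i j) 2 (volume.restrict Ω) ≠ ⊤ := by
    apply ENNReal.sum_ne_top.2
    intro j _
    exact (h.memL2_grad i j).2.ne
  have h3 : eLpNorm (fun x => w x i) 4 (volume.restrict Ω)
      ≤ C6 * m * ∑ j, eLpNorm (fun x => G x i j) 2 (volume.restrict Ω) := by
    refine h2.trans ?_
    rw [mul_right_comm]
    gcongr
  have hT : C6 * m * ∑ j, eLpNorm (fun x => G x i j) 2 (volume.restrict Ω) ≠ ⊤ :=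
    ENNReal.mul_ne_top (ENNReal.mul_ne_top ENNReal.coe_ne_top hmt) hS
  refine ⟨⟨h0, lt_of_le_of_lt h3 hT.lt_top⟩, ?_⟩
  unfold nrm
  have h4 := ENNReal.toReal_mono hT h3
  rw [ENNReal.toReal_mul, ENNReal.toReal_sum (fun j _ => (h.memL2_grad i j).2.ne)] at h4
  exact h4

/-- The trilinear identity for test fields. -/
theorem tri_test {b d e : E3 → E3} (hb : IsTest Ω b) (hd : IsTest Ω d) (he : IsTest Ω e) :
    ∫ x in Ω, (∑ i, d x i * (∑ j, b x j * grad e x i j)
      + ∑ i, ∑ j, grad d x i j * (b x j * e x i)) = 0 := by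
  have h1 := Run7.h407.tri_anti hb.cf hb.div_free hd.cf he.cf
  have i1 := Run7.h407.tri_int hb.cf.sm.continuous hd.cf.sm he.cf
  have i2 := Run7.h407.tri_int hb.cf.sm.continuous he.cf.sm hd.cf
  rw [setIntegral_eq_integral_of_forall_compl_eq_zero]
  · have e1 : ∀ x, (∑ i, d x i * (∑ j, b x j * grad e x i j)
        + ∑ i, ∑ j, grad d x i j * (b x j * e x i))
        = (∑ i, (∑ j, b x j * Run7.h407.pd j (fun y => e y i) x) * d x i)
          + ∑ i, (∑ j, b x j * Run7.h407.pd j (fun y => d y i) x) * e x i := by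
      intro x
      congr 1
      · apply Finset.sum_congr rfl
        intro i _
        rw [mul_comm]
        rfl
      · apply Finset.sum_congr rfl
        intro i _
        rw [Finset.sum_mul]
        apply Finset.sum_congr rfl
        intro j _
        show Run7.h407.pd j (fun y => d y i) x * (b x j * e x i) = _
        ring
    simp_rw [e1]
    rw [integral_add i2 i1]
    unfold Run7.h407.tri at h1
    linarith
  · intro x hx
    simp [hb.zero_out hx]

theorem mul_test {b : E3 → E3} (hb : IsTest Ω b) (j : Fin 3) {f : E3 → ℝ}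
    (hf : MemLp f 2 (volume.restrict Ω)) :
    MemLp (fun x => b x j * f x) 2 (volume.restrict Ω) :=
  MemLp.mul' (p := ⊤) (q := 2) hf (hb.memLp j ⊤)

theorem tri_one {b e c : E3 → E3} {C : E3 → Fin 3 → Fin 3 → ℝ} (hb : IsTest Ω b)
    (he : IsTest Ω e) (hc : InV Ω c C) :
    ∫ x in Ω, (∑ i, c x i * (∑ j, b x j * grad e x i j)
      + ∑ i, ∑ j, C x i j * (b x j * e x i)) = 0 := by
  apply hc.ext0 (a := fun x i => ∑ j, b x j * grad e x i j) (b := fun x i j => b x j * e x i)
  · intro i
    exact memLp_finsetSum _ fun j _ => mul_test hb j (he.memLp_grad i j 2)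
  · intro i j
    exact mul_test hb j (he.memLp i 2)
  · intro v hv
    exact tri_test hb hv he

theorem tri_two {b e c : E3 → E3} {C E : E3 → Fin 3 → Fin 3 → ℝ} (hb : IsTest Ω b)
    (he : InV Ω e E) (hc : InV Ω c C) :
    ∫ x in Ω, (∑ i, e x i * (∑ j, b x j * C x i j)
      + ∑ i, ∑ j, E x i j * (b x j * c x i)) = 0 := by
  apply he.ext0 (a := fun x i => ∑ j, b x j * C x i j) (b := fun x i j => b x j * c x i)
  · intro i
    exact memLp_finsetSum _ fun j _ => mul_test hb j (hc.memL2_grad i j)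
  · intro i j
    exact mul_test hb j (hc.memL2 i)
  · intro v hv
    rw [← tri_one hb hv hc]
    congr 1
    funext x
    simp only [Finset.mul_sum]
    rw [add_comm]
    congr 1
    · apply Finset.sum_congr rfl
      intro i _
      apply Finset.sum_congr rfl
      intro j _
      ring
    · apply Finset.sum_congr rfl
      intro i _
      apply Finset.sum_congr rfl
      intro j _
      ring

theorem tri_three {b c : E3 → E3} {C : E3 → Fin 3 → Fin 3 → ℝ} (hb : IsTest Ω b)
    (hc : InV Ω c C) : ∫ x in Ω, ∑ i, ∑ j, b x j * C x i j * c x i = 0 := by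
  have h := tri_two hb hc hc
  have e : ∀ x, (∑ i, c x i * (∑ j, b x j * C x i j) + ∑ i, ∑ j, C x i j * (b x j * c x i))
      = 2 * ∑ i, ∑ j, b x j * C x i j * c x i := by
    intro x
    rw [two_mul]
    congr 1
    · apply Finset.sum_congr rfl
      intro i _
      rw [Finset.mul_sum]
      apply Finset.sum_congr rfl
      intro j _
      ring
    · apply Finset.sum_congr rfl
      intro i _
      apply Finset.sum_congr rfl
      intro j _
      ring
  simp_rw [e] at h
  rw [integral_const_mul] at h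
  linarith

/-- The trilinear identity in `V`. -/
theorem tri_V (hb : Bornology.IsBounded Ω) {a c : E3 → E3} {A C : E3 → Fin 3 → Fin 3 → ℝ}
    (ha : InV Ω a A) (hc : InV Ω c C) :
    (∀ i j, Integrable (fun x => a x j * C x i j * c x i) (volume.restrict Ω)) ∧
    ∫ x in Ω, ∑ i, ∑ j, a x j * C x i j * c x i = 0 := by
  have hfin := fin_restrict hb
  obtain ⟨K, hK, h4⟩ := InV.four hb
  have ka := fun i j => hold3 (h4 ha j).1 (hc.memL2_grad i j) (h4 hc i).1
  refine ⟨fun i j => (ka i j).1, ?_⟩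
  set M : ℝ := ∑ i, ∑ j, nrm (volume.restrict Ω) 2 (fun x => C x i j)
    * nrm (volume.restrict Ω) 4 (fun x => c x i) with hM
  have hM0 : 0 ≤ M := Finset.sum_nonneg fun i _ => Finset.sum_nonneg fun j _ =>
    mul_nonneg (nrm_nonneg _ _) (nrm_nonneg _ _)
  apply abs_nonpos_iff.1
  apply le_of_forall_pos_le_add
  intro ε hε
  obtain ⟨v, hv, h1, h2⟩ := ha.small (ε := ε / (3 * K * M + 1)) (by positivity)
  have hd : InV Ω (fun x => a x - v x) (fun x i j => A x i j - grad v x i j) := ha.sub hv.inV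
  have kd := fun i j => hold3 (h4 hd j).1 (hc.memL2_grad i j) (h4 hc i).1
  have kv := fun i j => hold3 (h4 hv.inV j).1 (hc.memL2_grad i j) (h4 hc i).1
  have e1 : ∫ x in Ω, ∑ i, ∑ j, a x j * C x i j * c x i
      = ∑ i, ∑ j, ∫ x in Ω, (a x - v x) j * C x i j * c x i := by
    have e2 : ∀ x, ∑ i, ∑ j, a x j * C x i j * c x i
        = (∑ i, ∑ j, v x j * C x i j * c x i) + ∑ i, ∑ j, (a x - v x) j * C x i j * c x i := by
      intro x
      rw [← Finset.sum_add_distrib]
      apply Finset.sum_congr rfl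
      intro i _
      rw [← Finset.sum_add_distrib]
      apply Finset.sum_congr rfl
      intro j _
      rw [Pi.sub_apply]
      ring
    simp_rw [e2]
    rw [integral_add (integrable_finsetSum _ fun i _ => integrable_finsetSum _ fun j _ =>
      (kv i j).1) (integrable_finsetSum _ fun i _ => integrable_finsetSum _ fun j _ =>
      (kd i j).1), tri_three hv hc, zero_add,
      integral_finsetSum _ fun i _ => integrable_finsetSum _ fun j _ => (kd i j).1]
    apply Finset.sum_congr rfl
    intro i _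
    rw [integral_finsetSum _ fun j _ => (kd i j).1]
  have hD : 0 < 3 * K * M + 1 := by positivity
  have e3 : ∀ j, nrm (volume.restrict Ω) 4 (fun x => (a x - v x) j)
      ≤ K * (3 * (ε / (3 * K * M + 1))) := by
    intro j
    refine (h4 hd j).2.trans (mul_le_mul_of_nonneg_left ?_ hK)
    refine (Finset.sum_le_sum fun l _ => h2 j l).trans ?_
    simp
  rw [e1]
  calc |∑ i, ∑ j, ∫ x in Ω, (a x - v x) j * C x i j * c x i|
      ≤ ∑ i, ∑ j, |∫ x in Ω, (a x - v x) j * C x i j * c x i| :=
        (Finset.abs_sum_le_sum_abs _ _).trans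
          (Finset.sum_le_sum fun i _ => Finset.abs_sum_le_sum_abs _ _)
    _ ≤ ∑ i, ∑ j, K * (3 * (ε / (3 * K * M + 1))) * (nrm (volume.restrict Ω) 2
          (fun x => C x i j) * nrm (volume.restrict Ω) 4 (fun x => c x i)) := by
        refine Finset.sum_le_sum fun i _ => Finset.sum_le_sum fun j _ => (kd i j).2.trans ?_
        rw [mul_assoc]
        exact mul_le_mul_of_nonneg_right (e3 j) (mul_nonneg (nrm_nonneg _ _) (nrm_nonneg _ _))
    _ = K * (3 * (ε / (3 * K * M + 1))) * M := by
        rw [hM, Finset.mul_sum]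
        simp_rw [Finset.mul_sum]
    _ ≤ 0 + ε := by
        rw [zero_add]
        have : K * (3 * (ε / (3 * K * M + 1))) * M = 3 * K * M * ε / (3 * K * M + 1) := by
          field_simp
        rw [this, div_le_iff₀ hD]
        nlinarith

/-- `∫ Δu·v + ∫ ∇u:∇v = 0` for `v` in `V`. -/
theorem lap_V {u z : E3 → E3} {Z : E3 → Fin 3 → Fin 3 → ℝ} (hu : IsTest Ω u)
    (hz : InV Ω z Z) :
    (∀ i, MemLp (fun x => ∑ j, pderiv j (pderiv j (fun y => u y i)) x) 2
      (volume.restrict Ω)) ∧
    ∫ x in Ω, (∑ i, z x i * (∑ j, pderiv j (pderiv j (fun y => u y i)) x)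
      + ∑ i, ∑ j, Z x i j * grad u x i j) = 0 := by
  have hm : ∀ i, MemLp (fun x => ∑ j, pderiv j (pderiv j (fun y => u y i)) x) 2
      (volume.restrict Ω) := by
    intro i
    apply memLp_finsetSum _ fun j _ => ?_
    exact (memLp_cs (Run7.h407.Sm.pd (Run7.h407.Sm.pd (hu.cf.smc i) j) j).continuous
      (Run7.h407.pd_cs (Run7.h407.pd_cs (hu.cf.csc i) j) j) 2 volume).restrict Ω
  refine ⟨hm, ?_⟩
  apply hz.ext0 (a := fun x i => ∑ j, pderiv j (pderiv j (fun y => u y i)) x)
    (b := fun x i j => grad u x i j)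
  · exact hm
  · intro i j
    exact hu.memLp_grad i j 2
  · intro v hv
    have h1 := Run7.h407.lap_ip hu.smooth hv.cf
    rw [setIntegral_eq_integral_of_forall_compl_eq_zero]
    · have e1 : ∀ x, (∑ i, v x i * (∑ j, pderiv j (pderiv j (fun y => u y i)) x)
          + ∑ i, ∑ j, grad v x i j * grad u x i j)
          = (∑ i, (∑ j, Run7.h407.pd j (Run7.h407.pd j (fun y => u y i)) x) * v x i)
            + ∑ i, ∑ j, Run7.h407.pd j (fun y => u y i) x
              * Run7.h407.pd j (fun y => v y i) x := by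
        intro x
        congr 1
        · apply Finset.sum_congr rfl
          intro i _
          rw [mul_comm]
          rfl
        · apply Finset.sum_congr rfl
          intro i _
          apply Finset.sum_congr rfl
          intro j _
          rw [mul_comm]
          rfl
      simp_rw [e1]
      have i1 : Integrable (fun x => ∑ i, (∑ j, Run7.h407.pd j
          (Run7.h407.pd j (fun y => u y i)) x) * v x i) volume := by
        apply integrable_finsetSum
        intro i _
        have h := Run7.h407.integrable_of_cs (hv.cf.smc i).continuous (hv.cf.csc i)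
          (f := fun x => v x i) (g := fun x => ∑ j, Run7.h407.pd j
            (Run7.h407.pd j (fun y => u y i)) x)
          (continuous_finsetSum _ fun j _ =>
            (Run7.h407.Sm.pd (Run7.h407.Sm.pd (hu.cf.smc i) j) j).continuous)
        refine h.congr (Eventually.of_forall fun x => ?_)
        exact mul_comm _ _
      rw [integral_add i1 (Run7.h407.Dir_int hu.smooth hv.cf), h1]
      unfold Run7.h407.Dir
      ring
    · intro x hx
      simp [hv.zero_out hx, hv.grad_out hx]

end Pool.Agent.Run7.h980.DW
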