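import Mathlib
import Pool.Agent.Run7.h980.DW.Sob

/-!
The estimates at a fixed time.
-/

namespace Pool.Agent.Run7.h980.DW

open Set Filter Topology MeasureTheory
open scoped ContDiff ENNReal NNReal

variable {Ω : Set E3}

theorem sum_quad_le {M : ℝ} {z : Fin 3 → ℝ} {g : Fin 3 → Fin 3 → ℝ}
    (hg : ∀ i j, |g i j| ≤ M) : -(3 * M * ∑ i, z i ^ 2) ≤ ∑ i, ∑ j, z j * g i j * z i := by
  have hM : 0 ≤ M := (abs_nonneg _).trans (hg 0 0)
  have h1 : ∀ i j, -(M * ((z i ^ 2 + z j ^ 2) / 2)) ≤ z j * g i j * z i := by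
    intro i j
    have h2 := hg i j
    have h3 : |z j * g i j * z i| ≤ M * ((z i ^ 2 + z j ^ 2) / 2) := by
      rw [abs_mul, abs_mul]
      have h4 : |z j| * |z i| ≤ (z i ^ 2 + z j ^ 2) / 2 := by
        have := sq_nonneg (|z i| - |z j|)
        have e1 := sq_abs (z i)
        have e2 := sq_abs (z j)
        nlinarith
      calc |z j| * |g i j| * |z i| = |g i j| * (|z j| * |z i|) := by ring
        _ ≤ M * ((z i ^ 2 + z j ^ 2) / 2) :=
          mul_le_mul h2 h4 (by positivity) hM
    exact (abs_le.1 h3).1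
  have h2 := Finset.sum_le_sum fun i (_ : i ∈ Finset.univ) =>
    Finset.sum_le_sum fun j (_ : j ∈ Finset.univ) => h1 i j
  refine le_trans (le_of_eq ?_) h2
  simp only [Fin.sum_univ_three]
  ring

theorem int_add3 {μ : Measure E3} {a b c : E3 → ℝ} (ha : Integrable a μ) (hb : Integrable b μ)
    (hc : Integrable c μ) :
    ∫ x, (a x + b x + c x) ∂μ = ∫ x, a x ∂μ + ∫ x, b x ∂μ + ∫ x, c x ∂μ := by
  have h1 : Integrable (fun x => a x + b x) μ := ha.add hb
  rw [integral_add h1 hc, integral_add ha hb]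

theorem int_add4 {μ : Measure E3} {a b c d : E3 → ℝ} (ha : Integrable a μ)
    (hb : Integrable b μ) (hc : Integrable c μ) (hd : Integrable d μ) :
    ∫ x, (a x + b x + c x + d x) ∂μ
      = ∫ x, a x ∂μ + ∫ x, b x ∂μ + ∫ x, c x ∂μ + ∫ x, d x ∂μ := by
  have h1 : Integrable (fun x => a x + b x + c x) μ := (ha.add hb).add hc
  rw [integral_add h1 hd, int_add3 ha hb hc]

/-- The comparison of two solutions at a fixed time. -/
theorem pt_est (hb : Bornology.IsBounded Ω) {w u wt D : E3 → E3}
    {G g : E3 → Fin 3 → Fin 3 → ℝ} {ν M : ℝ} (hν : 0 ≤ ν) (hw : InV Ω w G) (hu : InV Ω u g)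
    (h1 : ∀ i, MemLp (fun x => wt x i) 2 (volume.restrict Ω))
    (h2 : ∀ i, MemLp (fun x => D x i) 2 (volume.restrict Ω))
    (hg : ∀ x i j, |g x i j| ≤ M)
    (ew : ∫ x in Ω, ∑ i, (wt x i * (w x i - u x i) + (∑ j, w x j * G x i j) * (w x i - u x i)
      + ν * ∑ j, G x i j * (G x i j - g x i j)) = 0)
    (eu : ∫ x in Ω, ∑ i, (D x i * (w x i - u x i) + (∑ j, u x j * g x i j) * (w x i - u x i)
      + ν * ∑ j, g x i j * (G x i j - g x i j)) = 0) :
    ∫ x in Ω, ∑ i, (wt x i - D x i) * (w x i - u x i)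
      ≤ 3 * M * ∫ x in Ω, ∑ i, (w x i - u x i) ^ 2 := by
  have hfin := fin_restrict hb
  obtain ⟨K, hK, h4⟩ := InV.four hb
  have hz : InV Ω (fun x => w x - u x) (fun x i j => G x i j - g x i j) := hw.sub hu
  have z2 : ∀ i, MemLp (fun x => w x i - u x i) 2 (volume.restrict Ω) := fun i => hz.memL2 i
  have z4 : ∀ i, MemLp (fun x => w x i - u x i) 4 (volume.restrict Ω) := fun i => (h4 hz i).1
  have Z2 : ∀ i j, MemLp (fun x => G x i j - g x i j) 2 (volume.restrict Ω) :=
    fun i j => hz.memL2_grad i j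
  have a1 := fun i => (hold2 (h1 i) (z2 i)).1
  have a2 := fun i j => (hold3 (h4 hw j).1 (hw.memL2_grad i j) (z4 i)).1
  have a3 := fun i j => (hold2 (hw.memL2_grad i j) (Z2 i j)).1
  have b1 := fun i => (hold2 (h2 i) (z2 i)).1
  have b2 := fun i j => (hold3 (h4 hu j).1 (hu.memL2_grad i j) (z4 i)).1
  have b3 := fun i j => (hold2 (hu.memL2_grad i j) (Z2 i j)).1
  have c2 := fun i j => (hold3 (z4 j) (hu.memL2_grad i j) (z4 i)).1
  have c1 : ∀ i, Integrable (fun x => (wt x i - D x i) * (w x i - u x i))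
      (volume.restrict Ω) := fun i => (hold2 ((h1 i).sub (h2 i)) (z2 i)).1
  obtain ⟨t1, t2⟩ := tri_V hb hw hz
  have Iw : Integrable (fun x => ∑ i, (wt x i * (w x i - u x i)
      + (∑ j, w x j * G x i j) * (w x i - u x i)
      + ν * ∑ j, G x i j * (G x i j - g x i j))) (volume.restrict Ω) := by
    apply integrable_finsetSum _ fun i _ => ?_
    apply Integrable.add _ ((integrable_finsetSum _ fun j _ => a3 i j).const_mul ν)
    apply (a1 i).add
    simp_rw [Finset.sum_mul]
    exact integrable_finsetSum _ fun j _ => a2 i j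
  have Iu : Integrable (fun x => ∑ i, (D x i * (w x i - u x i)
      + (∑ j, u x j * g x i j) * (w x i - u x i)
      + ν * ∑ j, g x i j * (G x i j - g x i j))) (volume.restrict Ω) := by
    apply integrable_finsetSum _ fun i _ => ?_
    apply Integrable.add _ ((integrable_finsetSum _ fun j _ => b3 i j).const_mul ν)
    apply (b1 i).add
    simp_rw [Finset.sum_mul]
    exact integrable_finsetSum _ fun j _ => b2 i j
  have IA : Integrable (fun x => ∑ i, (wt x i - D x i) * (w x i - u x i))
      (volume.restrict Ω) := integrable_finsetSum _ fun i _ => c1 i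
  have IB : Integrable (fun x => ∑ i, ∑ j, w x j * (G x i j - g x i j) * (w x - u x) i)
      (volume.restrict Ω) :=
    integrable_finsetSum _ fun i _ => integrable_finsetSum _ fun j _ => t1 i j
  have IC : Integrable (fun x => ∑ i, ∑ j, (w x j - u x j) * g x i j * (w x i - u x i))
      (volume.restrict Ω) :=
    integrable_finsetSum _ fun i _ => integrable_finsetSum _ fun j _ => c2 i j
  have ID : Integrable (fun x => ∑ i, ∑ j, (G x i j - g x i j) ^ 2) (volume.restrict Ω) :=
    integrable_finsetSum _ fun i _ => integrable_finsetSum _ fun j _ => (Z2 i j).integrable_sq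
  have hid : ∀ x, (∑ i, (wt x i * (w x i - u x i) + (∑ j, w x j * G x i j) * (w x i - u x i)
      + ν * ∑ j, G x i j * (G x i j - g x i j)))
      - (∑ i, (D x i * (w x i - u x i) + (∑ j, u x j * g x i j) * (w x i - u x i)
      + ν * ∑ j, g x i j * (G x i j - g x i j)))
      = (∑ i, (wt x i - D x i) * (w x i - u x i))
        + (∑ i, ∑ j, w x j * (G x i j - g x i j) * (w x - u x) i)
        + (∑ i, ∑ j, (w x j - u x j) * g x i j * (w x i - u x i))
        + ν * ∑ i, ∑ j, (G x i j - g x i j) ^ 2 := by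
    intro x
    simp only [Fin.sum_univ_three, Pi.sub_apply]
    ring
  have h5 : ∫ x in Ω, ((∑ i, (wt x i - D x i) * (w x i - u x i))
        + (∑ i, ∑ j, w x j * (G x i j - g x i j) * (w x - u x) i)
        + (∑ i, ∑ j, (w x j - u x j) * g x i j * (w x i - u x i))
        + ν * ∑ i, ∑ j, (G x i j - g x i j) ^ 2) = 0 := by
    simp_rw [← hid]
    rw [integral_sub Iw Iu, ew, eu, sub_zero]
  rw [int_add4 IA IB IC (ID.const_mul ν), t2, integral_const_mul] at h5
  have h6 : -(3 * M * ∫ x in Ω, ∑ i, (w x i - u x i) ^ 2)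
      ≤ ∫ x in Ω, ∑ i, ∑ j, (w x j - u x j) * g x i j * (w x i - u x i) := by
    rw [← integral_const_mul, ← integral_neg]
    apply integral_mono
    · exact ((integrable_finsetSum _ fun i _ => (z2 i).integrable_sq).const_mul _).neg
    · exact IC
    · intro x
      exact sum_quad_le (z := fun i => w x i - u x i) (g := g x) (hg x)
  have h7 : 0 ≤ ∫ x in Ω, ∑ i, ∑ j, (G x i j - g x i j) ^ 2 :=
    integral_nonneg fun x => Finset.sum_nonneg fun i _ => Finset.sum_nonneg fun j _ => sq_nonneg _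
  have h8 := mul_nonneg hν h7
  linarith

/-- A solution is bounded in `L⁴` by the bounds of the field and its time derivative. -/
theorem pt_four (hb : Bornology.IsBounded Ω) {ν C : ℝ} (hν : 0 < ν) (hC : 0 ≤ C) :
    ∃ B : ℝ, ∀ {w wt : E3 → E3} {G : E3 → Fin 3 → Fin 3 → ℝ}, InV Ω w G →
      (∀ i, MemLp (fun x => wt x i) 2 (volume.restrict Ω)) →
      ∫ x in Ω, ∑ i, w x i ^ 2 ≤ C → ∫ x in Ω, ∑ i, wt x i ^ 2 ≤ C →
      ∫ x in Ω, ∑ i, (wt x i * w x i + (∑ j, w x j * G x i j) * w x i
        + ν * ∑ j, G x i j * G x i j) = 0 →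
      ∫ x in Ω, ‖w x‖ ^ 3 ≤ B := by
  have hfin := fin_restrict hb
  obtain ⟨K, hK, h4⟩ := InV.four hb
  refine ⟨∑ i : Fin 3, ((volume.restrict Ω).real univ + (K * (3 * Real.sqrt (3 * C / ν))) ^ 4), ?_⟩
  intro w wt G hw h1 hwC hwtC he
  obtain ⟨t1, t2⟩ := tri_V hb hw hw
  have a1 := fun i => hold2 (h1 i) (hw.memL2 i)
  have a2 := fun i j => hold2 (hw.memL2_grad i j) (hw.memL2_grad i j)
  have n1 : ∀ i, nrm (volume.restrict Ω) 2 (fun x => wt x i) ≤ Real.sqrt C := by
    intro i
    apply nrm_le_of_int (h1 i) (Real.sqrt_nonneg _)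
    rw [Real.sq_sqrt hC]
    refine le_trans (integral_mono (h1 i).integrable_sq
      (integrable_finsetSum _ fun i _ => (h1 i).integrable_sq) fun x => ?_) hwtC
    exact Finset.single_le_sum (f := fun i => wt x i ^ 2) (fun i _ => sq_nonneg _)
      (Finset.mem_univ i)
  have n2 : ∀ i, nrm (volume.restrict Ω) 2 (fun x => w x i) ≤ Real.sqrt C := by
    intro i
    apply nrm_le_of_int (hw.memL2 i) (Real.sqrt_nonneg _)
    rw [Real.sq_sqrt hC]
    refine le_trans (integral_mono (hw.memL2 i).integrable_sq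
      (integrable_finsetSum _ fun i _ => (hw.memL2 i).integrable_sq) fun x => ?_) hwC
    exact Finset.single_le_sum (f := fun i => w x i ^ 2) (fun i _ => sq_nonneg _)
      (Finset.mem_univ i)
  have IA : Integrable (fun x => ∑ i, wt x i * w x i) (volume.restrict Ω) :=
    integrable_finsetSum _ fun i _ => (a1 i).1
  have IB : Integrable (fun x => ∑ i, ∑ j, w x j * G x i j * w x i) (volume.restrict Ω) :=
    integrable_finsetSum _ fun i _ => integrable_finsetSum _ fun j _ => t1 i j
  have ID : Integrable (fun x => ∑ i, ∑ j, G x i j * G x i j) (volume.restrict Ω) :=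
    integrable_finsetSum _ fun i _ => integrable_finsetSum _ fun j _ => (a2 i j).1
  have hid : ∀ x, ∑ i, (wt x i * w x i + (∑ j, w x j * G x i j) * w x i
        + ν * ∑ j, G x i j * G x i j)
      = ∑ i, wt x i * w x i + ∑ i, ∑ j, w x j * G x i j * w x i
        + ν * ∑ i, ∑ j, G x i j * G x i j := by
    intro x
    simp only [Fin.sum_univ_three]
    ring
  simp_rw [hid] at he
  rw [int_add3 IA IB (ID.const_mul ν), t2, integral_const_mul] at he
  have h5 : ∫ x in Ω, ∑ i, ∑ j, G x i j * G x i j ≤ 3 * C / ν := by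
    rw [le_div_iff₀ hν]
    have h6 : |∫ x in Ω, ∑ i, wt x i * w x i| ≤ 3 * C := by
      rw [integral_finsetSum _ fun i _ => (a1 i).1]
      refine (Finset.abs_sum_le_sum_abs _ _).trans ?_
      refine (Finset.sum_le_sum fun i _ => (a1 i).2.trans (mul_le_mul (n1 i) (n2 i)
        (nrm_nonneg _ _) (Real.sqrt_nonneg _))).trans ?_
      rw [Real.mul_self_sqrt hC]
      simp
    have h7 := (abs_le.1 h6).1
    linarith
  have n3 : ∀ i j, nrm (volume.restrict Ω) 2 (fun x => G x i j) ≤ Real.sqrt (3 * C / ν) := by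
    intro i j
    apply nrm_le_of_int (hw.memL2_grad i j) (Real.sqrt_nonneg _)
    rw [Real.sq_sqrt (by positivity)]
    refine le_trans (integral_mono (hw.memL2_grad i j).integrable_sq ID fun x => ?_) h5
    have e1 : G x i j * G x i j ≤ ∑ j, G x i j * G x i j :=
      Finset.single_le_sum (f := fun j => G x i j * G x i j) (fun i _ => mul_self_nonneg _)
        (Finset.mem_univ j)
    have e2 : ∑ j, G x i j * G x i j ≤ ∑ i, ∑ j, G x i j * G x i j :=
      Finset.single_le_sum (f := fun i => ∑ j, G x i j * G x i j)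
        (fun i _ => Finset.sum_nonneg fun j _ => mul_self_nonneg _) (Finset.mem_univ i)
    show G x i j ^ 2 ≤ _
    rw [sq]
    exact e1.trans e2
  have n4 : ∀ i, nrm (volume.restrict Ω) 4 (fun x => w x i)
      ≤ K * (3 * Real.sqrt (3 * C / ν)) := by
    intro i
    refine (h4 hw i).2.trans (mul_le_mul_of_nonneg_left ?_ hK)
    refine (Finset.sum_le_sum fun j _ => n3 i j).trans ?_
    simp
  have hpt : ∀ x, ‖w x‖ ^ 3 ≤ ∑ i, (1 + |w x i| ^ 4) := by
    intro x
    obtain ⟨i, hi⟩ : ∃ i, ‖w x‖ = |w x i| := by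
      obtain ⟨i, -, hi⟩ := Finset.exists_mem_eq_sup' (s := (Finset.univ : Finset (Fin 3)))
        ⟨0, Finset.mem_univ _⟩ (fun i => ‖w x i‖)
      refine ⟨i, ?_⟩
      rw [← Real.norm_eq_abs, ← hi]
      apply le_antisymm
      · rw [pi_norm_le_iff_of_nonneg ((norm_nonneg _).trans (Finset.le_sup'
          (fun i => ‖w x i‖) (Finset.mem_univ 0)))]
        intro k
        exact Finset.le_sup' (fun i => ‖w x i‖) (Finset.mem_univ k)
      · apply Finset.sup'_le
        intro k _
        exact norm_le_pi_norm _ k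
    have h0 : |w x i| ^ 3 ≤ 1 + |w x i| ^ 4 := by
      set r := |w x i| with hr
      have hr0 : 0 ≤ r := abs_nonneg _
      nlinarith [sq_nonneg (r - 1), sq_nonneg r, mul_nonneg hr0 (sq_nonneg (r - 1)),
        sq_nonneg (r ^ 2 - r), pow_nonneg hr0 3]
    rw [hi]
    exact h0.trans (Finset.single_le_sum (f := fun i => 1 + |w x i| ^ 4)
      (fun i _ => by positivity) (Finset.mem_univ i))
  have hI4 : ∀ i, Integrable (fun x => |w x i| ^ 4) (volume.restrict Ω) := by
    intro i
    have := (h4 hw i).1.integrable_norm_pow (p := 4) (by norm_num)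
    exact this
  have hI5 : ∀ i, Integrable (fun x => 1 + |w x i| ^ 4) (volume.restrict Ω) :=
    fun i => (integrable_const _).add (hI4 i)
  calc ∫ x in Ω, ‖w x‖ ^ 3 ≤ ∫ x in Ω, ∑ i, (1 + |w x i| ^ 4) := by
        apply integral_mono_of_nonneg
        · exact Eventually.of_forall fun x => by positivity
        · exact integrable_finsetSum _ fun i _ => hI5 i
        · exact Eventually.of_forall hpt
    _ = ∑ i, ((volume.restrict Ω).real univ + nrm (volume.restrict Ω) 4 (fun x => w x i) ^ 4) := by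
        rw [integral_finsetSum _ fun i _ => hI5 i]
        apply Finset.sum_congr rfl
        intro i _
        rw [integral_add (integrable_const _) (hI4 i)]
        have h := nrm_pow (n := 4) (by norm_num) (f := fun x => w x i)
          (μ := volume.restrict Ω) (by exact_mod_cast (h4 hw i).1)
        have h' : nrm (volume.restrict Ω) 4 (fun x => w x i) ^ 4
            = ∫ x in Ω, |w x i| ^ 4 := by exact_mod_cast h
        rw [h']
        simp
    _ ≤ _ := by
        apply Finset.sum_le_sum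
        intro i _
        gcongr
        · exact nrm_nonneg _ _
        · exact n4 i

end Pool.Agent.Run7.h980.DW
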