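import Mathlib
import Pool.Agent.Run7.h407.Energy2
import Pool.Agent.Run7.h980.DW.Pt

/-!
Smooth flows with compact support in a bounded open set.
-/

namespace Pool.Agent.Run7.h980.DW

open Set Filter Topology MeasureTheory
open scoped ContDiff ENNReal NNReal

variable {Ω : Set E3}

/-- The time derivative. -/
noncomputable def Dt (u : ℝ → E3 → E3) (t : ℝ) (x : E3) : E3 := fun i => deriv (fun s => u s x i) t

/-- Smooth flows of test fields. -/
structure Flow (Ω : Set E3) (T R : ℝ) (u : ℝ → E3 → E3) : Prop where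
  tf : Run7.h407.TF T R u
  test : ∀ t ∈ Ico 0 T, IsTest Ω (u t)

namespace Flow

variable {T R : ℝ} {u : ℝ → E3 → E3}

theorem Dt_eq (F : Flow Ω T R u) {t : ℝ} (ht : t ∈ Ioo 0 T) (x : E3) (i : Fin 3) :
    Dt u t x i = Run7.h407.FD T u (t, x) (1, 0) i := (F.tf.time_deriv ht x i).deriv

theorem Dt_out (F : Flow Ω T R u) {t : ℝ} (ht : t ∈ Ioo 0 T) {x : E3} (hx : R < ‖x‖)
    (i : Fin 3) : Dt u t x i = 0 := by
  unfold Dt
  have h1 : (fun s => u s x i) =ᶠ[𝓝 t] fun _ => (0 : ℝ) := by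
    filter_upwards [Ioo_mem_nhds ht.1 ht.2] with s hs
    rw [F.tf.sp s ⟨hs.1.le, hs.2⟩ x hx]
    rfl
  rw [h1.deriv_eq]
  simp

theorem Dt_out' (F : Flow Ω T R u) {t : ℝ} (ht : t ∈ Ioo 0 T) {x : E3} (hx : x ∉ Ω)
    (i : Fin 3) : Dt u t x i = 0 := by
  unfold Dt
  have h1 : (fun s => u s x i) =ᶠ[𝓝 t] fun _ => (0 : ℝ) := by
    filter_upwards [Ioo_mem_nhds ht.1 ht.2] with s hs
    rw [(F.test s ⟨hs.1.le, hs.2⟩).zero_out hx]
    rfl
  rw [h1.deriv_eq]
  simp

theorem Dt_cont (F : Flow Ω T R u) {t : ℝ} (ht : t ∈ Ioo 0 T) (i : Fin 3) :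
    Continuous (fun x => Dt u t x i) := by
  have h1 : (fun x : E3 => Dt u t x i) = fun x => Run7.h407.FD T u (t, x) (1, 0) i := by
    funext x
    exact F.Dt_eq ht x i
  rw [h1, ← continuousOn_univ]
  exact (F.tf.FDv_cont (1, 0) i).comp (f := fun x : E3 => (t, x)) (by fun_prop)
    (fun x _ => ⟨⟨ht.1.le, ht.2⟩, mem_univ _⟩)

theorem Dt_cs (F : Flow Ω T R u) {t : ℝ} (ht : t ∈ Ioo 0 T) (i : Fin 3) :
    HasCompactSupport (fun x => Dt u t x i) := by
  apply HasCompactSupport.intro (isCompact_closedBall (0 : E3) R)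
  intro x hx
  apply F.Dt_out ht
  rw [mem_closedBall_zero_iff, not_le] at hx
  exact hx

theorem Dt_memLp (F : Flow Ω T R u) {t : ℝ} (ht : t ∈ Ioo 0 T) (i : Fin 3) (p : ℝ≥0∞) :
    MemLp (fun x => Dt u t x i) p (volume.restrict Ω) :=
  (memLp_cs (F.Dt_cont ht i) (F.Dt_cs ht i) p volume).restrict Ω

theorem FDv_bd (F : Flow Ω T R u) (v : ℝ × E3) (i : Fin 3) {s : ℝ} (hs : s < T) :
    ∃ M, ∀ t ∈ Icc 0 s, ∀ x, ‖x‖ ≤ R → |Run7.h407.FD T u (t, x) v i| ≤ M := by
  have hc : IsCompact (Icc 0 s ×ˢ Metric.closedBall (0 : E3) R) :=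
    isCompact_Icc.prod (isCompact_closedBall _ _)
  have hsub : Icc 0 s ×ˢ Metric.closedBall (0 : E3) R ⊆ Ico 0 T ×ˢ (univ : Set E3) := by
    rintro ⟨t, x⟩ ⟨h1, _⟩
    exact ⟨⟨h1.1, h1.2.trans_lt hs⟩, mem_univ _⟩
  obtain ⟨M, hM⟩ := hc.exists_bound_of_continuousOn ((F.tf.FDv_cont v i).mono hsub)
  refine ⟨M, fun t ht x hx => ?_⟩
  have := hM (t, x) ⟨ht, mem_closedBall_zero_iff.2 hx⟩
  simpa using this

/-- Bounds of the derivatives. -/
theorem bd (F : Flow Ω T R u) {s : ℝ} (hs : s < T) : ∃ M, 0 ≤ M ∧ ∀ t ∈ Ioo 0 T, t ≤ s →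
    (∀ x i j, |grad (u t) x i j| ≤ M) ∧ ∀ x i, |Dt u t x i| ≤ M := by
  choose M1 hM1 using fun (i j : Fin 3) => F.FDv_bd (0, Pi.single j 1) i hs
  choose M2 hM2 using fun (i : Fin 3) => F.FDv_bd (1, 0) i hs
  refine ⟨∑ i, ∑ j, |M1 i j| + ∑ i, |M2 i|, by positivity, fun t ht hts => ⟨?_, ?_⟩⟩
  · intro x i j
    have h0 : |M1 i j| ≤ ∑ i, ∑ j, |M1 i j| + ∑ i, |M2 i| := by
      have e1 : |M1 i j| ≤ ∑ j, |M1 i j| :=
        Finset.single_le_sum (f := fun j => |M1 i j|) (fun _ _ => abs_nonneg _)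
          (Finset.mem_univ j)
      have e2 : ∑ j, |M1 i j| ≤ ∑ i, ∑ j, |M1 i j| :=
        Finset.single_le_sum (f := fun i => ∑ j, |M1 i j|)
          (fun _ _ => Finset.sum_nonneg fun _ _ => abs_nonneg _) (Finset.mem_univ i)
      have e3 : 0 ≤ ∑ i, |M2 i| := Finset.sum_nonneg fun _ _ => abs_nonneg _
      linarith
    rcases le_or_gt ‖x‖ R with hx | hx
    · have e := F.tf.space_deriv ⟨ht.1.le, ht.2⟩ x i j
      show |Run7.h407.pd j (fun y => u t y i) x| ≤ _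
      rw [e]
      exact (hM1 i j t ⟨ht.1.le, hts⟩ x hx).trans ((le_abs_self _).trans h0)
    · have e : grad (u t) x i j = 0 := by
        apply Run7.h407.pd_eq_zero
        rw [notMem_tsupport_iff_eventuallyEq]
        filter_upwards [(continuous_norm.tendsto x).eventually (lt_mem_nhds hx)] with y hy
        show u t y i = 0
        rw [F.tf.sp t ⟨ht.1.le, ht.2⟩ y hy]
        rfl
      rw [e, abs_zero]
      exact (abs_nonneg _).trans h0
  · intro x i
    have h0 : |M2 i| ≤ ∑ i, ∑ j, |M1 i j| + ∑ i, |M2 i| := by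
      have e1 : |M2 i| ≤ ∑ i, |M2 i| :=
        Finset.single_le_sum (f := fun i => |M2 i|) (fun _ _ => abs_nonneg _)
          (Finset.mem_univ i)
      have e3 : 0 ≤ ∑ i, ∑ j, |M1 i j| :=
        Finset.sum_nonneg fun _ _ => Finset.sum_nonneg fun _ _ => abs_nonneg _
      linarith
    rcases le_or_gt ‖x‖ R with hx | hx
    · rw [F.Dt_eq ht]
      exact (hM2 i t ⟨ht.1.le, hts⟩ x hx).trans ((le_abs_self _).trans h0)
    · rw [F.Dt_out ht hx, abs_zero]
      exact (abs_nonneg _).trans h0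

/-- The fundamental theorem of calculus. -/
theorem ftc (F : Flow Ω T R u) {t : ℝ} (ht : t ∈ Ico 0 T) (x : E3) (i : Fin 3) :
    IntervalIntegrable (fun s => Dt u s x i) volume 0 t ∧
    u t x i = u 0 x i + ∫ s in (0 : ℝ)..t, Dt u s x i := by
  have hsub : ∀ s ∈ Icc 0 t, (s, x) ∈ Ico 0 T ×ˢ (univ : Set E3) := fun s hs =>
    ⟨⟨hs.1, hs.2.trans_lt ht.2⟩, mem_univ _⟩
  have h1 : ContinuousOn (fun s => u s x i) (Icc 0 t) :=
    (F.tf.coord_cont i).comp (f := fun s : ℝ => (s, x)) (by fun_prop) hsub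
  have h2 : ContinuousOn (fun s => Run7.h407.FD T u (s, x) (1, 0) i) (Icc 0 t) :=
    (F.tf.FDv_cont (1, 0) i).comp (f := fun s : ℝ => (s, x)) (by fun_prop) hsub
  have h3 : IntervalIntegrable (fun s => Run7.h407.FD T u (s, x) (1, 0) i) volume 0 t := by
    apply ContinuousOn.intervalIntegrable
    rwa [uIcc_of_le ht.1]
  have h4 := intervalIntegral.integral_eq_sub_of_hasDerivAt_of_le ht.1 h1
    (fun s hs => F.tf.time_deriv ⟨hs.1, hs.2.trans ht.2⟩ x i) h3
  have h5 : ∀ᵐ s ∂(volume.restrict (uIoc 0 t)),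
      Run7.h407.FD T u (s, x) (1, 0) i = Dt u s x i := by
    rw [uIoc_of_le ht.1]
    filter_upwards [ae_restrict_mem measurableSet_Ioc] with s hs
    exact (F.Dt_eq ⟨hs.1, hs.2.trans_lt ht.2⟩ x i).symm
  refine ⟨h3.congr_ae h5, ?_⟩
  have h6 : ∫ s in (0 : ℝ)..t, Run7.h407.FD T u (s, x) (1, 0) i
      = ∫ s in (0 : ℝ)..t, Dt u s x i := by
    apply intervalIntegral.integral_congr_ae
    exact (ae_restrict_iff' measurableSet_uIoc).1 h5
  rw [← h6, h4]
  ring

theorem Dt_meas (F : Flow Ω T R u) {S : ℝ} (hS : S ≤ T) (hΩ : MeasurableSet Ω) (i : Fin 3) :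
    AEStronglyMeasurable (fun z : ℝ × E3 => Dt u z.1 z.2 i)
      ((volume.restrict (Ioo 0 S)).prod (volume.restrict Ω)) := by
  rw [Measure.prod_restrict]
  have h1 : ContinuousOn (fun z : ℝ × E3 => Dt u z.1 z.2 i) (Ioo 0 S ×ˢ Ω) := by
    have h2 : ContinuousOn (fun z : ℝ × E3 => Run7.h407.FD T u z (1, 0) i) (Ioo 0 S ×ˢ Ω) :=
      (F.tf.FDv_cont (1, 0) i).mono (prod_mono
        (Ioo_subset_Ico_self.trans (Ico_subset_Ico_right hS)) (subset_univ _))
    refine h2.congr ?_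
    rintro ⟨t, x⟩ ⟨ht, _⟩
    exact F.Dt_eq ⟨ht.1, ht.2.trans_le hS⟩ x i
  exact h1.aestronglyMeasurable (measurableSet_Ioo.prod hΩ)

/-- The equation tested with a field of `V`. -/
theorem eqn (F : Flow Ω T R u) {ν : ℝ} {t : ℝ} (ht : t ∈ Ioo 0 T)
    {z : E3 → E3} {Z : E3 → Fin 3 → Fin 3 → ℝ} (hz : InV Ω z Z) (hz0 : ∀ x ∉ Ω, z x = 0)
    (he : ∫ x, ∑ i, Run7.h407.residual ν u t x i * z x i = 0) :
    ∫ x in Ω, ∑ i, (Dt u t x i * z x i + (∑ j, u t x j * grad (u t) x i j) * z x i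
      + ν * ∑ j, grad (u t) x i j * Z x i j) = 0 := by
  have ht' : t ∈ Ico 0 T := ⟨ht.1.le, ht.2⟩
  have hu := F.test t ht'
  obtain ⟨l1, l2⟩ := lap_V hu hz
  have hrc : ∀ i, Continuous (fun x => Run7.h407.residual ν u t x i) := fun i =>
    (continuous_apply i).comp (F.tf.resid_cont ν ht)
  have hr0 : ∀ i, HasCompactSupport (fun x => Run7.h407.residual ν u t x i) := by
    intro i
    apply HasCompactSupport.intro (isCompact_closedBall (0 : E3) R)
    intro x hx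
    rw [mem_closedBall_zero_iff, not_le] at hx
    have h0 : ∀ᶠ y in 𝓝 x, u t y = 0 := by
      filter_upwards [(continuous_norm.tendsto x).eventually (lt_mem_nhds hx)] with y hy
      exact F.tf.sp t ht' y hy
    have h1 : ∀ k, (fun y => u t y k) =ᶠ[𝓝 x] fun _ => (0 : ℝ) := fun k => by
      filter_upwards [h0] with y hy
      rw [hy]
      rfl
    have h2 : ∀ j k, (Run7.h407.pd j (fun y => u t y k)) =ᶠ[𝓝 x] fun _ => (0 : ℝ) := by
      intro j k
      filter_upwards [(h1 k).eventually_nhds] with y hy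
      rw [Run7.h407.pd_congr hy, Run7.h407.pd_const]
    have e1 : Dt u t x i = 0 := F.Dt_out ht hx i
    unfold Run7.h407.residual
    have e2 : deriv (fun s => u s x i) t = 0 := e1
    rw [e2, h0.self_of_nhds]
    simp only [Pi.zero_apply, zero_mul, Finset.sum_const_zero, add_zero, zero_sub, neg_eq_zero]
    have e3 : ∀ j, Run7.h407.pd j (Run7.h407.pd j (fun y => u t y i)) x = 0 := by
      intro j
      rw [Run7.h407.pd_congr (h2 j i), Run7.h407.pd_const]
    simp [e3]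
  have hr : ∀ i, MemLp (fun x => Run7.h407.residual ν u t x i) 2 (volume.restrict Ω) := fun i =>
    (memLp_cs (hrc i) (hr0 i) 2 volume).restrict Ω
  have i1 : Integrable (fun x => ∑ i, Run7.h407.residual ν u t x i * z x i)
      (volume.restrict Ω) := integrable_finsetSum _ fun i _ => (hold2 (hr i) (hz.memL2 i)).1
  have i2 : Integrable (fun x => ∑ i, z x i * (∑ j, pderiv j (pderiv j (fun y => u t y i)) x)
      + ∑ i, ∑ j, Z x i j * grad (u t) x i j) (volume.restrict Ω) :=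
    (integrable_finsetSum _ fun i _ => (hold2 (hz.memL2 i) (l1 i)).1).add
      (integrable_finsetSum _ fun i _ => integrable_finsetSum _ fun j _ =>
        (hold2 (hz.memL2_grad i j) (hu.memLp_grad i j 2)).1)
  have e0 : ∫ x in Ω, ∑ i, Run7.h407.residual ν u t x i * z x i = 0 := by
    rw [← he]
    apply setIntegral_eq_integral_of_forall_compl_eq_zero
    intro x hx
    simp [hz0 x hx]
  have hid : ∀ x, ∑ i, (Dt u t x i * z x i + (∑ j, u t x j * grad (u t) x i j) * z x i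
      + ν * ∑ j, grad (u t) x i j * Z x i j)
      = (∑ i, Run7.h407.residual ν u t x i * z x i)
        + ν * (∑ i, z x i * (∑ j, pderiv j (pderiv j (fun y => u t y i)) x)
          + ∑ i, ∑ j, Z x i j * grad (u t) x i j) := by
    intro x
    have er : ∀ i, Run7.h407.residual ν u t x i = Dt u t x i
        + ∑ j, u t x j * grad (u t) x i j
        - ν * ∑ j, pderiv j (pderiv j (fun y => u t y i)) x := fun i => rfl
    simp only [er, Fin.sum_univ_three]
    ring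
  simp_rw [hid]
  rw [integral_add i1 (i2.const_mul ν), integral_const_mul, e0, l2]
  simp

end Flow

end Pool.Agent.Run7.h980.DW
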