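import Mathlib

/-!
Curves in `L²` with bounded derivative: the energy identity and a Gronwall argument.
-/

namespace Pool.Agent.Run7.h980.DW

open Set Filter Topology MeasureTheory

/-- `F² = 2 ∫ f F` for the primitive `F` of an integrable function `f`. -/
theorem sq_prim {f : ℝ → ℝ} {t : ℝ} (hf : IntervalIntegrable f volume 0 t) :
    (∫ s in (0 : ℝ)..t, f s) ^ 2
      = ∫ s in (0 : ℝ)..t, 2 * (f s * ∫ r in (0 : ℝ)..s, f r) := by
  have hac := hf.absolutelyContinuousOnInterval_intervalIntegral (c := 0) (by simp)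
  have h := hac.integral_deriv_mul_eq_sub hac
  simp only [intervalIntegral.integral_same, mul_zero, sub_zero] at h
  rw [sq, ← h]
  apply intervalIntegral.integral_congr_ae
  filter_upwards [hf.ae_hasDerivAt_integral] with x hx hx'
  have h1 := (hx (uIoc_subset_uIcc hx') 0 (by simp)).deriv
  rw [h1]
  ring

variable {X : Type} [MeasurableSpace X] {μ : Measure X} [IsFiniteMeasure μ] {S : ℝ}

/-- The primitive in `t`. -/
noncomputable def prim (f : ℝ × X → ℝ) (z : ℝ × X) : ℝ := ∫ s in (0 : ℝ)..z.1, f (s, z.2)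

theorem prim_meas {f : ℝ × X → ℝ} (hf : StronglyMeasurable f) :
    AEStronglyMeasurable (prim f) ((volume.restrict (Ioo 0 S)).prod μ) := by
  have h1 : StronglyMeasurable (fun z : ℝ × X => ∫ r in Ioo 0 S,
      (Iic z.1).indicator (fun r => f (r, z.2)) r) := by
    apply StronglyMeasurable.integral_prod_right'
      (f := fun p : (ℝ × X) × ℝ => (Iic p.1.1).indicator (fun r => f (r, p.1.2)) p.2)
    have e : (fun p : (ℝ × X) × ℝ => (Iic p.1.1).indicator (fun r => f (r, p.1.2)) p.2)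
        = {p : (ℝ × X) × ℝ | p.2 ≤ p.1.1}.indicator (fun p => f (p.2, p.1.2)) := by
      funext p
      by_cases h : p.2 ≤ p.1.1
      · rw [indicator_of_mem (show p.2 ∈ Iic p.1.1 from h),
          indicator_of_mem (show p ∈ {p : (ℝ × X) × ℝ | p.2 ≤ p.1.1} from h)]
      · rw [indicator_of_notMem (show p.2 ∉ Iic p.1.1 from h),
          indicator_of_notMem (show p ∉ {p : (ℝ × X) × ℝ | p.2 ≤ p.1.1} from h)]
    rw [e]
    apply StronglyMeasurable.indicator
    · exact hf.comp_measurable (by fun_prop)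
    · exact measurableSet_le (by fun_prop) (by fun_prop)
  refine h1.aestronglyMeasurable.congr ?_
  have h2 : ∀ᵐ z ∂((volume.restrict (Ioo (0 : ℝ) S)).prod μ), z.1 ∈ Ioo (0 : ℝ) S := by
    have h3 : ∀ᵐ s ∂(volume.restrict (Ioo (0 : ℝ) S)), s ∈ Ioo (0 : ℝ) S :=
      ae_restrict_mem measurableSet_Ioo
    exact (Measure.quasiMeasurePreserving_fst).ae h3
  filter_upwards [h2] with z hz
  unfold prim
  rw [intervalIntegral.integral_of_le hz.1.le, integral_indicator measurableSet_Iic,
    Measure.restrict_restrict measurableSet_Iic]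
  congr 1
  congr 1
  ext r
  simp only [mem_inter_iff, mem_Iic, mem_Ioo, mem_Ioc]
  constructor
  · rintro ⟨h, h', h''⟩
    exact ⟨h', h⟩
  · rintro ⟨h, h'⟩
    exact ⟨h', h, lt_of_le_of_lt h' hz.2⟩

theorem prod_Ioo_le {t : ℝ} (ht : t ≤ S) :
    (volume.restrict (Ioo 0 t)).prod μ ≤ (volume.restrict (Ioo 0 S)).prod μ := by
  have h1 : (volume.restrict (Ioo 0 t)).prod μ
      = ((volume : Measure ℝ).prod μ).restrict (Ioo 0 t ×ˢ univ) := by
    rw [← Measure.prod_restrict, Measure.restrict_univ]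
  have h2 : (volume.restrict (Ioo 0 S)).prod μ
      = ((volume : Measure ℝ).prod μ).restrict (Ioo 0 S ×ˢ univ) := by
    rw [← Measure.prod_restrict, Measure.restrict_univ]
  rw [h1, h2]
  apply Measure.restrict_mono _ le_rfl
  exact prod_mono (Ioo_subset_Ioo_right ht) (Subset.refl _)

/-- `F² ≤ S ∫ f²`. -/
theorem prim_sq_le {g : ℝ → ℝ} (h2 : Integrable (fun s => g s ^ 2) (volume.restrict (Ioo 0 S)))
    (h1 : Integrable g (volume.restrict (Ioo 0 S))) {t : ℝ} (ht : t ∈ Ioo 0 S) :
    (∫ s in (0 : ℝ)..t, g s) ^ 2 ≤ S * ∫ s in Ioo 0 S, g s ^ 2 := by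
  have hS : 0 < S := ht.1.trans ht.2
  rw [intervalIntegral.integral_of_le ht.1.le]
  have hsub : Ioc 0 t ⊆ Ioo 0 S := fun r hr => ⟨hr.1, lt_of_le_of_lt hr.2 ht.2⟩
  have h3 : IntegrableOn (fun s => g s ^ 2) (Ioc 0 t) volume := IntegrableOn.mono_set h2 hsub
  have h4 : IntegrableOn g (Ioc 0 t) volume := IntegrableOn.mono_set h1 hsub
  have h5 : 0 ≤ ∫ s in Ioc 0 t, (g s - (∫ r in Ioc 0 t, g r) / t) ^ 2 :=
    integral_nonneg fun s => sq_nonneg _
  set m := ∫ r in Ioc 0 t, g r with hm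
  have h6 : ∫ s in Ioc 0 t, (g s - m / t) ^ 2
      = (∫ s in Ioc 0 t, g s ^ 2) - 2 * (m / t) * m + (m / t) ^ 2 * t := by
    have e : (fun s => (g s - m / t) ^ 2)
        = fun s => g s ^ 2 - 2 * (m / t) * g s + (m / t) ^ 2 := by
      funext s
      ring
    rw [e, integral_add, integral_sub, integral_const_mul, setIntegral_const]
    · simp only [smul_eq_mul, Measure.real, Real.volume_Ioc, sub_zero,
        ENNReal.toReal_ofReal ht.1.le]
      rw [← hm]
      ring
    · exact h3
    · exact h4.const_mul _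
    · exact h3.sub (h4.const_mul _)
    · exact integrableOn_const (by simp)
  rw [h6] at h5
  have h7 : 2 * (m / t) * m - (m / t) ^ 2 * t = m ^ 2 / t := by
    have := ht.1.ne'
    field_simp
    ring
  have h8 : m ^ 2 / t ≤ ∫ s in Ioc 0 t, g s ^ 2 := by linarith
  have h9 : ∫ s in Ioc 0 t, g s ^ 2 ≤ ∫ s in Ioo 0 S, g s ^ 2 :=
    setIntegral_mono_set h2 (Eventually.of_forall fun s => sq_nonneg _)
      (Eventually.of_forall hsub)
  rw [div_le_iff₀ ht.1] at h8
  have h10 : 0 ≤ ∫ s in Ioo 0 S, g s ^ 2 := integral_nonneg fun s => sq_nonneg _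
  nlinarith [ht.2, ht.1]

theorem fin_prod : IsFiniteMeasure ((volume.restrict (Ioo (0 : ℝ) S)).prod μ) := by
  have : IsFiniteMeasure (volume.restrict (Ioo (0 : ℝ) S)) := ⟨by simp⟩
  infer_instance

theorem slices {f : ℝ × X → ℝ} (hf : MemLp f 2 ((volume.restrict (Ioo 0 S)).prod μ)) :
    ∀ᵐ x ∂μ, Integrable (fun s => f (s, x)) (volume.restrict (Ioo 0 S)) ∧
      Integrable (fun s => f (s, x) ^ 2) (volume.restrict (Ioo 0 S)) := by
  have : IsFiniteMeasure (volume.restrict (Ioo (0 : ℝ) S)) := ⟨by simp⟩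
  have h1 : Integrable f ((volume.restrict (Ioo 0 S)).prod μ) := hf.integrable (by norm_num)
  have h2 : Integrable (fun z => f z ^ 2) ((volume.restrict (Ioo 0 S)).prod μ) := hf.integrable_sq
  filter_upwards [h1.prod_left_ae, h2.prod_left_ae] with x a b
  exact ⟨a, b⟩

theorem prim_memLp {f : ℝ × X → ℝ} (hf : MemLp f 2 ((volume.restrict (Ioo 0 S)).prod μ)) :
    MemLp (prim f) 2 ((volume.restrict (Ioo 0 S)).prod μ) := by
  have hfin : IsFiniteMeasure (volume.restrict (Ioo (0 : ℝ) S)) := ⟨by simp⟩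
  -- measurability
  have hm : AEStronglyMeasurable (prim f) ((volume.restrict (Ioo 0 S)).prod μ) := by
    set f1 := hf.1.mk f with hf1
    have h1 := prim_meas (S := S) (μ := μ) hf.1.stronglyMeasurable_mk
    refine h1.congr ?_
    have h2 : f =ᵐ[(volume.restrict (Ioo 0 S)).prod μ] f1 := hf.1.ae_eq_mk
    have h3 : ∀ᵐ x ∂μ, ∀ᵐ s ∂(volume.restrict (Ioo (0 : ℝ) S)), f (s, x) = f1 (s, x) := by
      have := (Measure.ae_ae_of_ae_prod (μ := μ) (ν := volume.restrict (Ioo (0 : ℝ) S))
        (p := fun z => f z.swap = f1 z.swap) ?_)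
      · exact this
      · have h4 := (Measure.measurePreserving_swap (μ := μ)
          (ν := volume.restrict (Ioo (0 : ℝ) S))).quasiMeasurePreserving.ae h2
        exact h4
    have h5 : ∀ᵐ z ∂((volume.restrict (Ioo (0 : ℝ) S)).prod μ),
        z.1 ∈ Ioo (0 : ℝ) S := (Measure.quasiMeasurePreserving_fst).ae
          (ae_restrict_mem measurableSet_Ioo)
    have h6 : ∀ᵐ z ∂((volume.restrict (Ioo (0 : ℝ) S)).prod μ),
        ∀ᵐ s ∂(volume.restrict (Ioo (0 : ℝ) S)), f (s, z.2) = f1 (s, z.2) :=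
      (Measure.quasiMeasurePreserving_snd).ae h3
    filter_upwards [h5, h6] with z hz hz'
    unfold prim
    rw [intervalIntegral.integral_of_le hz.1.le, intervalIntegral.integral_of_le hz.1.le]
    apply integral_congr_ae
    have hsub : Ioc 0 z.1 ⊆ Ioo 0 S := fun r hr => ⟨hr.1, lt_of_le_of_lt hr.2 hz.2⟩
    filter_upwards [ae_restrict_of_ae_restrict_of_subset hsub hz'] with s hs
    exact hs.symm
  rw [memLp_two_iff_integrable_sq hm]
  -- domination by S ∫ f²
  have h2 : Integrable (fun z => f z ^ 2) ((volume.restrict (Ioo 0 S)).prod μ) := hf.integrable_sq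
  have h3 : Integrable (fun x => ∫ s in Ioo 0 S, f (s, x) ^ 2) μ := h2.integral_prod_right
  have h4 : Integrable (fun z : ℝ × X => S * ∫ s in Ioo 0 S, f (s, z.2) ^ 2)
      ((volume.restrict (Ioo 0 S)).prod μ) := by
    have := (h3.const_mul S).comp_snd (volume.restrict (Ioo 0 S))
    exact this
  refine h4.mono' (hm.pow 2) ?_
  have h5 : ∀ᵐ z ∂((volume.restrict (Ioo (0 : ℝ) S)).prod μ),
      z.1 ∈ Ioo (0 : ℝ) S := (Measure.quasiMeasurePreserving_fst).ae
        (ae_restrict_mem measurableSet_Ioo)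
  have h6 := (Measure.quasiMeasurePreserving_snd (μ := volume.restrict (Ioo (0 : ℝ) S))
    (ν := μ)).ae (slices hf)
  filter_upwards [h5, h6] with z hz hz'
  rw [Real.norm_of_nonneg (sq_nonneg _)]
  exact prim_sq_le hz'.2 hz'.1 hz

/-- The energy identity. -/
theorem energy_id {f : ℝ × X → ℝ} (hf : MemLp f 2 ((volume.restrict (Ioo 0 S)).prod μ)) {t : ℝ}
    (ht : t ∈ Ioo 0 S) :
    Integrable (fun x => prim f (t, x) ^ 2) μ ∧
    Integrable (fun s => ∫ x, f (s, x) * prim f (s, x) ∂μ) (volume.restrict (Ioo 0 t)) ∧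
    ∫ x, prim f (t, x) ^ 2 ∂μ = 2 * ∫ s in Ioo 0 t, ∫ x, f (s, x) * prim f (s, x) ∂μ := by
  have hfin : IsFiniteMeasure (volume.restrict (Ioo (0 : ℝ) S)) := ⟨by simp⟩
  have hfin' : IsFiniteMeasure (volume.restrict (Ioo (0 : ℝ) t)) := ⟨by simp⟩
  have hP := prim_memLp hf
  have hI : Integrable (fun z => f z * prim f z) ((volume.restrict (Ioo 0 S)).prod μ) :=
    hf.integrable_mul hP
  have hI' : Integrable (fun z => f z * prim f z) ((volume.restrict (Ioo 0 t)).prod μ) :=
    hI.mono_measure (prod_Ioo_le ht.2.le)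
  have hsl := slices hf
  have hae : ∀ᵐ x ∂μ, prim f (t, x) ^ 2 = 2 * ∫ s in Ioo 0 t, f (s, x) * prim f (s, x) := by
    filter_upwards [hsl] with x hx
    have hsub : Ioc 0 t ⊆ Ioo 0 S := fun r hr => ⟨hr.1, lt_of_le_of_lt hr.2 ht.2⟩
    have hii : IntervalIntegrable (fun s => f (s, x)) volume 0 t := by
      rw [intervalIntegrable_iff_integrableOn_Ioc_of_le ht.1.le]
      exact IntegrableOn.mono_set hx.1 hsub
    have h1 := sq_prim hii
    show (∫ s in (0 : ℝ)..t, f (s, x)) ^ 2 = _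
    rw [h1, intervalIntegral.integral_const_mul, intervalIntegral.integral_of_le ht.1.le,
      integral_Ioc_eq_integral_Ioo]
    rfl
  have hr : Integrable (fun x => ∫ s in Ioo 0 t, f (s, x) * prim f (s, x)) μ :=
    hI'.integral_prod_right
  refine ⟨(hr.const_mul 2).congr (by filter_upwards [hae] with x hx; exact hx.symm),
    hI'.integral_prod_left, ?_⟩
  rw [integral_congr_ae hae, integral_const_mul]
  congr 1
  exact (integral_integral_swap (f := fun s x => f (s, x) * prim f (s, x)) hI').symm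

/-- Gronwall: a curve in `L²` which vanishes at `0`, with `⟨z', z⟩ ≤ L |z|²`, is zero. -/
theorem gron {ι : Type} [Fintype ι] {f : ι → ℝ × X → ℝ}
    (hf : ∀ i, MemLp (f i) 2 ((volume.restrict (Ioo 0 S)).prod μ)) {L t1 : ℝ} (hL : 0 ≤ L)
    (ht1 : t1 < S)
    (h : ∀ᵐ s ∂(volume.restrict (Ioo 0 t1)), ∫ x, ∑ i, f i (s, x) * prim (f i) (s, x) ∂μ
      ≤ L * ∫ x, ∑ i, prim (f i) (s, x) ^ 2 ∂μ) :
    ∀ t ∈ Ioo 0 t1, ∀ᵐ x ∂μ, ∀ i, prim (f i) (t, x) = 0 := by
  classical
  rcases le_or_gt t1 0 with h0 | h0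
  · intro t ht
    exact absurd ht.1 (not_lt.2 (ht.2.le.trans h0))
  have hS : 0 < S := h0.trans ht1
  have hfin : IsFiniteMeasure (volume.restrict (Ioo (0 : ℝ) S)) := ⟨by simp⟩
  set φ : ℝ → ℝ := fun t => ∫ x, ∑ i, prim (f i) (t, x) ^ 2 ∂μ with hφ
  have hmemS : ∀ {t}, t ∈ Ioo 0 t1 → t ∈ Ioo 0 S := fun ht => ⟨ht.1, ht.2.trans ht1⟩
  have hint : ∀ t ∈ Ioo 0 t1, ∀ i, Integrable (fun x => prim (f i) (t, x) ^ 2) μ :=
    fun t ht i => (energy_id (hf i) (hmemS ht)).1
  have hφ0 : ∀ t, 0 ≤ φ t := fun t =>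
    integral_nonneg fun x => Finset.sum_nonneg fun i _ => sq_nonneg _
  have hPi : ∀ i, Integrable (fun z => prim (f i) z ^ 2) ((volume.restrict (Ioo 0 t1)).prod μ) :=
    fun i => ((prim_memLp (hf i)).integrable_sq).mono_measure (prod_Ioo_le ht1.le)
  have hφi : Integrable φ (volume.restrict (Ioo 0 t1)) := by
    have h1 : Integrable (fun z : ℝ × X => ∑ i, prim (f i) z ^ 2)
        ((volume.restrict (Ioo 0 t1)).prod μ) := integrable_finset_sum _ fun i _ => hPi i
    exact h1.integral_prod_left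
  have hIi : ∀ i, Integrable (fun z => f i z * prim (f i) z)
      ((volume.restrict (Ioo 0 t1)).prod μ) := fun i =>
    ((hf i).integrable_mul (prim_memLp (hf i))).mono_measure (prod_Ioo_le ht1.le)
  have hae1 : ∀ᵐ s ∂(volume.restrict (Ioo (0 : ℝ) t1)),
      ∀ i, Integrable (fun x => f i (s, x) * prim (f i) (s, x)) μ := by
    rw [ae_all_iff]
    intro i
    exact (hIi i).prod_right_ae
  have key : ∀ t ∈ Ioo 0 t1, φ t ≤ 2 * L * ∫ s in Ioo 0 t, φ s := by
    intro t ht
    have e1 : φ t = 2 * ∫ s in Ioo 0 t, ∫ x, ∑ i, f i (s, x) * prim (f i) (s, x) ∂μ := by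
      have h1 : φ t = ∑ i, ∫ x, prim (f i) (t, x) ^ 2 ∂μ :=
        integral_finset_sum _ fun i _ => hint t ht i
      rw [h1, Finset.sum_congr rfl fun i _ => (energy_id (hf i) (hmemS ht)).2.2,
        ← Finset.mul_sum, ← integral_finset_sum _ fun i _ => (energy_id (hf i) (hmemS ht)).2.1]
      congr 1
      apply integral_congr_ae
      filter_upwards [ae_restrict_of_ae_restrict_of_subset (Ioo_subset_Ioo_right ht.2.le) hae1]
        with s hs
      exact (integral_finset_sum _ fun i _ => hs i).symm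
    rw [e1, mul_assoc, ← integral_const_mul L]
    apply mul_le_mul_of_nonneg_left _ (by norm_num)
    apply integral_mono_ae
    · have h1 : Integrable (fun s => ∑ i, ∫ x, f i (s, x) * prim (f i) (s, x) ∂μ)
          (volume.restrict (Ioo 0 t)) :=
        integrable_finset_sum _ fun i _ => (energy_id (hf i) (hmemS ht)).2.1
      refine h1.congr ?_
      filter_upwards [ae_restrict_of_ae_restrict_of_subset (Ioo_subset_Ioo_right ht.2.le) hae1]
        with s hs
      exact (integral_finset_sum _ fun i _ => hs i).symm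
    · exact (IntegrableOn.mono_set hφi (Ioo_subset_Ioo_right ht.2.le)).const_mul L
    · exact ae_restrict_of_ae_restrict_of_subset (Ioo_subset_Ioo_right ht.2.le) h
  set B := 2 * L * ∫ s in Ioo 0 t1, φ s with hB
  have hB0 : 0 ≤ B := by
    have : 0 ≤ ∫ s in Ioo 0 t1, φ s := integral_nonneg hφ0
    positivity
  have hbd : ∀ n : ℕ, ∀ t ∈ Ioo 0 t1, φ t ≤ B * ((2 * L * t) ^ n / n.factorial) := by
    intro n
    induction n with
    | zero =>
      intro t ht
      simp only [pow_zero, Nat.factorial_zero, Nat.cast_one, div_one, mul_one]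
      refine (key t ht).trans ?_
      apply mul_le_mul_of_nonneg_left _ (by positivity)
      exact setIntegral_mono_set hφi (Eventually.of_forall hφ0)
        (Eventually.of_forall (Ioo_subset_Ioo_right ht.2.le))
    | succ n ih =>
      intro t ht
      refine (key t ht).trans ?_
      have h1 : ∫ s in Ioo 0 t, φ s ≤ ∫ s in Ioo 0 t, B * ((2 * L * s) ^ n / n.factorial) := by
        apply setIntegral_mono_on
        · exact IntegrableOn.mono_set hφi (Ioo_subset_Ioo_right ht.2.le)
        · exact (Continuous.integrableOn_Icc (by fun_prop)).mono_set Ioo_subset_Icc_self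
        · exact measurableSet_Ioo
        · intro s hs
          exact ih s ⟨hs.1, hs.2.trans ht.2⟩
      refine (mul_le_mul_of_nonneg_left h1 (by positivity)).trans (le_of_eq ?_)
      rw [← integral_Ioc_eq_integral_Ioo, ← intervalIntegral.integral_of_le ht.1.le]
      have e2 : (fun s : ℝ => B * ((2 * L * s) ^ n / n.factorial))
          = fun s : ℝ => (B * (2 * L) ^ n / n.factorial) * s ^ n := by
        funext s
        rw [mul_pow]
        ring
      rw [e2, intervalIntegral.integral_const_mul, integral_pow]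
      have hn : ((n + 1).factorial : ℝ) = (n + 1) * n.factorial := by
        push_cast [Nat.factorial_succ]
        ring
      have hn0 : (n.factorial : ℝ) ≠ 0 := by exact_mod_cast n.factorial_ne_zero
      have hn1 : (n : ℝ) + 1 ≠ 0 := by positivity
      rw [hn]
      simp only [ne_eq, Nat.add_eq_zero_iff, one_ne_zero, and_false, not_false_eq_true, zero_pow,
        sub_zero]
      field_simp
      ring
  intro t ht
  have hz : φ t ≤ 0 := by
    have h1 : Tendsto (fun n : ℕ => B * ((2 * L * t) ^ n / n.factorial)) atTop (𝓝 (B * 0)) :=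
      (FloorSemiring.tendsto_pow_div_factorial_atTop (2 * L * t)).const_mul B
    rw [mul_zero] at h1
    exact ge_of_tendsto' h1 fun n => hbd n t ht
  have hz0 : φ t = 0 := le_antisymm hz (hφ0 t)
  have h2 : (fun x => ∑ i, prim (f i) (t, x) ^ 2) =ᵐ[μ] 0 := by
    rw [← integral_eq_zero_iff_of_nonneg (fun x => Finset.sum_nonneg fun i _ => sq_nonneg _)
      (integrable_finset_sum _ fun i _ => hint t ht i)]
    exact hz0
  filter_upwards [h2] with x hx i
  have h3 : ∑ i, prim (f i) (t, x) ^ 2 = 0 := hx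
  rw [Finset.sum_eq_zero_iff_of_nonneg fun i _ => sq_nonneg _] at h3
  exact pow_eq_zero_iff (two_ne_zero) |>.1 (h3 i (Finset.mem_univ i))

end Pool.Agent.Run7.h980.DW
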