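import Mathlib
import Pool.Agent.Run7.h980.DW.Flow
import Pool.Agent.Run7.h980.DW.Time

/-!
Uniqueness and continuation of solutions with `∂ₜu ∈ L^∞(0,T;L²)`.
-/

namespace Pool.Agent.Run7.h980.DW

open Set Filter Topology MeasureTheory
open scoped ContDiff ENNReal NNReal

variable {Ω : Set E3} {T R : ℝ} {u : ℝ → E3 → E3}

theorem fin_Ioo (a b : ℝ) : IsFiniteMeasure (volume.restrict (Ioo a b)) := ⟨by simp⟩

/-- The difference of the time derivatives is square integrable. -/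
theorem diff_memLp (hb : Bornology.IsBounded Ω) (hΩ : MeasurableSet Ω) (F : Flow Ω T R u)
    {S S' : ℝ} (hS : S' ≤ S) (hT : S' < T) {w' : ℝ → E3 → E3} {C : ℝ}
    (hm : ∀ i, AEStronglyMeasurable (fun z : ℝ × E3 => w' z.1 z.2 i)
      ((volume.restrict (Ioo 0 S)).prod (volume.restrict Ω)))
    (hC : ∀ᵐ t ∂(volume.restrict (Ioo 0 S)),
      (∀ i, MemLp (fun x => w' t x i) 2 (volume.restrict Ω)) ∧
      ∫ x in Ω, ∑ i, w' t x i ^ 2 ≤ C) (i : Fin 3) :
    MemLp (fun z : ℝ × E3 => w' z.1 z.2 i - Dt u z.1 z.2 i) 2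
      ((volume.restrict (Ioo 0 S')).prod (volume.restrict Ω)) := by
  have hfin := fin_restrict hb
  have hfin' := fin_Ioo 0 S'
  have hm' := (hm i).mono_measure (prod_Ioo_le (μ := volume.restrict Ω) hS)
  apply MemLp.sub
  · have hm2 : AEStronglyMeasurable (fun z : ℝ × E3 => w' z.1 z.2 i ^ 2)
        ((volume.restrict (Ioo 0 S')).prod (volume.restrict Ω)) := hm'.pow 2
    rw [memLp_two_iff_integrable_sq hm', integrable_prod_iff hm2]
    have hC' := ae_restrict_of_ae_restrict_of_subset (Ioo_subset_Ioo_right hS) hC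
    refine ⟨?_, ?_⟩
    · filter_upwards [hC'] with t ht
      exact (ht.1 i).integrable_sq
    · apply Integrable.mono' (integrable_const C)
      · exact hm2.norm.integral_prod_right'
      · filter_upwards [hC'] with t ht
        have h1 : ∀ x, ‖w' t x i ^ 2‖ = w' t x i ^ 2 := fun x => Real.norm_of_nonneg (sq_nonneg _)
        show ‖∫ x in Ω, ‖w' t x i ^ 2‖‖ ≤ C
        simp_rw [h1]
        rw [Real.norm_of_nonneg (integral_nonneg fun x => sq_nonneg _)]
        refine le_trans (integral_mono (ht.1 i).integrable_sq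
          (integrable_finsetSum _ fun i _ => (ht.1 i).integrable_sq) fun x => ?_) ht.2
        exact Finset.single_le_sum (f := fun i => w' t x i ^ 2) (fun i _ => sq_nonneg _)
          (Finset.mem_univ i)
  · obtain ⟨M, hM0, hM⟩ := F.bd hT
    have hmD := F.Dt_meas (S := S') hT.le hΩ i
    apply MemLp.of_bound (C := M) hmD
    have h5 : ∀ᵐ z ∂((volume.restrict (Ioo (0 : ℝ) S')).prod (volume.restrict Ω)),
        z.1 ∈ Ioo (0 : ℝ) S' := (Measure.quasiMeasurePreserving_fst).ae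
          (ae_restrict_mem measurableSet_Ioo)
    filter_upwards [h5] with z hz
    exact (hM z.1 ⟨hz.1, hz.2.trans hT⟩ hz.2.le).2 z.2 i

/-- Uniqueness. -/
theorem uniq (hb : Bornology.IsBounded Ω) (hΩ : MeasurableSet Ω) (F : Flow Ω T R u)
    {W : Submodule ℝ (E3 → E3)} {ν : ℝ} (hν : 0 < ν) (hW : ∀ t ∈ Ico 0 T, u t ∈ W)
    (hz0 : ∀ v ∈ W, ∀ x ∉ Ω, v x = 0)
    (he : ∀ t ∈ Ioo 0 T, ∀ v ∈ W, ∫ x, ∑ i, Run7.h407.residual ν u t x i * v x i = 0)
    {S : ℝ} {w : ℝ → E3 → E3} {G : ℝ → E3 → Fin 3 → Fin 3 → ℝ} {w' : ℝ → E3 → E3}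
    (h : IsStrong Ω W ν S (u 0) w G w') {t1 : ℝ} (h1S : t1 < S) (h1T : t1 < T) :
    ∀ᵐ t ∂(volume.restrict (Ioo 0 t1)), ∀ᵐ x ∂(volume.restrict Ω), ∀ i, w t x i = u t x i := by
  have hfin := fin_restrict hb
  obtain ⟨S', hS1, hS2⟩ := exists_between (lt_min h1S h1T)
  have hSS : S' < S := hS2.trans_le (min_le_left _ _)
  have hST : S' < T := hS2.trans_le (min_le_right _ _)
  obtain ⟨C, hC⟩ := h.bound
  set f : Fin 3 → ℝ × E3 → ℝ := fun i z => w' z.1 z.2 i - Dt u z.1 z.2 i with hf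
  have hfm : ∀ i, MemLp (f i) 2 ((volume.restrict (Ioo 0 S')).prod (volume.restrict Ω)) :=
    fun i => diff_memLp hb hΩ F hSS.le hST h.meas (by
      filter_upwards [hC] with t ht
      exact ⟨ht.1, ht.2.2⟩) i
  obtain ⟨M, hM0, hM⟩ := F.bd hST
  have sub1 : Ioo 0 S' ⊆ Ioo 0 S := Ioo_subset_Ioo_right hSS.le
  have sub2 : Ioo 0 t1 ⊆ Ioo 0 S' := Ioo_subset_Ioo_right hS1.le
  -- the primitive
  have hint : ∀ᵐ x ∂(volume.restrict Ω), ∀ i,
      Integrable (fun s => f i (s, x)) (volume.restrict (Ioo 0 S')) := by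
    rw [ae_all_iff]
    intro i
    filter_upwards [slices (hfm i)] with x hx
    exact hx.1
  have hprim : ∀ᵐ t ∂(volume.restrict (Ioo 0 S')), ∀ᵐ x ∂(volume.restrict Ω), ∀ i,
      prim (f i) (t, x) = w t x i - u t x i := by
    filter_upwards [ae_restrict_of_ae_restrict_of_subset sub1 h.ftc,
      ae_restrict_mem measurableSet_Ioo] with t ht htm
    filter_upwards [ht, hint] with x hx hxi i
    have hT' : t ∈ Ico 0 T := ⟨htm.1.le, htm.2.trans hST⟩
    obtain ⟨k1, k2⟩ := F.ftc hT' x i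
    have k3 : IntervalIntegrable (fun s => f i (s, x)) volume 0 t := by
      rw [intervalIntegrable_iff_integrableOn_Ioc_of_le htm.1.le]
      exact IntegrableOn.mono_set (hxi i) fun r hr => ⟨hr.1, lt_of_le_of_lt hr.2 htm.2⟩
    have k4 : ∫ s in (0 : ℝ)..t, w' s x i
        = (∫ s in (0 : ℝ)..t, f i (s, x)) + ∫ s in (0 : ℝ)..t, Dt u s x i := by
      rw [← intervalIntegral.integral_add k3 k1]
      congr 1
      funext s
      simp [hf]
    show (∫ s in (0 : ℝ)..t, f i (s, x)) = _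
    rw [hx i, k2, k4]
    ring
  have key : ∀ᵐ s ∂(volume.restrict (Ioo 0 t1)),
      ∫ x, ∑ i, f i (s, x) * prim (f i) (s, x) ∂(volume.restrict Ω)
      ≤ 3 * M * ∫ x, ∑ i, prim (f i) (s, x) ^ 2 ∂(volume.restrict Ω) := by
    have sub3 : Ioo 0 t1 ⊆ Ioo 0 S := sub2.trans sub1
    filter_upwards [ae_restrict_of_ae_restrict_of_subset sub2 hprim,
      ae_restrict_of_ae_restrict_of_subset sub3 h.mem,
      ae_restrict_of_ae_restrict_of_subset sub3 h.eqn,
      ae_restrict_of_ae_restrict_of_subset sub3 hC, ae_restrict_mem measurableSet_Ioo]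
      with s hs1 hs2 hs3 hs4 hsm
    have hsT : s ∈ Ioo 0 T := ⟨hsm.1, hsm.2.trans h1T⟩
    have hsT' : s ∈ Ico 0 T := ⟨hsT.1.le, hsT.2⟩
    have hu := (F.test s hsT').inV
    have hz := hs2.2.sub hu
    have hzW : (fun x => w s x - u s x) ∈ W := W.sub_mem hs2.1 (hW s hsT')
    have ew := hs3 _ hzW _ hz
    have eu := F.eqn hsT hz (hz0 _ hzW) (he s hsT _ hzW)
    have hp := pt_est (M := M) hb hν.le hs2.2 hu hs4.1 (fun i => F.Dt_memLp hsT i 2)
      (hM s hsT (hsm.2.trans hS1).le).1 ew eu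
    have e1 : ∫ x in Ω, ∑ i, f i (s, x) * prim (f i) (s, x)
        = ∫ x in Ω, ∑ i, (w' s x i - Dt u s x i) * (w s x i - u s x i) := by
      apply integral_congr_ae
      filter_upwards [hs1] with x hx
      apply Finset.sum_congr rfl
      intro i _
      rw [hx i]
    have e2 : ∫ x in Ω, ∑ i, prim (f i) (s, x) ^ 2
        = ∫ x in Ω, ∑ i, (w s x i - u s x i) ^ 2 := by
      apply integral_congr_ae
      filter_upwards [hs1] with x hx
      apply Finset.sum_congr rfl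
      intro i _
      rw [hx i]
    rw [e1, e2]
    exact hp
  have hg := gron hfm (L := 3 * M) (by positivity) hS1 key
  filter_upwards [ae_restrict_of_ae_restrict_of_subset sub2 hprim,
    ae_restrict_mem measurableSet_Ioo] with t ht htm
  filter_upwards [ht, hg t htm] with x hx hx' i
  have := hx i
  rw [hx' i] at this
  linarith

theorem uniq' (hb : Bornology.IsBounded Ω) (hΩ : MeasurableSet Ω) (F : Flow Ω T R u)
    {W : Submodule ℝ (E3 → E3)} {ν : ℝ} (hν : 0 < ν) (hW : ∀ t ∈ Ico 0 T, u t ∈ W)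
    (hz0 : ∀ v ∈ W, ∀ x ∉ Ω, v x = 0)
    (he : ∀ t ∈ Ioo 0 T, ∀ v ∈ W, ∫ x, ∑ i, Run7.h407.residual ν u t x i * v x i = 0)
    {S : ℝ} {w : ℝ → E3 → E3} {G : ℝ → E3 → Fin 3 → Fin 3 → ℝ} {w' : ℝ → E3 → E3}
    (h : IsStrong Ω W ν S (u 0) w G w') {m : ℝ} (h0 : 0 < m) (h1S : m ≤ S) (h1T : m ≤ T) :
    ∀ᵐ t ∂(volume.restrict (Ioo 0 m)), ∀ᵐ x ∂(volume.restrict Ω), w t x = u t x := by
  obtain ⟨a, _, ha2, ha3⟩ := exists_seq_strictMono_tendsto' h0
  have h1 : ∀ᵐ t ∂(volume.restrict (⋃ n, Ioo 0 (a n))),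
      ∀ᵐ x ∂(volume.restrict Ω), w t x = u t x := by
    rw [ae_restrict_iUnion_iff]
    intro n
    filter_upwards [uniq hb hΩ F hν hW hz0 he h ((ha2 n).2.trans_le h1S)
      ((ha2 n).2.trans_le h1T)] with t ht
    filter_upwards [ht] with x hx
    exact funext hx
  apply ae_restrict_of_ae_restrict_of_subset _ h1
  intro t ht
  obtain ⟨n, hn⟩ := (ha3.eventually (lt_mem_nhds ht.2)).exists
  exact mem_iUnion.2 ⟨n, ht.1, hn⟩

/-- No solution lives up to the blow-up time. -/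
theorem short (hb : Bornology.IsBounded Ω) (hΩ : MeasurableSet Ω) (F : Flow Ω T R u)
    (hT : 0 < T) (hL3 : Tendsto (fun t => ∫ x, ‖u t x‖ ^ 3) (𝓝[<] T) atTop)
    {W : Submodule ℝ (E3 → E3)} {ν : ℝ} (hν : 0 < ν) (hW : ∀ t ∈ Ico 0 T, u t ∈ W)
    (hz0 : ∀ v ∈ W, ∀ x ∉ Ω, v x = 0)
    (he : ∀ t ∈ Ioo 0 T, ∀ v ∈ W, ∫ x, ∑ i, Run7.h407.residual ν u t x i * v x i = 0)
    {S : ℝ} {w : ℝ → E3 → E3} {G : ℝ → E3 → Fin 3 → Fin 3 → ℝ} {w' : ℝ → E3 → E3}
    (h : IsStrong Ω W ν S (u 0) w G w') : S < T := by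
  by_contra hcon
  push Not at hcon
  have hun := uniq' hb hΩ F hν hW hz0 he h hT hcon le_rfl
  obtain ⟨C, hC⟩ := h.bound
  obtain ⟨B, hB⟩ := pt_four hb hν (C := max C 0) (le_max_right _ _)
  have sub : Ioo 0 T ⊆ Ioo 0 S := Ioo_subset_Ioo_right hcon
  have hae : ∀ᵐ t ∂(volume.restrict (Ioo 0 T)), ∫ x, ‖u t x‖ ^ 3 ≤ B := by
    filter_upwards [hun, ae_restrict_of_ae_restrict_of_subset sub h.mem,
      ae_restrict_of_ae_restrict_of_subset sub h.eqn,
      ae_restrict_of_ae_restrict_of_subset sub hC, ae_restrict_mem measurableSet_Ioo]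
      with t h1 h2 h3 h4 htm
    have e1 : ∫ x, ‖u t x‖ ^ 3 = ∫ x in Ω, ‖w t x‖ ^ 3 := by
      rw [← setIntegral_eq_integral_of_forall_compl_eq_zero (s := Ω)]
      · apply integral_congr_ae
        filter_upwards [h1] with x hx
        rw [hx]
      · intro x hx
        rw [(F.test t ⟨htm.1.le, htm.2⟩).zero_out hx]
        simp
    rw [e1]
    exact hB h2.2 h4.1 (h4.2.1.trans (le_max_left _ _)) (h4.2.2.trans (le_max_left _ _))
      (h3 _ h2.1 _ h2.2)
  obtain ⟨s, hsT, hs⟩ := (mem_nhdsLT_iff_exists_Ioo_subset).1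
    (hL3.eventually (eventually_gt_atTop B))
  have hm : max 0 s < T := max_lt hT hsT
  have hpos : 0 < volume.restrict (Ioo 0 T) (Ioo (max 0 s) T) := by
    rw [Measure.restrict_apply measurableSet_Ioo,
      inter_eq_self_of_subset_left (Ioo_subset_Ioo_left (le_max_left _ _)), Real.volume_Ioo]
    simpa using hm
  have hnull : volume.restrict (Ioo 0 T) (Ioo (max 0 s) T) = 0 := by
    refine measure_mono_null ?_ (ae_iff.1 hae)
    intro t ht
    have : B < ∫ x, ‖u t x‖ ^ 3 := hs ⟨(le_max_right _ _).trans_lt ht.1, ht.2⟩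
    exact not_le.2 this
  exact hpos.ne' hnull

/-- The smooth flow is a solution in the sense of `IsStrong`. -/
theorem Flow.strong (hb : Bornology.IsBounded Ω) (hΩ : MeasurableSet Ω) (F : Flow Ω T R u)
    {W : Submodule ℝ (E3 → E3)} {ν : ℝ} (hW : ∀ t ∈ Ico 0 T, u t ∈ W)
    (hz0 : ∀ v ∈ W, ∀ x ∉ Ω, v x = 0)
    (he : ∀ t ∈ Ioo 0 T, ∀ v ∈ W, ∫ x, ∑ i, Run7.h407.residual ν u t x i * v x i = 0)
    {S : ℝ} (hS : S < T) {B : ℝ} (hB : ∀ t ∈ Icc 0 S, ∀ x, ‖u t x‖ ≤ B) :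
    IsStrong Ω W ν S (u 0) u (fun t => grad (u t)) (Dt u) where
  meas := fun i => F.Dt_meas hS.le hΩ i
  mem := by
    filter_upwards [ae_restrict_mem measurableSet_Ioo] with t ht
    have ht' : t ∈ Ico 0 T := ⟨ht.1.le, ht.2.trans hS⟩
    exact ⟨hW t ht', (F.test t ht').inV⟩
  bound := by
    have hfin := fin_restrict hb
    obtain ⟨M, hM0, hM⟩ := F.bd hS
    refine ⟨max (∑ i : Fin 3, B ^ 2 * (volume.restrict Ω).real univ)
      (∑ i : Fin 3, M ^ 2 * (volume.restrict Ω).real univ), ?_⟩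
    filter_upwards [ae_restrict_mem measurableSet_Ioo] with t ht
    have ht' : t ∈ Ico 0 T := ⟨ht.1.le, ht.2.trans hS⟩
    have ht'' : t ∈ Ioo 0 T := ⟨ht.1, ht.2.trans hS⟩
    refine ⟨fun i => F.Dt_memLp ht'' i 2, le_trans ?_ (le_max_left _ _),
      le_trans ?_ (le_max_right _ _)⟩
    · rw [integral_finsetSum _ fun i _ => ((F.test t ht').memLp i 2).integrable_sq]
      apply Finset.sum_le_sum
      intro i _
      calc ∫ x in Ω, u t x i ^ 2 ≤ ∫ _ in Ω, B ^ 2 := by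
            apply integral_mono ((F.test t ht').memLp i 2).integrable_sq (integrable_const _)
            intro x
            have h1 : |u t x i| ≤ B := (norm_le_pi_norm (u t x) i).trans
              (hB t ⟨ht.1.le, ht.2.le⟩ x)
            exact sq_le_sq' (neg_le_of_abs_le h1) (le_of_abs_le h1)
        _ = B ^ 2 * (volume.restrict Ω).real univ := by simp [mul_comm]
    · rw [integral_finsetSum _ fun i _ => (F.Dt_memLp ht'' i 2).integrable_sq]
      apply Finset.sum_le_sum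
      intro i _
      calc ∫ x in Ω, Dt u t x i ^ 2 ≤ ∫ _ in Ω, M ^ 2 := by
            apply integral_mono (F.Dt_memLp ht'' i 2).integrable_sq (integrable_const _)
            intro x
            have h1 : |Dt u t x i| ≤ M := (hM t ht'' ht.2.le).2 x i
            exact sq_le_sq' (neg_le_of_abs_le h1) (le_of_abs_le h1)
        _ = M ^ 2 * (volume.restrict Ω).real univ := by simp [mul_comm]
  ftc := by
    filter_upwards [ae_restrict_mem measurableSet_Ioo] with t ht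
    exact Eventually.of_forall fun x i => (F.ftc ⟨ht.1.le, ht.2.trans hS⟩ x i).2
  eqn := by
    filter_upwards [ae_restrict_mem measurableSet_Ioo] with t ht v hv D hD
    exact F.eqn ⟨ht.1, ht.2.trans hS⟩ hD (hz0 v hv) (he t ⟨ht.1, ht.2.trans hS⟩ v hv)

end Pool.Agent.Run7.h980.DW
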