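import Mathlib
import Pool.Agent.Run7.h407.D.Fin

/-!
The construction of helper407 (blow-up from every datum) with supports: the source fields are
supported in the support of the datum. The proofs are those of `Run7/h407/D`, with the supports
recorded.
-/

namespace Pool.Agent.Run7.h407.G.X.L980

open Set Filter Topology MeasureTheory
open scoped ContDiff


variable {U : V → V}

/-- The fields of `D0` which are supported in the support of `U`. -/
noncomputable def D1 (U : V → V) : Submodule ℝ (V → V) where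
  carrier := {v | v ∈ D0 ∧ ∀ x, v x ≠ 0 → x ∈ tsupport U}
  add_mem' := fun {u v} hu hv => ⟨D0.add_mem hu.1 hv.1, fun x hx => by
    by_contra hcon
    apply hx
    have h1 : u x = 0 := by
      by_contra h
      exact hcon (hu.2 x h)
    have h2 : v x = 0 := by
      by_contra h
      exact hcon (hv.2 x h)
    show u x + v x = 0
    rw [h1, h2, add_zero]⟩
  zero_mem' := ⟨D0.zero_mem, fun x hx => absurd rfl hx⟩
  smul_mem' := fun c u hu => ⟨D0.smul_mem c hu.1, fun x hx => hu.2 x (by
    intro h
    apply hx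
    show c • u x = 0
    rw [h, smul_zero])⟩

theorem D1_le : D1 U ≤ D0 := fun _ h => h.1

theorem alt1 (hU : CF U) : (∃ φ ∈ D1 U, ip U φ = 0 ∧ Dir U φ = 0 ∧ tri U U φ ≠ 0) ∨
    ∃ α β : ℝ, ∀ φ ∈ D1 U, tri U U φ = α * ip U φ + β * Dir U φ := by
  by_cases h : ∃ φ ∈ D1 U, ip U φ = 0 ∧ Dir U φ = 0 ∧ tri U U φ ≠ 0
  · exact Or.inl h
  · right
    push Not at h
    have h1 : ⨅ i, LinearMap.ker ((![(rst (lin_ip hU)).comp (Submodule.inclusion D1_le),
        (rst (lin_Dir hU)).comp (Submodule.inclusion D1_le)] :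
        Fin 2 → (D1 U →ₗ[ℝ] ℝ)) i)
        ≤ LinearMap.ker ((rst (lin_tri hU)).comp (Submodule.inclusion D1_le)) := by
      intro v hv
      rw [Submodule.mem_iInf] at hv
      have a1 := hv 0
      have a2 := hv 1
      rw [LinearMap.mem_ker] at a1 a2 ⊢
      exact h v v.2 a1 a2
    have h2 := mem_span_of_iInf_ker_le_ker h1
    rw [Submodule.mem_span_range_iff_exists_fun] at h2
    obtain ⟨c, hc⟩ := h2
    refine ⟨c 0, c 1, fun φ hφ => ?_⟩
    have h3 := congrArg (fun f => f ⟨φ, hφ⟩) hc
    simp only [Fin.sum_univ_two] at h3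
    exact h3.symm

theorem lap_ev_zero {F : V → V} {x : V} (h : ∀ᶠ y in 𝓝 x, F y = 0) : lap F x = 0 := by
  have h1 : ∀ i j, (pd j (fun y => F y i)) =ᶠ[𝓝 x] fun _ => (0 : ℝ) := by
    intro i j
    filter_upwards [h.eventually_nhds] with y hy
    exact pd_ev_zero hy i j
  funext i
  show ∑ j, pd j (pd j (fun y => F y i)) x = 0
  apply Finset.sum_eq_zero
  intro j _
  rw [pd_congr (h1 i j), pd_const]

theorem exists_phi1 (hU : CF U) (hd : ∀ x, dvg U x = 0) (hn : 0 < ip U U) (ha : Aw0 U)
    (hns : ∃ i x, om i (adv U U) x ≠ 0) :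
    ∃ φ, CF φ ∧ (∀ x, dvg φ x = 0) ∧ Aw0 φ ∧ ip U φ = 0 ∧ Dir U φ = 0 ∧ tri U U φ = -1 ∧
      ∀ x, φ x ≠ 0 → x ∈ tsupport U := by
  rcases alt1 hU with ⟨φ, ⟨⟨h1, h2, h3⟩, h7⟩, h4, h5, h6⟩ | ⟨α, β, h⟩
  · refine ⟨fun x => (-(tri U U φ)⁻¹) • φ x, h1.smul _, fun x => ?_, h3.smul _, ?_, ?_, ?_, ?_⟩
    · rw [dvg_smul _ h1, h2, mul_zero]
    · have := (lin_ip hU).smul (-(tri U U φ)⁻¹) φ h1
      exact this.trans (by rw [h4, mul_zero])
    · have := (lin_Dir hU).smul (-(tri U U φ)⁻¹) φ h1
      exact this.trans (by rw [h5, mul_zero])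
    · rw [tri_smul_right]
      field_simp
    · intro x hx
      apply h7 x
      intro h0
      apply hx
      show (-(tri U U φ)⁻¹) • φ x = 0
      rw [h0, smul_zero]
  exfalso
  have cA := adv_CF hU hU
  have cL := lap_CF hU
  have aA : Aw0 (adv U U) := ha.adv _
  have aL : Aw0 (lap U) := ha.lap
  set G : Fin 3 → V → ℝ := fun i x => om i (adv U U) x - α * om i U x + β * om i (lap U) x
    with hG
  have sG : ∀ i, Sm (G i) := fun i =>
    ((om_sm cA i).sub (contDiff_const.mul (om_sm hU i))).add (contDiff_const.mul (om_sm cL i))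
  have cG : ∀ i, HasCompactSupport (G i) := fun i =>
    ((om_cs cA i).sub (om_cs hU i).mul_left).add (om_cs cL i).mul_left
  have omz : ∀ {F : V → V}, Aw0 F → ∃ a > 0, ∀ i x, ‖x‖ < a → om i F x = 0 := by
    rintro F ⟨a, ha, hF⟩
    refine ⟨a, ha, fun i x hx => ?_⟩
    have hz : ∀ᶠ y in 𝓝 x, F y = 0 := by
      filter_upwards [nhds_ltn hx] with y hy
      exact hF y hy
    unfold om
    rw [pd_ev_zero hz, pd_ev_zero hz, sub_zero]
  have aG : ∃ a > 0, ∀ i x, ‖x‖ < a → G i x = 0 := by
    obtain ⟨a1, p1, z1⟩ := omz aA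
    obtain ⟨a2, p2, z2⟩ := omz ha
    obtain ⟨a3, p3, z3⟩ := omz aL
    refine ⟨min a1 (min a2 a3), lt_min p1 (lt_min p2 p3), fun i x hx => ?_⟩
    rw [hG]
    simp only
    rw [z1 i x (hx.trans_le (min_le_left _ _)),
      z2 i x (hx.trans_le ((min_le_right _ _).trans (min_le_left _ _))),
      z3 i x (hx.trans_le ((min_le_right _ _).trans (min_le_right _ _)))]
    ring
  have hGz : ∀ i x, G i x = 0 := by
    intro i
    obtain ⟨a, ap, az⟩ := aG
    have hmem : Cu i (G i) ∈ D1 U := by
      refine ⟨⟨Cu_CF (sG i) (cG i) i, Cu_dvg (sG i) i, a, ap, fun x hx => ?_⟩, fun x hx => ?_⟩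
      · by_contra hcon
        have h1 := Cu_supp hcon
        have h2 : x ∉ tsupport (G i) := by
          rw [notMem_tsupport_iff_eventuallyEq]
          filter_upwards [nhds_ltn hx] with y hy
          exact az i y hy
        exact h2 h1
      · have h1 := Cu_supp hx
        by_contra hcon
        have h2 : x ∉ tsupport (G i) := by
          rw [notMem_tsupport_iff_eventuallyEq] at hcon ⊢
          filter_upwards [hcon.eventually_nhds] with y hy
          show om i (adv U U) y - α * om i U y + β * om i (lap U) y = 0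
          have hy' : ∀ᶠ z in 𝓝 y, U z = 0 := hy
          have k1 : ∀ᶠ z in 𝓝 y, adv U U z = 0 := by
            filter_upwards [hy'.eventually_nhds] with z hz
            exact adv_zero (Or.inl hz)
          have k2 : ∀ᶠ z in 𝓝 y, lap U z = 0 := by
            filter_upwards [hy'.eventually_nhds] with z hz
            exact lap_ev_zero hz
          have k3 : ∀ {F : V → V}, (∀ᶠ z in 𝓝 y, F z = 0) → om i F y = 0 := by
            intro F hF
            unfold om
            rw [pd_ev_zero hF, pd_ev_zero hF, sub_zero]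
          rw [k3 k1, k3 hy', k3 k2]
          ring
        exact h2 h1
    have h1 := h _ hmem
    have e1 : tri U U (Cu i (G i)) = -∫ x, G i x * om i (adv U U) x := by
      rw [← ip_adv]
      exact ip_Cu cA (sG i) (cG i) i
    have e2 : ip U (Cu i (G i)) = -∫ x, G i x * om i U x := ip_Cu hU (sG i) (cG i) i
    have e3 : Dir U (Cu i (G i)) = ∫ x, G i x * om i (lap U) x := by
      have h2 := ip_lap hU (Cu_CF (sG i) (cG i) i)
      rw [ip_Cu cL (sG i) (cG i) i] at h2
      linarith
    rw [e1, e2, e3] at h1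
    have i1 : Integrable (fun x => G i x * om i (adv U U) x) volume :=
      integrable_of_cs (sG i).continuous (cG i) (om_sm cA i).continuous
    have i2 : Integrable (fun x => G i x * om i U x) volume :=
      integrable_of_cs (sG i).continuous (cG i) (om_sm hU i).continuous
    have i3 : Integrable (fun x => G i x * om i (lap U) x) volume :=
      integrable_of_cs (sG i).continuous (cG i) (om_sm cL i).continuous
    have e4 : ∫ x, G i x ^ 2 = 1 * (∫ x, G i x * om i (adv U U) x)
        + (-α) * (∫ x, G i x * om i U x) + β * (∫ x, G i x * om i (lap U) x)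
        + 0 * ∫ x, G i x * om i U x := by
      rw [← Carl.lin4 _ _ _ _ i1 i2 i3 i2]
      congr 1
      funext x
      rw [hG]
      ring
    intro x
    apply Carl.eq_zero_of_sq (sG i) (cG i) _ x
    rw [e4]
    linarith
  by_cases hβ : β = 0
  · have h1 := h U ⟨⟨hU, hd, ha⟩, fun x hx => subset_tsupport U hx⟩
    rw [tri_self hU hd hU, hβ, zero_mul, add_zero] at h1
    have hα : α = 0 := by
      rcases mul_eq_zero.1 h1.symm with h2 | h2
      · exact h2
      · linarith
    obtain ⟨i, x, hx⟩ := hns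
    apply hx
    have h2 := hGz i x
    rw [hG] at h2
    simp only at h2
    rw [hα, hβ] at h2
    linarith
  · -- the case of a damped stationary viscous flow
    choose M0 m0 b0 using fun k : Fin 3 => cs_bound' (hU.smc k) (hU.csc k)
    choose M1 m1 b1 using fun (i j : Fin 3) =>
      cs_bound' ((hU.smc i).pd j) (pd_cs (hU.csc i) j)
    set A0 := ∑ k, M0 k with hA0
    set A1 := ∑ i, ∑ j, M1 i j with hA1
    have hA0' : ∀ k, M0 k ≤ A0 := fun k =>
      Finset.single_le_sum (f := M0) (fun k _ => m0 k) (Finset.mem_univ k)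
    have hA1' : ∀ i j, M1 i j ≤ A1 := by
      intro i j
      refine (Finset.single_le_sum (f := fun j => M1 i j) (fun j _ => m1 i j)
        (Finset.mem_univ j)).trans ?_
      exact Finset.single_le_sum (f := fun i => ∑ j, M1 i j)
        (fun i _ => Finset.sum_nonneg fun j _ => m1 i j) (Finset.mem_univ i)
    have hA1p : 0 ≤ A1 := (m1 0 0).trans (hA1' 0 0)
    have hβa : 0 < |β| := abs_pos.2 hβ
    have hA0p : 0 ≤ A0 := (m0 0).trans (hA0' 0)
    have key : ∀ i x, |Carl.Lp (om i U) x|
        ≤ (|α| + A0 + 6 * A1) / |β| * (∑ m, |om m U x| + ∑ m, ∑ k, |pd k (om m U) x|) := by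
      intro i x
      have h1 := hGz i x
      rw [hG] at h1
      simp only at h1
      rw [om_lap hU] at h1
      set S1 := ∑ m, |om m U x| with hS1
      set S2 := ∑ m, ∑ k, |pd k (om m U) x| with hS2
      have hS10 : 0 ≤ S1 := Finset.sum_nonneg fun m _ => abs_nonneg _
      have hS20 : 0 ≤ S2 := Finset.sum_nonneg fun m _ => Finset.sum_nonneg fun k _ => abs_nonneg _
      have hom : |om i U x| ≤ S1 :=
        Finset.single_le_sum (f := fun m => |om m U x|) (fun m _ => abs_nonneg _)
          (Finset.mem_univ i)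
      have hgr : ∑ k, |pd k (om i U) x| ≤ S2 :=
        Finset.single_le_sum (f := fun m => ∑ k, |pd k (om m U) x|)
          (fun m _ => Finset.sum_nonneg fun k _ => abs_nonneg _) (Finset.mem_univ i)
      have h2 : |om i (adv U U) x| ≤ A0 * S2 + 6 * A1 * S1 := by
        rw [om_adv hU]
        refine (abs_add_le _ _).trans (add_le_add ?_ ?_)
        · refine (Finset.abs_sum_le_sum_abs _ _).trans ?_
          have h3 : ∑ k, |U x k * pd k (om i U) x| ≤ ∑ k, A0 * |pd k (om i U) x| := by
            apply Finset.sum_le_sum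
            intro k _
            rw [abs_mul]
            exact mul_le_mul_of_nonneg_right ((b0 k x).trans (hA0' k)) (abs_nonneg _)
          rw [← Finset.mul_sum] at h3
          exact h3.trans (mul_le_mul_of_nonneg_left hgr hA0p)
        · refine (Finset.abs_sum_le_sum_abs _ _).trans ?_
          have h3 : ∑ j, |wg U (i + 1) j x * pd j (fun y => U y i) x
              - wg U i j x * pd j (fun y => U y (i + 1)) x| ≤ ∑ _j : Fin 3, 2 * (S1 * A1) := by
            apply Finset.sum_le_sum
            intro j _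
            refine (abs_sub _ _).trans ?_
            rw [abs_mul, abs_mul]
            have p1 := mul_le_mul (wg_le U (i + 1) j x) ((b1 i j x).trans (hA1' i j))
              (abs_nonneg _) hS10
            have p2 := mul_le_mul (wg_le U i j x) ((b1 (i + 1) j x).trans (hA1' (i + 1) j))
              (abs_nonneg _) hS10
            linarith
          simp only [Finset.sum_const, Finset.card_univ, Fintype.card_fin, nsmul_eq_mul,
            Nat.cast_ofNat] at h3
          linarith
      rw [div_mul_eq_mul_div, le_div_iff₀ hβa]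
      have h4 : |Carl.Lp (om i U) x| * |β| = |α * om i U x - om i (adv U U) x| := by
        rw [← abs_mul]
        congr 1
        linarith
      rw [h4]
      refine (abs_sub _ _).trans ?_
      rw [abs_mul]
      have h5 := mul_le_mul_of_nonneg_left hom (abs_nonneg α)
      have h6 : 0 ≤ |α| * S2 := mul_nonneg (abs_nonneg _) hS20
      have h7 : 0 ≤ A0 * S1 := mul_nonneg hA0p hS10
      have h8 : 0 ≤ 6 * A1 * S2 := by positivity
      nlinarith
    have h9 := Carl.uc (fun i => om i U) (fun i => om_sm hU i) (fun i => om_cs hU i) key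
    have h10 : ∀ x, U x = 0 := fun x => zero_of_om hU hd h9 x
    have h11 : ip U U = 0 := by
      unfold ip
      simp [h10]
    linarith

theorem exists_src1 (hU : CF U) (hd : ∀ x, dvg U x = 0) (ha : Aw0 U)
    (hns : ∃ i x, om i (adv U U) x ≠ 0) : ∃ (T0 φ : V → V) (l R1 : ℝ), Src U T0 φ l R1 ∧
      (∀ x, T0 x ≠ 0 → x ∈ tsupport U) ∧ ∀ x, φ x ≠ 0 → x ∈ tsupport U := by
  have hn := ip_pos_of_om hU hns
  obtain ⟨T0, t1, t2, t3, t4, t5, t6, t7⟩ := exists_T0 hU hd hn
  obtain ⟨φ, f1, f2, ⟨b, hb, f3⟩, f4, f5, f6, f7⟩ := exists_phi1 hU hd hn ha hns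
  obtain ⟨a, ha, hz⟩ := ha
  obtain ⟨r1, q1⟩ := bdd_of_cs hU.cs
  obtain ⟨r2, q2⟩ := bdd_of_cs t1.cs
  obtain ⟨r3, q3⟩ := bdd_of_cs f1.cs
  have hm : 0 < min a b := lt_min ha hb
  refine ⟨T0, φ, min a b, max (min a b) (max r1 (max r2 r3)),
    { l0 := hm, lR := le_max_left _ _, cu := hU, du := hd, ct := t1, dt := t2, cf := f1, df := f2,
      su := fun x hx => ⟨?_, ?_⟩, st := fun x hx => ⟨?_, ?_⟩, sf := fun x hx => ⟨?_, ?_⟩,
      n0 := hn, iut := t5, dut := t6, tut := t7, b0 := t4, iuf := f4, duf := f5, tuf := f6 }, t3, f7⟩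
  · by_contra hcon
    push Not at hcon
    exact hx (hz x (hcon.trans_le (min_le_left _ _)))
  · exact (q1 x hx).trans ((le_max_left _ _).trans (le_max_right _ _))
  · by_contra hcon
    push Not at hcon
    have h1 := t3 x hx
    have h2 : x ∉ tsupport U := by
      rw [notMem_tsupport_iff_eventuallyEq]
      filter_upwards [nhds_ltn (hcon.trans_le (min_le_left _ _))] with y hy
      exact hz y hy
    exact h2 h1
  · exact (q2 x hx).trans ((le_max_left _ _).trans ((le_max_right _ _).trans (le_max_right _ _)))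
  · by_contra hcon
    push Not at hcon
    exact hx (f3 x (hcon.trans_le (min_le_right _ _)))
  · exact (q3 x hx).trans ((le_max_right _ _).trans ((le_max_right _ _).trans (le_max_right _ _)))


end Pool.Agent.Run7.h407.G.X.L980
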