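import Mathlib
import Pool.Agent.Run7.h980.DW.Loc1

/-!
The choice of the parameters of helper407 with one more lower bound for the first scale. The proof
is that of `Run7/h407/D/Choice`.
-/

namespace Pool.Agent.Run7.h407.G.X.L980

open Set Filter Topology MeasureTheory
open scoped ContDiff

variable {U T0 φ : V → V} {l R1 : ℝ}

theorem exists_R1 {q : ℝ} (hq5 : q < 5 / 4) (S : Src U T0 φ l R1) {η : ℝ}
    (hη : 0 < η) (c0 : ℝ) : ∃ R : ℝ, ROk U T0 φ l q η R ∧ 17 / 4 / c0 ≤ R ^ 2 := by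
  have hl0 := S.l0
  have hb0 := S.b0
  obtain ⟨X, hX⟩ := (cnd_eventually (α := 4) (γ := q) (by norm_num)
    (by linarith)).exists_forall_of_atTop
  have hp : ∀ (k : ℕ), k ≠ 0 → ∀ c : ℝ, ∀ᶠ x : ℝ in atTop, c ≤ x ^ k := fun k hk c =>
    (tendsto_pow_atTop hk).eventually_ge_atTop _
  have E1 := hp 2 two_ne_zero ((17 / 4 + 1) / l)
  have E2a := (quad_tend (-tri T0 U T0) (-tri T0 U φ - tri φ U T0)
    (-tri φ U φ)).eventually_const_lt (show -tri T0 U T0 / 2 < -tri T0 U T0 by linarith)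
  have E2b := (quad_tend (-tri T0 U T0) (-tri T0 U φ - tri φ U T0)
    (-tri φ U φ)).eventually_lt_const (show -tri T0 U T0 < 2 * -tri T0 U T0 by linarith)
  have E3a := (quad_tend (ip T0 T0) (2 * ip T0 φ) (ip φ φ)).eventually_lt_const
    (show ip T0 T0 < ip T0 T0 + 1 by linarith)
  have E3b := (quad_tend (Dir T0 T0) (2 * Dir T0 φ) (Dir φ φ)).eventually_lt_const
    (show Dir T0 T0 < Dir T0 T0 + 1 by linarith)
  have E4 := hp 2 two_ne_zero (10000 * ((2 * -tri T0 U T0) ^ 2 * Nup ^ 2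
    / (ip U U * β0 * β0 ^ 2)))
  have E5 := hp 4 four_ne_zero (Dir U U / ip U U * (ip T0 T0 + 1 + Nup) / S0)
  have E6 := hp 4 four_ne_zero ((Dir T0 T0 + 1 + Dup) * Nup / (β0 * S0))
  have E7 : ∀ᶠ x : ℝ in atTop, 4 * ((2 * -tri T0 U T0) ^ 2 * Nup) / (β0 * β0) ≤ Real.exp x :=
    Real.tendsto_exp_atTop.eventually_ge_atTop _
  have E8 := (poly_exp (b := 0.7) (by norm_num) (4 * ((ip T0 T0 + 1 + Nup) * β0
    / ((-tri T0 U T0 / 2) ^ 2 * β0)))).eventually_le_const (show (0 : ℝ) < 1 / 100 by norm_num)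
  have E9 := (poly_exp (b := 3) (by norm_num) ((ip T0 T0 + 1 + Nup) * β0
    / ((-tri T0 U T0 / 2) ^ 2 * β0))).eventually_le_const
      (show (0 : ℝ) < 1 / 1000000 by norm_num)
  have E10 : ∀ᶠ x : ℝ in atTop, 16 ≤ x ^ η := (tendsto_rpow_atTop hη).eventually_ge_atTop _
  have E11 := hp 2 two_ne_zero ((2 : ℝ) ^ (q ^ 3))
  have E12 := hp 2 two_ne_zero (17 / 4 / (2 : ℝ) ^ (-(q ^ 2)))
  have E14 := hp 2 two_ne_zero (17 / 4 / c0)
  obtain ⟨R, ⟨⟨⟨⟨⟨⟨⟨⟨⟨⟨⟨⟨⟨⟨e1, e2a⟩, e2b⟩, e3a⟩, e3b⟩, e4⟩, e5⟩, e6⟩, e7⟩, e8⟩, e9⟩, e10⟩, e11⟩,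
    e12⟩, e14⟩, e13⟩ := (((((((((((((((E1.and E2a).and E2b).and E3a).and E3b).and E4).and E5).and
      E6).and E7).and E8).and E9).and E10).and E11).and E12).and E14).and
      (eventually_ge_atTop (max X 1000))).exists
  rw [← S.bT] at e2a e2b
  rw [← S.iT] at e3a
  rw [← S.DT] at e3b
  refine ⟨R, ⟨(le_max_right _ _).trans e13, fun x hx => hX x (((le_max_left _ _).trans
    e13).trans hx), ?_, e2a, e2b, e3a, e3b, e4, e5, e6, e7, e8, e9, e10, e11, e12⟩, e14⟩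
  rw [div_le_iff₀ hl0] at e1
  linarith


end Pool.Agent.Run7.h407.G.X.L980
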