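import Mathlib
import Pool.Agent.Run7.h980.DW.Loc2

/-!
The blow-up theorems of helper407 (`Run7/h407/D/{NSq,Choice,Fin}`) with supports: all modes and
constraint fields are supported in the union of the support of the datum and of a prescribed ball
around the blow-up point. The proofs are those of helper407, with the supports recorded.
-/

namespace Pool.Agent.Run7.h407.G.X.L980

open Set Filter Topology MeasureTheory
open scoped ContDiff

/-- The modes and the constraint fields vanish outside a set. -/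
structure Sup (K : V → Prop) (p : ℕ → V → V) (g : ℕ → Fin 3 → V → V) : Prop where
  mode : ∀ n x, ¬ K x → p n x = 0
  field : ∀ n i x, ¬ K x → g n i x = 0

theorem Sup.mono {K K' : V → Prop} {p : ℕ → V → V} {g : ℕ → Fin 3 → V → V} (h : Sup K p g)
    (hK : ∀ x, K x → K' x) : Sup K' p g :=
  ⟨fun n x hx => h.mode n x fun h' => hx (hK x h'), fun n i x hx =>
    h.field n i x fun h' => hx (hK x h')⟩

theorem Sup.tl {U : V → V} {r : ℝ} {z : V} {p : ℕ → V → V} {g : ℕ → Fin 3 → V → V}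
    (h : Sup (fun x => x ∈ tsupport (Tl (-z) U) ∨ ‖x‖ ≤ r) p g) :
    Sup (fun x => x ∈ tsupport U ∨ ‖x - z‖ ≤ r) (fun n => Tl z (p n))
      (fun n i => Tl z (g n i)) := by
  have hst : ∀ x, x ∉ tsupport U → x - z ∉ tsupport (Tl (-z) U) := by
    intro x hx
    rw [notMem_tsupport_iff_eventuallyEq] at hx ⊢
    have h1 : Tendsto (fun y : V => y - -z) (𝓝 (x - z)) (𝓝 (x - z - -z)) :=
      (continuous_id.sub continuous_const).tendsto _
    have e : x - z - -z = x := by abel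
    rw [e] at h1
    exact h1.eventually hx
  have key : ∀ x, ¬ (x ∈ tsupport U ∨ ‖x - z‖ ≤ r) →
      ¬ (x - z ∈ tsupport (Tl (-z) U) ∨ ‖x - z‖ ≤ r) := by
    intro x hx
    rw [not_or] at hx ⊢
    exact ⟨hst x hx.1, hx.2⟩
  exact ⟨fun n x hx => h.mode n _ (key x hx), fun n i x hx => h.field n i _ (key x hx)⟩

variable {U T : V → V} {l R1 : ℝ}

theorem P_small {c : Sc} {r : ℝ} (hr : 17 / 4 / c.σ 0 ^ 2 ≤ r) (n : ℕ) {x : V}
    (hx : r < ‖x‖) : c.P n x = 0 := by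
  by_contra hcon
  have h0 := c.σ_pos 0
  have h1 : c.σ 0 ^ 2 * ‖x‖ ≤ 17 / 4 := by
    match n with
    | 0 => exact absurd rfl hcon
    | 1 => exact (Sc.P1_supp hcon).2
    | n + 2 =>
      have h := (c.supp_ball hcon).trans (c.hi_le n)
      have h1 := c.σ_pos n
      have h2 : c.σ 0 ^ 2 ≤ c.σ n ^ 2 := pow_le_pow_left₀ h0.le (c.σ_mono (Nat.zero_le n)) 2
      rw [le_div_iff₀ (by positivity)] at h
      have h3 := norm_nonneg x
      nlinarith
  have h2 : ‖x‖ ≤ 17 / 4 / c.σ 0 ^ 2 := by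
    rw [le_div_iff₀ (by positivity)]
    linarith
  linarith

theorem Q_zero {s0 R q : ℝ} {h : Pre 4 q s0 R}
    (_hl : 17 / 4 < h.sc.σ 0 ^ 2 * l) {r : ℝ}
    (hTs : ∀ x, T x ≠ 0 → x ∈ tsupport U ∨ ‖x‖ ≤ r)
    (hr : 17 / 4 / s0 ^ 2 ≤ r) {x : V} (hx : x ∉ tsupport U) (hxr : r < ‖x‖) :
    ∀ᶠ y in 𝓝 x, ∀ n, h.sc.Q U T n y = 0 := by
  have hσ0 : h.sc.σ 0 = s0 := h.sc.σ_zero
  have hr' : 17 / 4 / h.sc.σ 0 ^ 2 ≤ r := by
    rw [hσ0]
    exact hr
  have h1 : ∀ᶠ y in 𝓝 x, y ∉ tsupport U :=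
    (isClosed_tsupport U).isOpen_compl.mem_nhds hx
  filter_upwards [h1, nhds_gtn hxr] with y hy hyr n
  have hT0 : T y = 0 := by
    by_contra hcon
    rcases hTs y hcon with h2 | h2
    · exact hy h2
    · exact absurd h2 (not_le.2 hyr)
  match n with
  | 0 => rfl
  | 1 => exact image_eq_zero_of_notMem_tsupport hy
  | 2 =>
    show T y + h.sc.P 1 y = 0
    rw [hT0, P_small hr' 1 hyr, add_zero]
  | n + 3 => exact P_small hr' (n + 2) hyr

theorem G3_zero {P : ℕ → V → V} {x : V} (h : ∀ᶠ y in 𝓝 x, ∀ n, P n y = 0) (n : ℕ) (i : Fin 3) :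
    G3 P n i x = 0 := by
  have h0 : ∀ k, ∀ᶠ y in 𝓝 x, P k y = 0 := fun k => h.mono fun y hy => hy k
  have h1 : ∀ k, P k x = 0 := fun k => (h0 k).self_of_nhds
  have a1 : ∀ k m, adv (P k) (P m) x = 0 := fun k m => adv_zero (Or.inl (h0 k))
  have a2 : ∀ k, lap (P k) x = 0 := fun k => lap_ev_zero (h0 k)
  fin_cases i
  · show GA P n x = 0
    simp [GA, a1, h1]
  · show GB P n x = 0
    simp [GB, a1, h1]
  · show GC P n x = 0
    simp [GC, a2, h1]

theorem mainQ1 {q s0 R L0 DT : ℝ} {h : Pre 4 q s0 R} (k0 : Lnk U T l R1 h L0 DT 0 1)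
    (hlR : l ≤ R1)
    (δ : ℝ) (hδ : 0 ≤ 1 + δ) (h16 : 16 ≤ R ^ (2 * (1 + δ) - q * (4 * q - 2)))
    (hs1 : 17 / 4 / s0 ^ 2 ≤ (2 : ℝ) ^ (-(q ^ 2))) (hR2 : (2 : ℝ) ^ (q ^ 3) ≤ R ^ 2)
    {r : ℝ} (hs2 : 17 / 4 / s0 ^ 2 ≤ r)
    (hTs : ∀ x, T x ≠ 0 → x ∈ tsupport U ∨ ‖x‖ ≤ r) :
    ∃ (p : ℕ → V → V) (g : ℕ → Fin 3 → V → V), Fam q 0 U p g ∧
      Sup (fun x => x ∈ tsupport U ∨ ‖x‖ ≤ r) p g ∧
      ∀ ν ≥ 0, ∀ a > 0,
        200 * kapG (h.sc.Q U T) 1 * (Dir U U / ip U U * L0) * ν ≤ a →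
        200 * kapG (h.sc.Q U T) 1 * (s0 ^ 4 * (DT + Dup) / β0) * ν ≤ a →
        Blo δ 0 R1 p g ν (fun x => a • U x) (9 * L0 * kapG (h.sc.Q U T) 1 / a) := by
  have hR := h.R_pos
  have hβ := β0_pos
  have hD := Dup_nonneg h.sc
  have hs0 := h.s0_pos
  have hL := k0.hL
  have hch := Sc.chnQ k0.hd k0.hl
  have hG : ∀ n i, L2F (G3 (h.sc.Q U T) n i) := fun n i => (ChN.G3_CF hch n i).l2
  have hsb : ∀ {n k : ℕ}, n ≤ k → Sb ((2 : ℝ) ^ (-(q ^ n))) (h.sc.P k) :=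
    fun hk => h.sb hs1 hR2 hk
  have hUU := k0.hd.n0
  have hDU := Dir_nonneg' U
  have hDT := k0.DT0
  set κ := kapG (h.sc.Q U T) 1 with hκdef
  have hκ : 0 < κ := k0.kap1_pos
  refine ⟨fun n => h.sc.Q U T (n + 1), G3 (h.sc.Q U T), ⟨rfl, fun n => ?_, fun m n hmn => ?_,
    fun n i => ?_, fun n i => ?_,
    ⟨WmaxG (G3 (h.sc.Q U T)) hG, ChN.WmaxG_isSp hch hG, fun w => Iff.rfl⟩⟩,
    ⟨fun n x hx => ?_, fun n i x hx => ?_⟩, ?_⟩
  · exact ⟨(hch.cf _).sm, (hch.cf _).cs, hch.dv _, hch.N0 n⟩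
  · exact hch.orth (by omega)
  · exact ⟨(ChN.G3_CF hch n i).sm, (ChN.G3_CF hch n i).cs, nhds0_of_aw (ChN.G3_aw hch n i)⟩
  · have : Sb ((2 : ℝ) ^ (-(q ^ (n + 2)))) (G3 h.sc.P (n + 2) i) := by
      fin_cases i
      · exact sb_A (hsb le_rfl) (hsb (by omega)) (hsb (by omega))
      · exact sb_B (hsb (by omega)) (hsb (by omega))
      · exact sb_C (hsb (by omega))
    intro x hx
    rw [sub_zero]
    exact this x hx
  · rw [not_or, not_le] at hx
    exact (Q_zero k0.hl hTs hs2 hx.1 hx.2).self_of_nhds (n + 1)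
  · rw [not_or, not_le] at hx
    exact G3_zero (Q_zero k0.hl hTs hs2 hx.1 hx.2) n i
  intro ν hν a ha hc1 hc2
  have hL0 : 0 < L0 := by linarith
  have ha0 : 0 < a / κ := by positivity
  have c4 : 200 * (ν * Dir U U / ip U U) * L0 ≤ a / κ := by
    rw [le_div_iff₀ hκ]
    refine le_trans (le_of_eq ?_) hc1
    ring
  have c5 : 200 * (ν * (h.sc.σ 0 ^ 4 * (DT + Dup)) / β0) ≤ a / κ := by
    rw [le_div_iff₀ hκ]
    refine le_trans (le_of_eq ?_) hc2
    rw [h.sc.σ_zero]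
    show 200 * (ν * (s0 ^ 4 * (DT + Dup)) / β0) * κ = _
    ring
  have c6 : ∀ k, 200 * (ν * (h.sc.σ (k + 1) ^ 4 * Dup) / β0)
      ≤ a / κ * ∏ i ∈ Finset.range (k + 1), rh R q i ^ (4 : ℝ) := by
    intro k
    have hpow : ∀ x : ℝ, x ^ (4 : ℝ) = x ^ (4 : ℕ) := fun x => by norm_cast
    have e1 : ∏ i ∈ Finset.range (k + 1), rh R q i ^ (4 : ℝ)
        = (∏ i ∈ Finset.range (k + 1), rh R q i) ^ 4 := by
      rw [← Finset.prod_pow]
      apply Finset.prod_congr rfl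
      intro i _
      exact hpow _
    have e2 : 200 * (ν * (h.sc.σ (k + 1) ^ 4 * Dup) / β0)
        = 200 * (ν * (Dup * s0 ^ 4 / β0)) * (∏ i ∈ Finset.range (k + 1), rh R q i) ^ 4 := by
      rw [h.σ_eq, mul_pow]
      ring
    have e3 : 200 * (ν * (Dup * s0 ^ 4 / β0)) ≤ a / κ := by
      rw [le_div_iff₀ hκ]
      refine le_trans ?_ hc2
      have e4 : 200 * (ν * (Dup * s0 ^ 4 / β0)) * κ = 200 * κ * (s0 ^ 4 * Dup / β0) * ν := by
        ring
      rw [e4]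
      apply mul_le_mul_of_nonneg_right _ hν
      apply mul_le_mul_of_nonneg_left _ (by positivity)
      apply div_le_div_of_nonneg_right _ hβ.le
      apply mul_le_mul_of_nonneg_left _ (by positivity)
      linarith
    rw [e1, e2]
    exact mul_le_mul_of_nonneg_right e3 (by positivity)
  have k := k0.change hν ha0 c4 c5 c6
  have hg := Sc.goodQ (c := h.sc) (h.sc.wgt h.stp) k.hd k.hl
  obtain ⟨Tb, A, S⟩ := exists_sol k.par k.e0
  have hinit : ∀ x, vel (h.sc.Q U T) (cofG (h.sc.Q U T) A) 0 x = a • U x := by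
    intro x
    rw [velG_init S x]
    show (κ * (a / κ)) • U x = a • U x
    congr 1
    field_simp
  have hq4 : 4 ≤ 4 * q := by linarith [h.hγ]
  have hcub := k.cubic hq4 S
  have hsp : ∀ t ∈ Ico 0 Tb, ∀ x : V, R1 < ‖x‖ →
      vel (h.sc.Q U T) (cofG (h.sc.Q U T) A) t x = 0 := fun t ht x hx =>
    mem_ball (Sc.Q_ball k.hd k.hl hlR) (hg.mem k.pw S ht) hx
  have hsup := sup_of_cubic S.Tpos hsp hcub
  refine ⟨Tb, S.Tpos, ?_, vel (h.sc.Q U T) (cofG (h.sc.Q U T) A), funext hinit,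
    fun t ht x hx => hsp t ht x (by rwa [sub_zero] at hx), ?_, hcub, hsup,
    fun W hW => ⟨hg.isProj k.fit k.pw S hW, fun T' w hw' h0 => ?_⟩⟩
  · refine S.Tle.trans ?_
    show 9 * L0 / (a / κ) ≤ 9 * L0 * κ / a
    apply le_of_eq
    field_simp
  · simp only [sub_zero]
    exact k.vel_bd S hδ h16
  · exact hg.max k.fit k.pw S hν hW hsup hw' fun x => by rw [h0, hinit]


variable {T0 φ : V → V}

/-- Blow-up from perturbed fields, at the origin. -/
theorem blow1 {V0 : V → V} (S : Src V0 T0 φ l R1) (δ q : ℝ) (hq : 1 < q) (hq1 : q < 5 / 4)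
    (hq2 : q ≤ 1 + δ / 4) {r : ℝ} (hr : 0 < r) : ∃ A₀ : ℝ, 0 < A₀ ∧ ∀ (U : V → V) (lU s b : ℝ),
      Prt U V0 T0 φ l R1 lU s b →
      (∀ x, T0 (s ^ 2 • x) ≠ 0 ∨ φ (s ^ 2 • x) ≠ 0 → x ∈ tsupport (P0 U V0 b s) ∨ ‖x‖ ≤ r) →
      ∃ (p : ℕ → V → V) (g : ℕ → Fin 3 → V → V) (ρ : ℝ),
        Fam q 0 (P0 U V0 b s) p g ∧ Sup (fun x => x ∈ tsupport (P0 U V0 b s) ∨ ‖x‖ ≤ r) p g ∧
        ∀ ν ≥ 0, ∀ a > 0, A₀ * ν ≤ a * b * s →
          Blo δ 0 ρ p g ν (fun x => a • P0 U V0 b s x) (A₀ / (a * b * s ^ 5)) := by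
  have hη : 0 < 2 * (1 + δ) - q * (4 * q - 2) := by nlinarith
  obtain ⟨R, hR, hRr⟩ := exists_R1 (q := q) hq1 S hη r
  have hβ := β0_pos
  have hb0 := S.b0
  have hN := S.n0
  have hDV := Dir_nonneg' V0
  have hRb := hR.big
  have hp1 := Prt.pre (s := 1) hR hq le_rfl
  have hDup := Dup_nonneg hp1.sc
  have hNup : 0 < Nup := hβ.trans_le ((hp1.sc.nn_low 0).trans (hp1.sc.nn_up 0))
  have hM1 : 0 < ip T0 T0 + 1 + Nup := by
    have := ip_nonneg T0
    linarith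
  have hM2 : 0 < Dir T0 T0 + 1 + Dup := by
    have := Dir_nonneg' T0
    linarith
  set K := 2 * (ip T0 T0 + 1 + Nup) / -tri T0 V0 T0 with hK
  have hKp : 0 < K := by positivity
  set B1 := 200 * K * (Dir V0 V0 / ip V0 V0 * R) with hB1
  set B2 := 200 * K * (R ^ 4 * (Dir T0 T0 + 1 + Dup) / β0) with hB2
  set B3 := 9 * R * K with hB3
  have p1 : 0 ≤ B1 := by positivity
  have p2 : 0 ≤ B2 := by positivity
  have p3 : 0 < B3 := by positivity
  refine ⟨B1 + B2 + B3, by positivity, fun U lU s b P hTs => ?_⟩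
  obtain ⟨RU, hRU⟩ : ∃ R, ∀ x, U x ≠ 0 → ‖x‖ ≤ R := by
    obtain ⟨R, hR⟩ := P.cu.cs.isCompact.isBounded.exists_norm_le
    exact ⟨R, fun x hx => hR x (subset_tsupport U hx)⟩
  obtain ⟨hL, hκ, hquo⟩ := P.lnk hR hq hRU
  have hs := P.s0
  have hb := P.b0
  have hs1 := P.s1
  have hs2 : 1 ≤ s ^ 2 := one_le_pow₀ hs1
  have hlR : l / s ^ 2 ≤ max R1 RU := by
    refine le_trans ?_ (le_max_left _ _)
    exact (div_le_self S.l0.le hs2).trans S.lR
  have hsup : 17 / 4 / (R * s) ^ 2 ≤ (2 : ℝ) ^ (-(q ^ 2)) := by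
    have h1 := hR.e12
    rw [div_le_iff₀ (by positivity)] at h1
    rw [div_le_iff₀ (by positivity)]
    have h2 : (0 : ℝ) < 2 ^ (-(q ^ 2)) := by positivity
    have h3 : R ^ 2 ≤ (R * s) ^ 2 := pow_le_pow_left₀ (by linarith) (by nlinarith) 2
    nlinarith
  have hsup2 : 17 / 4 / (R * s) ^ 2 ≤ r := by
    have h1 := hRr
    rw [div_le_iff₀ hr] at h1
    rw [div_le_iff₀ (by positivity)]
    have h3 : R ^ 2 ≤ (R * s) ^ 2 := pow_le_pow_left₀ (by linarith) (by nlinarith) 2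
    nlinarith
  have hTs' : ∀ x, dil s (Tc T0 φ (Real.exp (-(3 * R)))) x ≠ 0 →
      x ∈ tsupport (P0 U V0 b s) ∨ ‖x‖ ≤ r := by
    intro x hx
    apply hTs
    by_contra hcon
    rw [not_or, not_not, not_not] at hcon
    apply hx
    show s ^ 3 • (T0 (s ^ 2 • x) + Real.exp (-(3 * R)) • φ (s ^ 2 • x)) = 0
    rw [hcon.1, hcon.2, smul_zero, add_zero, smul_zero]
  obtain ⟨p, g, hF, hSup, H⟩ := mainQ1 hL hlR δ (by linarith) hR.e10 hsup hR.e11 hsup2 hTs'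
  refine ⟨p, g, max R1 RU, hF, hSup, fun ν hν a ha haν => ?_⟩
  have hκ0 := hL.kap1_pos
  set κ := kapG ((Prt.pre (s := s) hR hq P.s1).sc.Q (P0 U V0 b s)
      (dil s (Tc T0 φ (Real.exp (-(3 * R)))))) 1 with hκd
  have hκs : κ * (b * s ^ 5) ≤ K := by
    rw [le_div_iff₀ (by positivity)] at hκ
    exact hκ
  have q1 : 0 ≤ B1 * ν := by positivity
  have q2 : 0 ≤ B2 * ν := by positivity
  have q3 : 0 ≤ B3 * ν := by positivity
  have hsum : B1 * ν + B2 * ν + B3 * ν ≤ a * b * s := by linarith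
  have hbs : 0 < b * s := by positivity
  refine (H ν hν a ha ?_ ?_).mono ?_
  · have h1 : 200 * κ * (Dir (P0 U V0 b s) (P0 U V0 b s) / ip (P0 U V0 b s) (P0 U V0 b s) * R) * ν
        ≤ 200 * (K / (b * s ^ 5)) * (s ^ 4 * (Dir V0 V0 / ip V0 V0) * R) * ν := by
      apply mul_le_mul_of_nonneg_right _ hν
      apply mul_le_mul
      · exact mul_le_mul_of_nonneg_left hκ (by norm_num)
      · exact mul_le_mul_of_nonneg_right hquo (by linarith)
      · have h2 : 0 ≤ Dir (P0 U V0 b s) (P0 U V0 b s) := Dir_nonneg' _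
        have h3 : 0 ≤ ip (P0 U V0 b s) (P0 U V0 b s) := ip_nonneg _
        positivity
      · positivity
    refine h1.trans ?_
    have h4 : 200 * (K / (b * s ^ 5)) * (s ^ 4 * (Dir V0 V0 / ip V0 V0) * R) * ν
        = B1 * ν / (b * s) := by
      rw [hB1]
      field_simp
    rw [h4, div_le_iff₀ hbs]
    linarith
  · have h1 : 200 * κ * ((R * s) ^ 4 * (Dir (Tc T0 φ (Real.exp (-(3 * R))))
        (Tc T0 φ (Real.exp (-(3 * R)))) + Dup) / β0) * ν
        ≤ 200 * (K / (b * s ^ 5)) * ((R * s) ^ 4 * (Dir T0 T0 + 1 + Dup) / β0) * ν := by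
      apply mul_le_mul_of_nonneg_right _ hν
      have h2 := Dir_nonneg' (Tc T0 φ (Real.exp (-(3 * R))))
      apply mul_le_mul
      · exact mul_le_mul_of_nonneg_left hκ (by norm_num)
      · apply div_le_div_of_nonneg_right _ hβ.le
        apply mul_le_mul_of_nonneg_left _ (by positivity)
        linarith [hR.d1]
      · positivity
      · positivity
    refine h1.trans ?_
    have h4 : 200 * (K / (b * s ^ 5)) * ((R * s) ^ 4 * (Dir T0 T0 + 1 + Dup) / β0) * ν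
        = B2 * ν / (b * s) := by
      rw [hB2]
      field_simp
    rw [h4, div_le_iff₀ hbs]
    linarith
  · have h1 : 9 * R * κ / a ≤ B3 / (a * b * s ^ 5) := by
      rw [div_le_div_iff₀ ha (by positivity), hB3]
      have := mul_le_mul_of_nonneg_left hκs (by positivity : 0 ≤ 9 * R * a)
      calc 9 * R * κ * (a * b * s ^ 5) = 9 * R * a * (κ * (b * s ^ 5)) := by ring
        _ ≤ 9 * R * a * K := this
        _ = _ := by ring
    refine h1.trans ?_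
    apply div_le_div_of_nonneg_right _ (by positivity)
    linarith

/-- Every datum which is not a steady Euler flow. -/
theorem mainA1 (δ q : ℝ) (hq : 1 < q) (hq1 : q < 5 / 4) (hq2 : q ≤ 1 + δ / 4)
    (hU : CF U) (hd : ∀ x, dvg U x = 0) (hns : ∃ i x, om i (adv U U) x ≠ 0) {z : V}
    (hz : ∀ᶠ x in 𝓝 z, U x = 0) {r : ℝ} (hr : 0 < r) :
    ∃ (p : ℕ → V → V) (g : ℕ → Fin 3 → V → V) (ρ : ℝ), Fam q z U p g ∧
      Sup (fun x => x ∈ tsupport U ∨ ‖x - z‖ ≤ r) p g ∧ ∃ A₀ > 0, ∀ ν ≥ 0,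
      ∀ a > 0, A₀ * ν ≤ a → Blo δ z ρ p g ν (fun x => a • U x) (A₀ / a) := by
  have hU' : CF (Tl (-z) U) := ⟨sm_Tl _ hU.sm, cs_Tl _ hU.cs⟩
  have hd' : ∀ x, dvg (Tl (-z) U) x = 0 := fun x => by rw [dvg_Tl, hd]
  have ha' := Aw0_Tl hz
  have hns' : ∃ i x, om i (adv (Tl (-z) U) (Tl (-z) U)) x ≠ 0 := by
    obtain ⟨i, x, hx⟩ := hns
    refine ⟨i, x - z, ?_⟩
    rw [adv_Tl, om_Tl]
    have : x - z - -z = x := by abel
    rw [this]
    exact hx
  obtain ⟨T0, φ, l, R1, S, sT, sφ⟩ := exists_src1 hU' hd' ha' hns'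
  obtain ⟨A₀, hA, H⟩ := blow1 S δ q hq hq1 hq2 hr
  have hR1 : 0 < R1 := S.l0.trans_le S.lR
  have e0 : P0 (fun _ => 0) (Tl (-z) U) 1 1 = Tl (-z) U := by
    funext x
    show (0 : V) + (1 : ℝ) • dil 1 (Tl (-z) U) x = _
    rw [dil_one, one_smul, zero_add]
  have hP : Prt (fun _ => 0) (Tl (-z) U) T0 φ l R1 (R1 + 1) 1 1 :=
    { S := S
      cu := ⟨contDiff_const, HasCompactSupport.zero⟩
      du := fun x => Finset.sum_eq_zero fun i _ => pd_const _ _ _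
      zu := fun x _ => rfl
      s1 := le_rfl
      sR := by linarith
      b0 := one_pos
      hD := by
        have h1 : Dir (fun _ : V => (0 : V)) (fun _ => 0) = 0 := by
          apply Dir_zero_of
          intro x
          exact Or.inl (Eventually.of_forall fun _ => rfl)
        have h2 : ip (fun _ : V => (0 : V)) (fun _ => 0) = 0 := by
          apply ip_zero_of'
          intro x
          exact Or.inl rfl
        rw [h1, h2]
        simp }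
  obtain ⟨p, g, ρ, hF, hSup, hB⟩ := H _ _ _ _ hP (by
    intro x hx
    left
    rw [e0]
    rw [one_pow, one_smul] at hx
    rcases hx with hx | hx
    · exact sT x hx
    · exact sφ x hx)
  rw [e0] at hF hB hSup
  have e1 := Tl_inv z U
  have hF' := hF.tl (z := z)
  rw [e1] at hF'
  refine ⟨_, _, ρ, hF', hSup.tl, A₀, hA, fun ν hν a ha haν => ?_⟩
  have h1 := (hB ν hν a ha (by linarith)).tl (z := z)
  have e2 : Tl z (fun x => a • Tl (-z) U x) = fun x => a • U x := by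
    funext x
    show a • Tl (-z) U (x - z) = a • U x
    have := congrFun e1 x
    rw [← this]
    rfl
  rw [e2] at h1
  exact h1.mono (by rw [mul_one, one_pow, mul_one])

/-- Small localised perturbations of every datum, at every viscosity. -/
theorem mainB01 (δ q : ℝ) (hq : 1 < q) (hq1 : q < 5 / 4) (hq2 : q ≤ 1 + δ / 4)
    (hU : CF U) (hd : ∀ x, dvg U x = 0) (ha : Aw0 U) {r ε N : ℝ} (hr : 0 < r) (hr3 : r < 3)
    (hε : 0 < ε) : ∃ F : V → V, CF F ∧ (∀ x, dvg F x = 0) ∧ (∀ x, F x ≠ 0 → ‖x‖ ≤ ε) ∧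
      ∫ x, ‖F x‖ ^ r ≤ ε ∧ ∃ (p : ℕ → V → V) (g : ℕ → Fin 3 → V → V) (ρ : ℝ),
        Fam q 0 (fun x => U x + F x) p g ∧ Sup (fun x => x ∈ tsupport U ∨ ‖x‖ ≤ ε) p g ∧
        ∀ ν, 0 ≤ ν → ν ≤ N →
          Blo δ 0 ρ p g ν (fun x => U x + F x) ε := by
  obtain ⟨V0, T0, φ, l, R1, S, hDV⟩ := exists_src0
  obtain ⟨A₀, hA, H⟩ := blow1 S δ q hq hq1 hq2 hε
  obtain ⟨lU, hlU, hz⟩ := ha
  have hR1 : 0 < R1 := S.l0.trans_le S.lR
  obtain ⟨β, hβ1, hβ2⟩ : ∃ β : ℝ, β < 1 ∧ r * (3 - β) - 6 < 0 := by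
    refine ⟨(1 + (3 - 6 / r)) / 2, ?_, ?_⟩
    · have : 2 < 6 / r := by
        rw [lt_div_iff₀ hr]
        linarith
      linarith
    · have : r * (3 - (1 + (3 - 6 / r)) / 2) - 6 = r - 3 := by
        field_simp
        ring
      linarith
  have p2 : Tendsto (fun s : ℝ => s ^ 2) atTop atTop := tendsto_pow_atTop two_ne_zero
  have p4 : Tendsto (fun s : ℝ => s ^ 4) atTop atTop := tendsto_pow_atTop four_ne_zero
  have E1 : ∀ᶠ s : ℝ in atTop, R1 / lU < s ^ 2 := p2.eventually_gt_atTop _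
  have E2 : ∀ᶠ s : ℝ in atTop, R1 / ε ≤ s ^ 2 := p2.eventually_ge_atTop _
  have E3 : ∀ᶠ s : ℝ in atTop, Dir U U * ip V0 V0 / (Dir V0 V0 * ip U U) ≤ s ^ 4 :=
    p4.eventually_ge_atTop _
  have E4 : ∀ᶠ s : ℝ in atTop, A₀ * N ≤ s ^ (1 - β) :=
    (tendsto_rpow_atTop (by linarith)).eventually_ge_atTop _
  have E5 : ∀ᶠ s : ℝ in atTop, A₀ / ε ≤ s ^ (5 - β) :=
    (tendsto_rpow_atTop (by linarith)).eventually_ge_atTop _
  have E6 : ∀ᶠ s : ℝ in atTop, s ^ (r * (3 - β) - 6) * ∫ x, ‖V0 x‖ ^ r ≤ ε := by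
    have h1 : Tendsto (fun s : ℝ => s ^ (-(6 - r * (3 - β))) * ∫ x, ‖V0 x‖ ^ r) atTop
        (𝓝 (0 * ∫ x, ‖V0 x‖ ^ r)) :=
      (tendsto_rpow_neg_atTop (by linarith)).mul_const _
    rw [zero_mul, neg_sub] at h1
    exact h1.eventually_le_const hε
  obtain ⟨s, ⟨⟨⟨⟨⟨⟨e1, e2⟩, e3⟩, e4⟩, e5⟩, e6⟩, hs1⟩⟩ :=
    ((((((E1.and E2).and E3).and E4).and E5).and E6).and (eventually_ge_atTop 1)).exists
  have hs : 0 < s := by linarith
  have hb : 0 < s ^ (-β) := Real.rpow_pos_of_pos hs _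
  rw [div_lt_iff₀ hlU] at e1
  rw [div_le_iff₀ hε] at e2 e5
  have hP : Prt U V0 T0 φ l R1 lU s (s ^ (-β)) :=
    { S := S
      cu := hU
      du := hd
      zu := hz
      s1 := hs1
      sR := e1
      b0 := hb
      hD := by
        rcases (ip_nonneg U).lt_or_eq with h | h
        · rw [div_le_iff₀ (by positivity)] at e3
          linarith
        · have h1 : Dir U U = 0 := by
            apply Dir_zero_of
            intro x
            exact Or.inl (Eventually.of_forall fun y => zero_of_ip hU h.symm.le y)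
          rw [h1, ← h]
          simp }
  have small : ∀ {F : V → V}, (∀ x, F x ≠ 0 → ‖x‖ ≤ R1) → ∀ x, F (s ^ 2 • x) ≠ 0 →
      ‖x‖ ≤ ε := by
    intro F hF x hx
    have h4 := hF _ hx
    rw [norm_smul, Real.norm_eq_abs, abs_of_pos (by positivity)] at h4
    have h5 : 0 < s ^ 2 := by positivity
    nlinarith
  obtain ⟨p, g, ρ, hF, hSup, hB⟩ := H _ _ _ _ hP (by
    rintro x (hx | hx)
    · exact Or.inr (small (fun y hy => (S.st y hy).2) x hx)
    · exact Or.inr (small (fun y hy => (S.sf y hy).2) x hx))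
  have hSup' : Sup (fun x => x ∈ tsupport U ∨ ‖x‖ ≤ ε) p g := by
    apply hSup.mono
    rintro x (hx | hx)
    · by_contra hcon
      rw [not_or, not_le] at hcon
      have h1 : ∀ᶠ y in 𝓝 x, P0 U V0 (s ^ (-β)) s y = 0 := by
        filter_upwards [(isClosed_tsupport U).isOpen_compl.mem_nhds hcon.1, nhds_gtn hcon.2]
          with y hy1 hy2
        have k1 : U y = 0 := image_eq_zero_of_notMem_tsupport hy1
        have k2 : V0 (s ^ 2 • y) = 0 := by
          by_contra h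
          exact absurd (small (fun y hy => (S.su y hy).2) y h) (not_le.2 hy2)
        show U y + s ^ (-β) • (s ^ 3 • V0 (s ^ 2 • y)) = 0
        rw [k1, k2, smul_zero, smul_zero, add_zero]
      exact (notMem_tsupport_iff_eventuallyEq.2 h1) hx
    · exact Or.inr hx
  refine ⟨fun x => s ^ (-β) • dil s V0 x, hP.cV.smul _, fun x => ?_, fun x hx => ?_, ?_, p, g, ρ,
    hF, hSup', fun ν hν hνN => ?_⟩
  · rw [dvg_smul _ hP.cV, dvg_dil S.cu.smc, S.du, mul_zero, mul_zero]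
  · have h2 : V0 (s ^ 2 • x) ≠ 0 := by
      intro h3
      apply hx
      show s ^ (-β) • (s ^ 3 • V0 (s ^ 2 • x)) = 0
      rw [h3, smul_zero, smul_zero]
    have h4 := (S.su _ h2).2
    rw [norm_smul, Real.norm_eq_abs, abs_of_pos (by positivity)] at h4
    have h5 : 0 < s ^ 2 := by positivity
    nlinarith
  · rw [int_dil_rpow V0 hs hb]
    have e7 : (s ^ (-β) * s ^ 3) ^ r * (s ^ 6)⁻¹ = s ^ (r * (3 - β) - 6) := by
      have h3 : s ^ (3 : ℕ) = s ^ (3 : ℝ) := by norm_cast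
      have h6 : (s ^ (6 : ℕ))⁻¹ = s ^ (-6 : ℝ) := by
        rw [Real.rpow_neg hs.le]
        norm_cast
      rw [h3, h6, ← Real.rpow_add hs, ← Real.rpow_mul hs.le, ← Real.rpow_add hs]
      congr 1
      ring
    rw [e7]
    exact e6
  · have h1 : s ^ (-β) * s = s ^ (1 - β) := by
      have : s ^ (-β) * s = s ^ (-β) * s ^ (1 : ℝ) := by rw [Real.rpow_one]
      rw [this, ← Real.rpow_add hs]
      congr 1
      ring
    have h2 : s ^ (-β) * s ^ 5 = s ^ (5 - β) := by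
      have h5 : s ^ (5 : ℕ) = s ^ (5 : ℝ) := by norm_cast
      rw [h5, ← Real.rpow_add hs]
      congr 1
      ring
    have h3 := hB ν hν 1 one_pos (by
      rw [one_mul, h1]
      exact (mul_le_mul_of_nonneg_left hνN hA.le).trans e4)
    have e8 : (fun x => (1 : ℝ) • P0 U V0 (s ^ (-β)) s x)
        = fun x => U x + s ^ (-β) • dil s V0 x := by
      funext x
      rw [one_smul]
      rfl
    rw [e8] at h3
    refine h3.mono ?_
    rw [one_mul, h2, div_le_iff₀ (by positivity)]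
    linarith

/-- The same at every point off the support. -/
theorem mainB1 (δ q : ℝ) (hq : 1 < q) (hq1 : q < 5 / 4) (hq2 : q ≤ 1 + δ / 4)
    (hU : CF U) (hd : ∀ x, dvg U x = 0) {z : V} (hz : ∀ᶠ x in 𝓝 z, U x = 0) {r ε N : ℝ}
    (hr : 0 < r) (hr3 : r < 3)
    (hε : 0 < ε) : ∃ F : V → V, CF F ∧ (∀ x, dvg F x = 0) ∧ (∀ x, F x ≠ 0 → ‖x - z‖ ≤ ε) ∧
      ∫ x, ‖F x‖ ^ r ≤ ε ∧ ∃ (p : ℕ → V → V) (g : ℕ → Fin 3 → V → V) (ρ : ℝ),
        Fam q z (fun x => U x + F x) p g ∧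
        Sup (fun x => x ∈ tsupport U ∨ ‖x - z‖ ≤ ε) p g ∧ ∀ ν, 0 ≤ ν → ν ≤ N →
          Blo δ z ρ p g ν (fun x => U x + F x) ε := by
  have hU' : CF (Tl (-z) U) := ⟨sm_Tl _ hU.sm, cs_Tl _ hU.cs⟩
  have hd' : ∀ x, dvg (Tl (-z) U) x = 0 := fun x => by rw [dvg_Tl, hd]
  obtain ⟨F, f1, f2, f3, f4, p, g, ρ, hF, hSup, hB⟩ := mainB01 δ q hq hq1 hq2 hU' hd' (Aw0_Tl hz) (N := N)
    hr hr3 hε
  have e1 : Tl z (fun x => Tl (-z) U x + F x) = fun x => U x + Tl z F x := by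
    funext x
    show Tl (-z) U (x - z) + F (x - z) = U x + F (x - z)
    have := congrFun (Tl_inv z U) x
    rw [← this]
    rfl
  refine ⟨Tl z F, ⟨sm_Tl z f1.sm, cs_Tl z f1.cs⟩, fun x => by rw [dvg_Tl, f2],
    fun x hx => f3 _ hx, ?_, fun n => Tl z (p n), fun n i => Tl z (g n i), ρ, ?_,
    hSup.tl, fun ν h0 h1 => ?_⟩
  · exact (int_Tl z (fun x => ‖F x‖ ^ r)).le.trans f4
  · have := hF.tl (z := z)
    rw [e1] at this
    exact this
  · have := (hB ν h0 h1).tl (z := z)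
    rw [e1] at this
    exact this


end Pool.Agent.Run7.h407.G.X.L980
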