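import Mathlib
import Pool.Agent.Run7.h980.DW.Def2
import Pool.Agent.Run7.h980.DW.Core
import Pool.Agent.Run7.h980.DW.Loc3

/-!
The admissible spaces on an open set are admissible on the whole space.
-/

namespace Pool.Agent.Run7.h980.DW

open Set Filter Topology MeasureTheory
open scoped ContDiff
open Pool.Agent.Run7.h407 (ip Dir dvg pd CF WDF L2F)
open Pool.Agent.Run7.h407.G (IsSpG)

variable {Ω : Set E3} {p : ℕ → E3 → E3} {g : ℕ → Fin 3 → E3 → E3}

theorem InH.small {w : E3 → E3} (h : InH Ω w) {ε : ℝ} (hε : 0 < ε) : ∃ v, IsTest Ω v ∧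
    ∀ i, MemLp (fun x => w x i - v x i) 2 (volume.restrict Ω) ∧
      nrm (volume.restrict Ω) 2 (fun x => w x i - v x i) ≤ ε := by
  obtain ⟨v, hv, h1⟩ := h.approx (ε ^ 2) (by positivity)
  have m1 : ∀ i, MemLp (fun x => w x i - v x i) 2 (volume.restrict Ω) :=
    fun i => (h.memL2 i).sub (hv.memLp i 2)
  refine ⟨v, hv, fun i => ⟨m1 i, ?_⟩⟩
  apply nrm_le_of_int (m1 i) hε.le
  refine le_trans (integral_mono (m1 i).integrable_sq
    (integrable_finsetSum _ fun i _ => (m1 i).integrable_sq) fun x => ?_) h1.le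
  exact Finset.single_le_sum (f := fun i => (w x i - v x i) ^ 2) (fun i _ => sq_nonneg _)
    (Finset.mem_univ i)

/-- Extension of linear identities to `H`. -/
theorem InH.ext0 {w : E3 → E3} (h : InH Ω w) {a : E3 → Fin 3 → ℝ}
    (ha : ∀ i, MemLp (fun x => a x i) 2 (volume.restrict Ω))
    (ht : ∀ v, IsTest Ω v → ∫ x in Ω, ∑ i, v x i * a x i = 0) :
    ∫ x in Ω, ∑ i, w x i * a x i = 0 := by
  set M : ℝ := ∑ i, nrm (volume.restrict Ω) 2 (fun x => a x i) with hM
  have hM0 : 0 ≤ M := Finset.sum_nonneg fun i _ => nrm_nonneg _ _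
  apply abs_nonpos_iff.1
  apply le_of_forall_pos_le_add
  intro ε hε
  obtain ⟨v, hv, h1⟩ := h.small (ε := ε / (M + 1)) (by positivity)
  have k1 := fun i => hold2 (h.memL2 i) (ha i)
  have l1 := fun i => hold2 (hv.memLp i 2) (ha i)
  have n1 := fun i => hold2 (h1 i).1 (ha i)
  have e1 : ∫ x in Ω, ∑ i, w x i * a x i = ∑ i, ∫ x in Ω, (w x i - v x i) * a x i := by
    have h4 : ∫ x in Ω, ∑ i, w x i * a x i
        = ∫ x in Ω, ((∑ i, w x i * a x i) - ∑ i, v x i * a x i) := by
      rw [integral_sub (integrable_finsetSum _ fun i _ => (k1 i).1)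
        (integrable_finsetSum _ fun i _ => (l1 i).1), ht v hv, sub_zero]
    rw [h4]
    have h5 : ∀ x, (∑ i, w x i * a x i) - ∑ i, v x i * a x i
        = ∑ i, (w x i - v x i) * a x i := by
      intro x
      simp only [sub_mul, Finset.sum_sub_distrib]
    simp_rw [h5]
    rw [integral_finsetSum _ fun i _ => (n1 i).1]
  rw [e1]
  have hd : 0 < M + 1 := by linarith
  calc |∑ i, ∫ x in Ω, (w x i - v x i) * a x i|
      ≤ ∑ i, |∫ x in Ω, (w x i - v x i) * a x i| := Finset.abs_sum_le_sum_abs _ _
    _ ≤ ∑ i, ε / (M + 1) * nrm (volume.restrict Ω) 2 (fun x => a x i) :=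
        Finset.sum_le_sum fun i _ => (n1 i).2.trans
          (mul_le_mul_of_nonneg_right (h1 i).2 (nrm_nonneg _ _))
    _ = ε / (M + 1) * M := by rw [hM, Finset.mul_sum]
    _ ≤ 0 + ε := by
        rw [zero_add, div_mul_eq_mul_div, div_le_iff₀ hd]
        nlinarith

theorem IsTest.inH {v : E3 → E3} (h : IsTest Ω v) : InH Ω v where
  memL2 := fun i => h.memLp i 2
  approx := fun ε hε => ⟨v, h, by simpa using hε⟩

theorem IsTest.add {a b : E3 → E3} (ha : IsTest Ω a) (hb : IsTest Ω b) :
    IsTest Ω (fun y => a y + b y) where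
  smooth := (ha.cf.add hb.cf).sm
  compact := (ha.cf.add hb.cf).cs
  supp := Subset.trans (tsupport_add a b) (union_subset ha.supp hb.supp)
  div_free := fun x => by
    have h1 := ha.div_free x
    have h2 := hb.div_free x
    unfold divergence at h1 h2 ⊢
    have e : ∀ i, pderiv i (fun y => (a y + b y) i) x
        = pderiv i (fun y => a y i) x + pderiv i (fun y => b y i) x :=
      fun i => Run7.h407.pd_add ((ha.cf.smc i).diff x) ((hb.cf.smc i).diff x) i
    rw [Finset.sum_congr rfl fun i _ => e i, Finset.sum_add_distrib, h1, h2, add_zero]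

theorem IsTest.smul {a : E3 → E3} (ha : IsTest Ω a) (c : ℝ) : IsTest Ω (fun y => c • a y) where
  smooth := (ha.cf.smul c).sm
  compact := (ha.cf.smul c).cs
  supp := by
    refine Subset.trans (closure_mono ?_) ha.supp
    intro x hx hx'
    apply hx
    show c • a x = 0
    rw [hx', smul_zero]
  div_free := fun x => by
    have h1 := ha.div_free x
    unfold divergence at h1 ⊢
    have e : ∀ i, pderiv i (fun y => (c • a y) i) x = c * pderiv i (fun y => a y i) x :=
      fun i => Run7.h407.pd_const_mul c ((ha.cf.smc i).diff x) i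
    rw [Finset.sum_congr rfl fun i _ => e i, ← Finset.mul_sum, h1, mul_zero]

theorem InH.intro {w : E3 → E3} (hm : ∀ i, MemLp (fun x => w x i) 2 (volume.restrict Ω))
    (h : ∀ ε > 0, ∃ v, IsTest Ω v ∧
      ∀ i, nrm (volume.restrict Ω) 2 (fun x => w x i - v x i) ≤ ε) : InH Ω w := by
  refine ⟨hm, fun ε hε => ?_⟩
  obtain ⟨v, hv, h1⟩ := h (Real.sqrt (ε / 4)) (Real.sqrt_pos.2 (by positivity))
  refine ⟨v, hv, ?_⟩
  have m1 : ∀ i, MemLp (fun x => w x i - v x i) 2 (volume.restrict Ω) :=
    fun i => (hm i).sub (hv.memLp i 2)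
  rw [integral_finsetSum _ fun i _ => (m1 i).integrable_sq]
  have h2 : ∀ i, ∫ x in Ω, (w x i - v x i) ^ 2 ≤ ε / 4 := by
    intro i
    rw [← nrm_two_sq (m1 i)]
    calc nrm (volume.restrict Ω) 2 (fun x => w x i - v x i) ^ 2 ≤ Real.sqrt (ε / 4) ^ 2 :=
          pow_le_pow_left₀ (nrm_nonneg _ _) (h1 i) 2
      _ = ε / 4 := Real.sq_sqrt (by positivity)
  calc ∑ i, ∫ x in Ω, (w x i - v x i) ^ 2 ≤ ∑ _i : Fin 3, ε / 4 :=
        Finset.sum_le_sum fun i _ => h2 i
    _ < ε := by
        simp
        linarith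

theorem InH.add {a b : E3 → E3} (ha : InH Ω a) (hb : InH Ω b) :
    InH Ω (fun y => a y + b y) := by
  apply InH.intro (fun i => (ha.memL2 i).add (hb.memL2 i))
  intro ε hε
  obtain ⟨v1, hv1, h1⟩ := ha.small (ε := ε / 2) (by positivity)
  obtain ⟨v2, hv2, h2⟩ := hb.small (ε := ε / 2) (by positivity)
  refine ⟨fun y => v1 y + v2 y, hv1.add hv2, fun i => ?_⟩
  have e : (fun x => (a x + b x) i - (v1 x + v2 x) i)
      = fun x => (a x i - v1 x i) + (b x i - v2 x i) := by
    funext x
    simp only [Pi.add_apply]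
    ring
  show nrm (volume.restrict Ω) 2 (fun x => (a x + b x) i - (v1 x + v2 x) i) ≤ ε
  rw [e]
  refine (nrm_add (by norm_num) (h1 i).1 (h2 i).1).trans ?_
  linarith [(h1 i).2, (h2 i).2]

theorem InH.smul {a : E3 → E3} (ha : InH Ω a) (c : ℝ) : InH Ω (fun y => c • a y) := by
  apply InH.intro (fun i => (ha.memL2 i).const_mul c)
  intro ε hε
  obtain ⟨v1, hv1, h1⟩ := ha.small (ε := ε / (|c| + 1)) (by positivity)
  refine ⟨fun y => c • v1 y, hv1.smul c, fun i => ?_⟩
  have e : (fun x => (c • a x) i - (c • v1 x) i) = fun x => c * (a x i - v1 x i) := by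
    funext x
    simp only [Pi.smul_apply, smul_eq_mul]
    ring
  show nrm (volume.restrict Ω) 2 (fun x => (c • a x) i - (c • v1 x) i) ≤ ε
  rw [e]
  have e2 : nrm (volume.restrict Ω) 2 (fun x => c * (a x i - v1 x i))
      = |c| * nrm (volume.restrict Ω) 2 (fun x => a x i - v1 x i) := by
    unfold nrm
    have := eLpNorm_const_smul c (fun x => a x i - v1 x i) 2 (volume.restrict Ω)
    have e3 : (c • fun x => a x i - v1 x i) = fun x => c * (a x i - v1 x i) := by
      funext x
      rfl
    rw [e3] at this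
    rw [this, ENNReal.toReal_mul]
    congr 1
  rw [e2]
  have hd : 0 < |c| + 1 := by positivity
  calc |c| * nrm (volume.restrict Ω) 2 (fun x => a x i - v1 x i) ≤ |c| * (ε / (|c| + 1)) :=
        mul_le_mul_of_nonneg_left (h1 i).2 (abs_nonneg _)
    _ ≤ ε := by
        rw [mul_div_assoc', div_le_iff₀ hd]
        nlinarith [abs_nonneg c]

theorem l2_of {w : E3 → E3} (hΩ : MeasurableSet Ω) (hz : ∀ x, x ∉ Ω → w x = 0)
    (h : ∀ i, MemLp (fun x => w x i) 2 (volume.restrict Ω)) : L2F w := by
  intro i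
  have e : (fun x => w x i) = Ω.indicator (fun x => w x i) := by
    funext x
    by_cases hx : x ∈ Ω
    · rw [indicator_of_mem hx]
    · rw [indicator_of_notMem hx, hz x hx]
      rfl
  rw [e, memLp_indicator_iff_restrict hΩ]
  exact h i

theorem wdf_of {w : E3 → E3} (hz : ∀ x, x ∉ Ω → w x = 0) (h : InH Ω w) : WDF w := by
  intro φ hφ hc
  have h1 : ∫ x in Ω, ∑ i, w x i * pd i φ x = 0 := by
    apply h.ext0 (a := fun x i => pd i φ x)
    · intro i
      exact (memLp_cs (Run7.h407.Sm.pd hφ i).continuous (Run7.h407.pd_cs hc i) 2 volume).restrict Ω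
    · intro v hv
      have h2 := Run7.h407.wdf_of_dvg hv.smooth hv.div_free φ hφ hc
      rw [← h2]
      apply setIntegral_eq_integral_of_forall_compl_eq_zero
      intro x hx
      simp [hv.zero_out hx]
  rw [← h1]
  symm
  apply setIntegral_eq_integral_of_forall_compl_eq_zero
  intro x hx
  simp [hz x hx]

theorem tsupport_sub_of {K : Set E3} (hK : IsClosed K) {v : E3 → E3}
    (h : ∀ x, x ∉ K → v x = 0) : tsupport v ⊆ K := by
  apply closure_minimal _ hK
  intro x hx
  by_contra hcon
  exact hx (h x hcon)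

/-- Admissible spaces on `Ω` are admissible on `ℝ³`. -/
theorem IsSpace.isSpG {W : Submodule ℝ (E3 → E3)} (h : IsSpace Ω p g W)
    (hΩ : MeasurableSet Ω) {K : Set E3} (hK : IsClosed K) (hKΩ : K ⊆ Ω)
    (hp : ∀ n x, x ∉ K → p n x = 0) : IsSpG p g W where
  l2 := fun w hw => l2_of hΩ (h.upper w hw).zero (h.upper w hw).inH.memL2
  wdf := fun w hw => wdf_of (h.upper w hw).zero (h.upper w hw).inH
  cs := fun w hw n i => (h.upper w hw).orth n i
  mem := fun v hv hvc hs => by
    apply h.lower v hv hvc _ hs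
    obtain ⟨c, hc⟩ := hs
    refine (tsupport_sub_of hK fun x hx => ?_).trans hKΩ
    have h1 := hc x
    have h2 : (fun n => c n • p n x) = fun _ => 0 := by
      funext n
      rw [hp n x hx, smul_zero]
    rw [h2] at h1
    exact h1.unique hasSum_zero

/-- The largest space. -/
noncomputable def WmaxΩ (hΩ : MeasurableSet Ω) (hg : ∀ n i, CF (g n i)) :
    Submodule ℝ (E3 → E3) where
  carrier := {w | Constrained Ω g w}
  add_mem' := fun {u v} hu hv => ⟨fun x hx => by
      show u x + v x = 0
      rw [hu.zero x hx, hv.zero x hx, add_zero], hu.inH.add hv.inH, fun n i => by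
      have h1 := hu.orth n i
      have h2 := hv.orth n i
      have hu2 : L2F u := l2_of hΩ hu.zero hu.inH.memL2
      have hv2 : L2F v := l2_of hΩ hv.zero hv.inH.memL2
      have hg2 : L2F (g n i) := (hg n i).l2
      have i1 : Integrable (fun x => ∑ k, u x k * g n i x k) volume :=
        integrable_finsetSum _ fun k _ => (hold2 (hu2 k) (hg2 k)).1
      have i2 : Integrable (fun x => ∑ k, v x k * g n i x k) volume :=
        integrable_finsetSum _ fun k _ => (hold2 (hv2 k) (hg2 k)).1
      unfold innerL2 at h1 h2 ⊢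
      have e : ∀ x, ∑ k, (u + v) x k * g n i x k
          = ∑ k, u x k * g n i x k + ∑ k, v x k * g n i x k := by
        intro x
        rw [← Finset.sum_add_distrib]
        apply Finset.sum_congr rfl
        intro k _
        show (u x k + v x k) * _ = _
        ring
      simp_rw [e]
      rw [integral_add i1 i2, h1, h2, add_zero]⟩
  zero_mem' := ⟨fun _ _ => rfl, by
      apply InH.intro (fun i => MemLp.zero)
      intro ε hε
      refine ⟨fun _ => 0, ⟨contDiff_const, HasCompactSupport.zero, ?_, fun x => ?_⟩, fun i => ?_⟩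
      · have : tsupport (fun _ : E3 => (0 : E3)) = ∅ := by
          simp [tsupport]
        rw [this]
        exact empty_subset _
      · unfold divergence pderiv
        simp
      · unfold nrm
        simp
        exact hε.le, fun n i => by
      unfold innerL2
      simp⟩
  smul_mem' := fun c u hu => ⟨fun x hx => by
      show c • u x = 0
      rw [hu.zero x hx, smul_zero], hu.inH.smul c, fun n i => by
      have h1 := hu.orth n i
      unfold innerL2 at h1 ⊢
      have e : ∀ x, ∑ k, (c • u) x k * g n i x k = c * ∑ k, u x k * g n i x k := by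
        intro x
        rw [Finset.mul_sum]
        apply Finset.sum_congr rfl
        intro k _
        show (c * u x k) * _ = _
        ring
      simp_rw [e]
      rw [integral_const_mul, h1, mul_zero]⟩

/-- The largest space is admissible. -/
theorem WmaxΩ_isSpace (hΩ : MeasurableSet Ω) (hg : ∀ n i, CF (g n i))
    {Wm : Submodule ℝ (E3 → E3)} (hW : IsSpG p g Wm) : IsSpace Ω p g (WmaxΩ hΩ hg) where
  upper := fun _ hw => hw
  lower := fun v hv hvc hvs hs => by
    have h1 := hW.mem v hv hvc hs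
    have h2 := Run7.h407.dvg_of_wdf hv (hW.wdf v h1)
    have h3 : IsTest Ω v := ⟨hv, hvc, hvs, h2⟩
    exact ⟨fun x hx => h3.zero_out hx, h3.inH, fun n i => hW.cs v h1 n i⟩

end Pool.Agent.Run7.h980.DW
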