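import Mathlib
import Pool.Agent.Run7.h980.DW.Spc

/-!
From the whole space to an open set.
-/

namespace Pool.Agent.Run7.h980.DW

open Set Filter Topology MeasureTheory
open scoped ContDiff
open Pool.Agent.Run7.h407 (CF)
open Pool.Agent.Run7.h407.G (IsSpG)
open Pool.Agent.Run7.h407.G.X (Fam Blo)
open Pool.Agent.Run7.h407.G.X.L980 (Sup)

variable {Ω : Set E3} {p : ℕ → E3 → E3} {g : ℕ → Fin 3 → E3 → E3} {U : E3 → E3} {z : E3}
  {q : ℝ} {K : Set E3}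

theorem family_of (hΩ : MeasurableSet Ω) (hK : IsClosed K) (hKΩ : K ⊆ Ω)
    (h : Fam q z U p g) (hs : Sup (fun x => x ∈ K) p g) : IsFamily Ω q z U p g := by
  obtain ⟨Wm, hWm, hWi⟩ := h.big
  have hgCF : ∀ n i, CF (g n i) := fun n i => ⟨(h.field n i).1, (h.field n i).2.1⟩
  refine ⟨h.zero, fun n => ⟨⟨(h.mode n).1, (h.mode n).2.1,
    (tsupport_sub_of hK (hs.mode n)).trans hKΩ, (h.mode n).2.2.1⟩, (h.mode n).2.2.2⟩, h.orth,
    fun n i => ⟨(h.field n i).1, (h.field n i).2.1, fun x hx => ⟨hKΩ (tsupport_sub_of hK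
      (hs.field n i) hx), fun hxz => ?_⟩⟩, h.ball,
    ⟨WmaxΩ hΩ hgCF, WmaxΩ_isSpace hΩ hgCF hWm, fun w => Iff.rfl⟩⟩
  rw [mem_singleton_iff] at hxz
  rw [hxz] at hx
  exact notMem_tsupport_iff_eventuallyEq.2 (h.field n i).2.2 hx

/-- The fields which vanish outside `K`. -/
noncomputable def WK (K : Set E3) : Submodule ℝ (E3 → E3) where
  carrier := {w | ∀ x, x ∉ K → w x = 0}
  add_mem' := fun {u v} hu hv x hx => by
    show u x + v x = 0
    rw [hu x hx, hv x hx, add_zero]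
  zero_mem' := fun _ _ => rfl
  smul_mem' := fun c u hu x hx => by
    show c • u x = 0
    rw [hu x hx, smul_zero]

theorem isSpG_inf {W : Submodule ℝ (E3 → E3)} (hW : IsSpG p g W)
    (hp : ∀ n x, x ∉ K → p n x = 0) : IsSpG p g (W ⊓ WK K) where
  l2 := fun w hw => hW.l2 w hw.1
  wdf := fun w hw => hW.wdf w hw.1
  cs := fun w hw => hW.cs w hw.1
  mem := fun v hv hvc hs => by
    refine ⟨hW.mem v hv hvc hs, fun x hx => ?_⟩
    obtain ⟨c, hc⟩ := hs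
    have h1 := hc x
    have h2 : (fun n => c n • p n x) = fun _ => 0 := by
      funext n
      rw [hp n x hx, smul_zero]
    rw [h2] at h1
    exact h1.unique hasSum_zero

theorem blowsUp_of (hΩ : MeasurableSet Ω) (hb : Bornology.IsBounded Ω) (hK : IsCompact K)
    (hKΩ : K ⊆ Ω) {δ ρ ν T₀ : ℝ} {v : E3 → E3} (hν : 0 < ν) (hF : Fam q z U p g)
    (hs : Sup (fun x => x ∈ K) p g) (h : Blo δ z ρ p g ν v T₀) : BlowsUp Ω δ z p g ν v T₀ := by
  obtain ⟨T, hT, hTA, u, k1, k2, k4, k5, k6, k7⟩ := h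
  obtain ⟨Wm, hWm, hWi⟩ := hF.big
  have hWK := isSpG_inf hWm hs.mode
  have hm := (k7 _ hWK).1
  obtain ⟨R, hR⟩ := hK.isBounded.exists_norm_le
  have hu0 : ∀ t ∈ Ico 0 T, ∀ x, x ∉ K → u t x = 0 := fun t ht x hx => (hm.mem t ht).2 x hx
  have htf : Run7.h407.TF T R u := ⟨hm.cls.sm, fun t ht x hx => hu0 t ht x fun hxK =>
    absurd (hR x hxK) (not_le.2 hx)⟩
  have htest : ∀ t ∈ Ico 0 T, IsTest Ω (u t) := fun t ht =>
    ⟨htf.slice_cont ht, (htf.slice_CF ht).cs, (tsupport_sub_of hK.isClosed (hu0 t ht)).trans hKΩ,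
      Run7.h407.dvg_of_wdf (htf.slice_cont ht) (hWm.wdf _ (hm.mem t ht).1)⟩
  have F : Flow Ω T R u := ⟨htf, htest⟩
  refine ⟨T, hT, hTA, u, hm.cls.sm, k1, ⟨K, hK, hKΩ, fun t ht => ⟨htest t ht, hu0 t ht⟩⟩, k4, k5,
    fun W hW => ?_⟩
  have hWG := hW.isSpG hΩ hK.isClosed hKΩ hs.mode
  obtain ⟨l1, -⟩ := k7 W hWG
  have hz0 : ∀ v ∈ W, ∀ x ∉ Ω, v x = 0 := fun v hv x hx => (hW.upper v hv).zero x hx
  refine ⟨fun S hS => ?_, fun S w G w' hw => ?_⟩
  · rcases le_or_gt 0 S with hS0 | hS0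
    · obtain ⟨C, hC⟩ := l1.cls.bd S ⟨hS0, hS⟩
      have := F.strong hb hΩ l1.mem hz0 l1.eqn hS (B := C) (fun t ht x => (hC t ht).1 x)
      rw [k1] at this
      exact this
    · have := F.strong hb hΩ l1.mem hz0 l1.eqn hS (B := 0)
        (fun t ht x => absurd (ht.1.trans ht.2) (not_le.2 hS0))
      rw [k1] at this
      exact this
  · rw [← k1] at hw
    have hST := short hb hΩ F hT k5 hν l1.mem hz0 l1.eqn hw
    refine ⟨hST, ?_⟩
    rcases le_or_gt S 0 with hS0 | hS0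
    · rw [Ioo_eq_empty (not_lt.2 hS0)]
      simp
    · exact uniq' hb hΩ F hν l1.mem hz0 l1.eqn hw hS0 le_rfl hST.le

end Pool.Agent.Run7.h980.DW
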